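import Pool.Agent.W_f569db_h13.Kempf2

/-!
# First order condition for the minimal weighted flag; rationality of the weights
-/

set_option linter.unusedSectionVars false

namespace H13F

open H69 Matrix Finset

variable {α : Type*} [Fintype α] [DecidableEq α] {F : Type*} [Field F]
  {ι : Type*} [Fintype ι] [DecidableEq ι]

theorem wt_add_smul (ξ η : α → ℝ) (ε : ℝ) (a b : ι → α) :
    wt (fun r => ξ r + ε * η r) a b = wt ξ a b + ε * wt η a b := by
  unfold wt
  simp only [Finset.sum_add_distrib, ← Finset.mul_sum]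
  ring

theorem eventually_pos {x y : ℝ} (hx : 0 < x) : ∀ᶠ ε in nhdsWithin (0 : ℝ) (Set.Ioi 0), 0 < x + ε * y := by
  have h1 : ContinuousAt (fun ε : ℝ => x + ε * y) 0 := by fun_prop
  have h2 : (0 : ℝ) < x + 0 * y := by linarith
  exact (h1.eventually (lt_mem_nhds h2)).filter_mono nhdsWithin_le_nhds

/-- The first order condition. -/
theorem first_order {A N : Set (Matrix (ι → α) (ι → α) F)} {g : (Matrix α α F)ˣ} {ξ : α → ℝ}
    (h : PosS A N g ξ) (hm : ∀ ξ' : α → ℝ, PosS A N g ξ' → ∑ r, ξ r ^ 2 ≤ ∑ r, ξ' r ^ 2) (η : α → ℝ)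
    (h0 : ∀ x ∈ A, ∀ a b, cj g⁻¹ x a b ≠ 0 → wt ξ a b = 0 → 0 ≤ wt η a b)
    (h1 : ∀ x ∈ N, ∀ a b, cj g⁻¹ x a b ≠ 0 → wt ξ a b = 1 → 0 ≤ wt η a b) :
    0 ≤ ∑ r, ξ r * η r := by
  by_contra hneg
  push Not at hneg
  have e1 : ∀ᶠ ε in nhdsWithin (0 : ℝ) (Set.Ioi 0), ∀ p : (ι → α) × (ι → α), 0 < wt ξ p.1 p.2 →
      0 < wt ξ p.1 p.2 + ε * wt η p.1 p.2 := by
    refine Filter.eventually_all.2 fun p => ?_
    by_cases hp : 0 < wt ξ p.1 p.2
    · exact (eventually_pos hp).mono fun ε hε _ => hε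
    · exact Filter.Eventually.of_forall fun ε hε => absurd hε hp
  have e2 : ∀ᶠ ε in nhdsWithin (0 : ℝ) (Set.Ioi 0), ∀ p : (ι → α) × (ι → α), 1 < wt ξ p.1 p.2 →
      0 < (wt ξ p.1 p.2 - 1) + ε * wt η p.1 p.2 := by
    refine Filter.eventually_all.2 fun p => ?_
    by_cases hp : 1 < wt ξ p.1 p.2
    · exact (eventually_pos (by linarith)).mono fun ε hε _ => hε
    · exact Filter.Eventually.of_forall fun ε hε => absurd hε hp
  have e3 : ∀ᶠ ε in nhdsWithin (0 : ℝ) (Set.Ioi 0),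
      0 < (-2 * ∑ r, ξ r * η r) + ε * (-∑ r, η r ^ 2) := eventually_pos (by linarith)
  have e4 : ∀ᶠ ε in nhdsWithin (0 : ℝ) (Set.Ioi 0), 0 < ε := eventually_mem_nhdsWithin
  obtain ⟨ε, ⟨⟨h2, h3⟩, h4⟩, h5⟩ := (((e1.and e2).and e3).and e4).exists
  have hP : PosS A N g fun r => ξ r + ε * η r := by
    refine ⟨fun x hx a b hab => ?_, fun x hx a b hab => ?_⟩
    · rw [wt_add_smul]
      rcases (h.1 x hx a b hab).lt_or_eq with hlt | heq
      · exact (h2 (a, b) hlt).le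
      · have h6 := h0 x hx a b hab heq.symm
        have h7 := mul_nonneg h5.le h6
        linarith
    · rw [wt_add_smul]
      rcases (h.2 x hx a b hab).lt_or_eq with hlt | heq
      · have h6 := h3 (a, b) hlt
        change 0 < (wt ξ a b - 1) + ε * wt η a b at h6
        linarith
      · have h6 := h1 x hx a b hab heq.symm
        have h7 := mul_nonneg h5.le h6
        linarith
  have h6 := hm _ hP
  have h7 : ∑ r, (ξ r + ε * η r) ^ 2 = ∑ r, ξ r ^ 2 + ε * (2 * ∑ r, ξ r * η r + ε * ∑ r, η r ^ 2) := by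
    have : ∀ r, (ξ r + ε * η r) ^ 2 = ξ r ^ 2 + ε * (2 * (ξ r * η r) + ε * η r ^ 2) := by
      intro r; ring
    simp only [this, Finset.sum_add_distrib, ← Finset.mul_sum]
  have h8 : ε * (2 * ∑ r, ξ r * η r + ε * ∑ r, η r ^ 2) < 0 := by
    apply mul_neg_of_pos_of_neg h5
    linarith
  linarith

theorem wt_neg (η : α → ℝ) (a b : ι → α) : wt (fun r => -η r) a b = -wt η a b := by
  unfold wt
  simp only [Finset.sum_neg_distrib]
  ring

/-- The first order condition for directions in which the active weights are constant. -/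
theorem first_order_eq {A N : Set (Matrix (ι → α) (ι → α) F)} {g : (Matrix α α F)ˣ} {ξ : α → ℝ}
    (h : PosS A N g ξ) (hm : ∀ ξ' : α → ℝ, PosS A N g ξ' → ∑ r, ξ r ^ 2 ≤ ∑ r, ξ' r ^ 2) (η : α → ℝ)
    (h0 : ∀ x ∈ A, ∀ a b, cj g⁻¹ x a b ≠ 0 → wt ξ a b = 0 → wt η a b = 0)
    (h1 : ∀ x ∈ N, ∀ a b, cj g⁻¹ x a b ≠ 0 → wt ξ a b = 1 → wt η a b = 0) :
    ∑ r, ξ r * η r = 0 := by
  apply le_antisymm
  · have h2 := first_order h hm (fun r => -η r)
      (fun x hx a b hab hw => by rw [wt_neg, h0 x hx a b hab hw, neg_zero])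
      (fun x hx a b hab hw => by rw [wt_neg, h1 x hx a b hab hw, neg_zero])
    simp only [mul_neg, Finset.sum_neg_distrib] at h2
    linarith
  · exact first_order h hm η (fun x hx a b hab hw => (h0 x hx a b hab hw).ge)
      (fun x hx a b hab hw => (h1 x hx a b hab hw).ge)

theorem wt_apply (f : ℝ →ₗ[ℚ] ℚ) (ξ : α → ℝ) (a b : ι → α) :
    wt (fun r => ((f (ξ r) : ℚ) : ℝ)) a b = ((f (wt ξ a b) : ℚ) : ℝ) := by
  unfold wt
  rw [map_sub, map_sum, map_sum]
  push_cast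
  rfl

/-- The weights of the minimal weighted flag are rational. -/
theorem rational_of_minimal {A N : Set (Matrix (ι → α) (ι → α) F)} {g : (Matrix α α F)ˣ} {ξ : α → ℝ}
    (h : PosS A N g ξ) (hm : ∀ ξ' : α → ℝ, PosS A N g ξ' → ∑ r, ξ r ^ 2 ≤ ∑ r, ξ' r ^ 2) (r : α) :
    ∃ q : ℚ, ξ r = q := by
  by_contra hcon
  have h1 : ξ r ∉ Submodule.span ℚ {(1 : ℝ)} := by
    intro h2
    obtain ⟨q, hq⟩ := Submodule.mem_span_singleton.1 h2
    refine hcon ⟨q, ?_⟩
    rw [← hq, Rat.smul_def, mul_one]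
  obtain ⟨f, hf, hf1⟩ := Submodule.exists_le_ker_of_notMem h1
  have hf1' : f 1 = 0 := hf1 (Submodule.mem_span_singleton_self 1)
  have h2 := first_order_eq h hm (fun r => ((f (ξ r) : ℚ) : ℝ))
    (fun x hx a b hab hw => by rw [wt_apply, hw, map_zero, Rat.cast_zero])
    (fun x hx a b hab hw => by rw [wt_apply, hw, hf1', Rat.cast_zero])
  have h3 : ∑ r, f (ξ r) * f (ξ r) = 0 := by
    have h4 : ∀ r, ξ r * ((f (ξ r) : ℚ) : ℝ) = f (ξ r) • ξ r := by
      intro r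
      rw [Rat.smul_def, mul_comm]
    simp only [h4] at h2
    have h5 := congrArg f h2
    rw [map_sum, map_zero] at h5
    simpa only [map_smul, smul_eq_mul] using h5
  have h4 := (Finset.sum_eq_zero_iff_of_nonneg (fun i _ => mul_self_nonneg (f (ξ i)))).1 h3 r
    (Finset.mem_univ r)
  exact hf (mul_self_eq_zero.1 h4)

end H13F
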