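import Pool.Agent.W_f569db_h13.Sym

set_option autoImplicit false

/-!
# The canonical normalised weighted basis, stable under all symmetries
-/

noncomputable section

namespace H13F

open AlgebraicGeometry CategoryTheory MonoidalCategory
open scoped TensorProduct DirectSum
open Pool.Agent.WeilH_h6 Pool.Agent.WeilH_h6.VarClass Pool.Agent.WeilH_h6.Weil

universe u v w

variable {k : Type u} [Field k] {𝒱 : VarClass k} {K : Type v} [Field K] {W : Weil.{u, v, w} 𝒱 K}

theorem exists_dual (X : 𝒱.Obj) (l : Module.Dual K (W.H X)) :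
    ∃ y : W.H X, ∀ x, W.tr X (x * y) = l x := by
  refine ⟨(W.pd X).symm (l ∘ₗ W.par X), fun x => ?_⟩
  rw [W.tr_comm, ← W.pd_apply, LinearEquiv.apply_symm_apply, LinearMap.comp_apply, W.par_par]

section mat

variable {X : 𝒱.Obj} {α : Type} [Fintype α] [DecidableEq α]

theorem tr_col_row {b b' : α → W.H X} (hd : ∀ i j, W.tr X (b i * b' j) = if i = j then 1 else 0)
    (A B : Matrix α α K) (i j : α) : W.tr X (colB b A i * rowB b' B j) = (B * A) j i := by
  unfold colB rowB
  rw [Finset.sum_mul_sum, map_sum, Matrix.mul_apply]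
  refine Finset.sum_congr rfl fun p _ => ?_
  rw [map_sum, Finset.sum_eq_single p]
  · rw [smul_mul_smul_comm, map_smul, hd, if_pos rfl, smul_eq_mul, mul_one, mul_comm]
  · intro q _ hq
    rw [smul_mul_smul_comm, map_smul, hd, if_neg (Ne.symm hq), smul_zero]
  · intro h; exact absurd (Finset.mem_univ _) h

theorem exp_col {b b' : α → W.H X} (hd : ∀ i j, W.tr X (b i * b' j) = if i = j then 1 else 0)
    (hb : ∀ x, x ∈ Submodule.span K (Set.range b)) (h : (Matrix α α K)ˣ) (x : W.H X) :
    x = ∑ i, W.tr X (x * rowB b' ((h⁻¹ : (Matrix α α K)ˣ) : Matrix α α K) i) •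
      colB b (h : Matrix α α K) i := by
  have h1 : ∀ j, b j = ∑ i, W.tr X (b j * rowB b' ((h⁻¹ : (Matrix α α K)ˣ) : Matrix α α K) i) •
      colB b (h : Matrix α α K) i := by
    intro j
    have h2 : ∀ i, W.tr X (b j * rowB b' ((h⁻¹ : (Matrix α α K)ˣ) : Matrix α α K) i) =
        ((h⁻¹ : (Matrix α α K)ˣ) : Matrix α α K) i j := by
      intro i
      unfold rowB
      rw [Finset.mul_sum, map_sum, Finset.sum_eq_single j]
      · rw [mul_smul_comm, map_smul, hd, if_pos rfl, smul_eq_mul, mul_one]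
      · intro q _ hq
        rw [mul_smul_comm, map_smul, hd, if_neg (Ne.symm hq), smul_zero]
      · intro h; exact absurd (Finset.mem_univ _) h
    simp only [h2]
    unfold colB
    simp only [Finset.smul_sum, smul_smul]
    rw [Finset.sum_comm]
    have h3 : ∀ p, ∑ i, (((h⁻¹ : (Matrix α α K)ˣ) : Matrix α α K) i j *
        (h : Matrix α α K) p i) • b p = ((h : Matrix α α K) *
          ((h⁻¹ : (Matrix α α K)ˣ) : Matrix α α K)) p j • b p := by
      intro p
      rw [← Finset.sum_smul, Matrix.mul_apply]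
      congr 1
      exact Finset.sum_congr rfl fun i _ => mul_comm _ _
    simp only [h3, Units.mul_inv]
    rw [Finset.sum_eq_single j]
    · rw [Matrix.one_apply_eq, one_smul]
    · intro p _ hp
      rw [Matrix.one_apply_ne hp, zero_smul]
    · intro h; exact absurd (Finset.mem_univ _) h
  have hx := hb x
  induction hx using Submodule.span_induction with
  | mem x hx =>
    obtain ⟨j, rfl⟩ := hx
    exact h1 j
  | zero => simp
  | add x y _ _ hx hy =>
    conv_lhs => rw [hx, hy]
    rw [← Finset.sum_add_distrib]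
    refine Finset.sum_congr rfl fun i _ => ?_
    rw [add_mul, map_add, add_smul]
  | smul c x _ hx =>
    conv_lhs => rw [hx]
    rw [Finset.smul_sum]
    refine Finset.sum_congr rfl fun i _ => ?_
    rw [smul_mul_assoc, map_smul, smul_smul, smul_eq_mul]

end mat

/-- The canonical normalised weighted basis. -/
theorem exists_nwb [CharZero K] {X : 𝒱.Obj} (hpar : W.par X ∈ W.algHom X X) {n : ℕ} (hn : 1 ≤ n) :
    ∃ (r : ℕ) (B : NWB (W := W) (X := X) hpar n (Fin r)), ∀ (S : Symm W X) (t : ℝ), ∀ x ∈ B.Fil t,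
      S.g x ∈ B.Fil t := by
  classical
  let b := Module.finBasis K (W.H X)
  choose b' hb' using fun j => exists_dual X (b.coord j)
  have hd : ∀ i j, W.tr X (b i * b' j) = if i = j then 1 else 0 := by
    intro i j
    rw [hb', b.coord_apply, b.repr_self, Finsupp.single_apply]
  have hspan : ∀ x, x ∈ Submodule.span K (Set.range b) := by
    intro x
    rw [b.span_eq]
    exact Submodule.mem_top
  obtain ⟨h, ξ, hP, hmin⟩ := exists_minimal2 _ _ (exists_posS hpar b n)
  have hG := (posS_iff hpar hspan hd n h ξ).1 hP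
  obtain ⟨p, hp⟩ := exists_normal hpar hn (exp_col hd hspan h) hG
  let B : NWB (W := W) (X := X) hpar n (Fin (Module.finrank K (W.H X))) :=
    { v := colB b (h : Matrix _ _ K)
      v' := rowB b' ((h⁻¹ : (Matrix _ _ K)ˣ) : Matrix _ _ K)
      ξ := fun i => ξ i - p
      dual := fun i j hij => by
        rw [tr_col_row hd, Units.inv_mul, Matrix.one_apply_ne (Ne.symm hij)]
      one := fun i => by
        rw [tr_col_row hd, Units.inv_mul, Matrix.one_apply_eq]
      exp := exp_col hd hspan h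
      neg := fun m hm Y hY a => (hp m hm Y hY a).1
      pos := fun m hm Y hY a h0 => ((hp m hm Y hY a).2 h0).1 }
  refine ⟨_, B, fun S t x hx => ?_⟩
  obtain ⟨γ, hγ⟩ := S.exists_matrix b
  let hσ : (Matrix (Fin (Module.finrank K (W.H X))) (Fin (Module.finrank K (W.H X))) K)ˣ :=
    Units.map (RingHom.mapMatrix (S.σ : K →+* K)).toMonoidHom h
  let h2 := γ * hσ
  have hcol : ∀ j, colB b (h2 : Matrix _ _ K) j = S.g (colB b (h : Matrix _ _ K) j) := by
    intro j
    unfold colB
    rw [S.g_sum]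
    have h3 : ∀ i, S.g ((h : Matrix _ _ K) i j • b i) =
        ∑ q, (S.σ ((h : Matrix _ _ K) i j) * (γ : Matrix _ _ K) q i) • b q := by
      intro i
      rw [S.g_smul, hγ, Finset.smul_sum]
      exact Finset.sum_congr rfl fun q _ => smul_smul _ _ _
    simp only [h3]
    rw [Finset.sum_comm]
    refine Finset.sum_congr rfl fun q _ => ?_
    rw [← Finset.sum_smul]
    congr 1
    have h4 : (h2 : Matrix (Fin (Module.finrank K (W.H X))) (Fin (Module.finrank K (W.H X))) K) q j =
        ∑ i, (γ : Matrix (Fin (Module.finrank K (W.H X))) (Fin (Module.finrank K (W.H X))) K) q i *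
          S.σ ((h : Matrix (Fin (Module.finrank K (W.H X))) (Fin (Module.finrank K (W.H X))) K) i j) := by
      change ((γ : Matrix (Fin (Module.finrank K (W.H X))) (Fin (Module.finrank K (W.H X))) K) *
        (hσ : Matrix (Fin (Module.finrank K (W.H X))) (Fin (Module.finrank K (W.H X))) K)) q j = _
      rw [Matrix.mul_apply]
      rfl
    rw [h4]
    exact Finset.sum_congr rfl fun i _ => mul_comm _ _
  have hrow : ∀ j, rowB b' ((h2⁻¹ : (Matrix _ _ K)ˣ) : Matrix _ _ K) j =
      S.μ⁻¹ • S.g (rowB b' ((h⁻¹ : (Matrix _ _ K)ˣ) : Matrix _ _ K) j) := by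
    intro j
    refine W.ext_tr' fun w => ?_
    rw [exp_col hd hspan h2 w, Finset.sum_mul, Finset.sum_mul, map_sum, map_sum]
    refine Finset.sum_congr rfl fun i _ => ?_
    rw [smul_mul_assoc, smul_mul_assoc, map_smul, map_smul]
    congr 1
    rw [tr_col_row hd, Units.inv_mul, mul_smul_comm, map_smul, hcol, S.tr_mul, tr_col_row hd,
      Units.inv_mul, smul_eq_mul, ← mul_assoc, inv_mul_cancel₀ S.μ_ne, one_mul, Matrix.one_apply]
    split_ifs
    · rw [map_one]
    · rw [map_zero]
  have hG2 : PosG hpar n (colB b (h2 : Matrix _ _ K))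
      (rowB b' ((h2⁻¹ : (Matrix _ _ K)ˣ) : Matrix _ _ K)) ξ := by
    intro Y hY Y' hY' a a' h3 h4
    obtain ⟨Y, rfl⟩ := S.G_surj n Y
    obtain ⟨Y', rfl⟩ := S.G_surj n Y'
    have h5 : (fun s => rowB b' ((h2⁻¹ : (Matrix _ _ K)ˣ) : Matrix _ _ K) (a s)) =
        fun s => S.μ⁻¹ • S.g (rowB b' ((h⁻¹ : (Matrix _ _ K)ˣ) : Matrix _ _ K) (a s)) := by
      funext s; exact hrow _
    have h6 : (fun s => colB b (h2 : Matrix _ _ K) (a' s)) =
        fun s => S.g (colB b (h : Matrix _ _ K) (a' s)) := by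
      funext s; exact hcol _
    rw [h5, ← pureM_apply, MultilinearMap.map_smul_univ, pureM_apply, fB_smul_right, S.fB_G] at h3
    rw [h6, S.fB_G] at h4
    have h7 := hG Y ((S.alg_iff n Y).1 hY) Y' ((S.alg_iff n Y').1 hY') a a'
      (fun h0 => h3 (by rw [h0, map_zero, mul_zero, mul_zero]))
      (fun h0 => h4 (by rw [h0, map_zero, mul_zero]))
    refine ⟨h7.1, fun hnt => h7.2 ?_⟩
    rcases hnt with hnt | hnt
    · exact Or.inl (S.nt_of_G n hnt)
    · exact Or.inr (S.nt_of_G n hnt)
  have hsame := unique_minimal2 _ _ hP ((posS_iff hpar hspan hd n h2 ξ).2 hG2) hmin le_rfl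
  -- stability
  intro i hi
  have h8 : ∀ r, W.tr X (S.g (colB b (h : Matrix _ _ K) r) *
      rowB b' ((h⁻¹ : (Matrix _ _ K)ˣ) : Matrix _ _ K) i) ≠ 0 → ξ r ≤ ξ i := by
    intro r hr
    rw [← hcol, tr_col_row hd] at hr
    exact hsame.1 i r hr
  rw [B.exp x, S.g_sum, Finset.sum_mul, map_sum]
  refine Finset.sum_eq_zero fun r _ => ?_
  rw [S.g_smul, smul_mul_assoc, map_smul, smul_eq_mul]
  by_contra h0
  have h9 : ξ r ≤ ξ i := h8 r (right_ne_zero_of_mul h0)
  have h10 : W.tr X (x * B.v' r) ≠ 0 := fun h11 => left_ne_zero_of_mul h0 (by rw [h11, map_zero])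
  have h11 : t ≤ ξ r - p := by
    by_contra h12
    exact h10 (hx r (not_le.1 h12))
  have h12 : ξ i - p < t := hi
  linarith

end H13F
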