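import Pool.Agent.W_f569db_h13.Descent

/-!
# A basis of generalised eigenvectors adapted to a stable weighted flag
-/

set_option linter.unusedSectionVars false

namespace H13F

open H69 Matrix Finset

variable {α : Type*} [Fintype α] [DecidableEq α] {L : Type*} [Field L]

/-- the filtration by the weights of the coordinates -/
def cF (L : Type*) [Field L] (ξ : α → ℝ) (t : ℝ) : Submodule L (α → L) where
  carrier := {v | ∀ r, v r ≠ 0 → t ≤ ξ r}
  add_mem' := by
    intro a b ha hb r hr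
    rw [Pi.add_apply] at hr
    by_cases h0 : a r = 0
    · rw [h0, zero_add] at hr; exact hb r hr
    · exact ha r h0
  zero_mem' := by
    intro r hr
    exact absurd rfl hr
  smul_mem' := by
    intro c a ha r hr
    rw [Pi.smul_apply, smul_eq_mul] at hr
    exact ha r (right_ne_zero_of_mul hr)

theorem mem_cF {ξ : α → ℝ} {t : ℝ} {v : α → L} : v ∈ cF L ξ t ↔ ∀ r, v r ≠ 0 → t ≤ ξ r := Iff.rfl

/-- the level of a vector -/
noncomputable def lev (ξ : α → ℝ) (v : α → L) : ℝ := by
  classical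
  exact if hS : (Finset.univ.filter fun r => v r ≠ 0).Nonempty then
    (Finset.univ.filter fun r => v r ≠ 0).inf' hS ξ else 0

theorem lev_le {ξ : α → ℝ} {v : α → L} {r : α} (hr : v r ≠ 0) : lev ξ v ≤ ξ r := by
  classical
  have hS : (Finset.univ.filter fun r => v r ≠ 0).Nonempty :=
    ⟨r, Finset.mem_filter.2 ⟨Finset.mem_univ _, hr⟩⟩
  unfold lev
  rw [dif_pos hS]
  exact Finset.inf'_le ξ (Finset.mem_filter.2 ⟨Finset.mem_univ r, hr⟩)

theorem exists_lev {ξ : α → ℝ} {v : α → L} (hv : v ≠ 0) : ∃ r, v r ≠ 0 ∧ lev ξ v = ξ r := by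
  classical
  obtain ⟨r, hr⟩ := Function.ne_iff.1 hv
  have hS : (Finset.univ.filter fun r => v r ≠ 0).Nonempty :=
    ⟨r, Finset.mem_filter.2 ⟨Finset.mem_univ _, hr⟩⟩
  obtain ⟨q, hq, hq2⟩ := Finset.exists_mem_eq_inf' hS ξ
  refine ⟨q, (Finset.mem_filter.1 hq).2, ?_⟩
  unfold lev
  rw [dif_pos hS]
  exact hq2

theorem le_lev {ξ : α → ℝ} {v : α → L} (hv : v ≠ 0) {t : ℝ} : t ≤ lev ξ v ↔ v ∈ cF L ξ t := by
  constructor
  · intro h r hr
    exact h.trans (lev_le hr)
  · intro h
    obtain ⟨r, hr, hr2⟩ := exists_lev (ξ := ξ) hv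
    rw [hr2]
    exact h r hr

/-- the rank of a level -/
noncomputable def lrk (ξ : α → ℝ) (t : ℝ) : ℕ := by
  classical
  exact (Finset.univ.filter fun r => ξ r < t).card

theorem lrk_le_card (ξ : α → ℝ) (t : ℝ) : lrk ξ t ≤ Fintype.card α := by
  classical
  unfold lrk
  exact Finset.card_le_univ _

theorem lrk_mono {ξ : α → ℝ} {s t : ℝ} (h : s ≤ t) : lrk ξ s ≤ lrk ξ t := by
  classical
  unfold lrk
  refine Finset.card_le_card fun r hr => ?_
  rw [Finset.mem_filter] at hr ⊢
  exact ⟨hr.1, lt_of_lt_of_le hr.2 h⟩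

theorem lrk_lt {ξ : α → ℝ} {r : α} {t : ℝ} (h : ξ r < t) : lrk ξ (ξ r) < lrk ξ t := by
  classical
  unfold lrk
  refine Finset.card_lt_card ?_
  rw [Finset.ssubset_iff_of_subset]
  · exact ⟨r, Finset.mem_filter.2 ⟨Finset.mem_univ _, h⟩, fun h1 =>
      lt_irrefl _ (Finset.mem_filter.1 h1).2⟩
  · intro q hq
    rw [Finset.mem_filter] at hq ⊢
    exact ⟨hq.1, hq.2.trans h⟩

/-- `v` is a generalised eigenvector of order at most `k` -/
def GE (f : Module.End L (α → L)) (k : ℕ) (v : α → L) : Prop :=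
  ∃ μ : L, ((f - algebraMap L (Module.End L (α → L)) μ) ^ k) v = 0

/-- the order of a generalised eigenvector -/
noncomputable def ord (f : Module.End L (α → L)) (v : α → L) : ℕ := sInf {k | GE f k v}

theorem GE_ord {f : Module.End L (α → L)} {v : α → L} (h : ∃ k, GE f k v) : GE f (ord f v) v :=
  Nat.sInf_mem (s := {k | GE f k v}) h

theorem ord_le {f : Module.End L (α → L)} {v : α → L} {k : ℕ} (h : GE f k v) : ord f v ≤ k :=
  Nat.sInf_le (s := {k | GE f k v}) h

theorem mem_maxGen_iff {f : Module.End L (α → L)} {v : α → L} {μ : L} :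
    v ∈ f.maxGenEigenspace μ ↔ ((f - algebraMap L (Module.End L (α → L)) μ) ^ Fintype.card α) v = 0 := by
  rw [Module.End.maxGenEigenspace_eq_genEigenspace_finrank, Module.finrank_fintype_fun_eq_card,
    Module.End.mem_genEigenspace_nat, LinearMap.mem_ker]
  rfl

theorem mem_maxGen_of_pow {f : Module.End L (α → L)} {v : α → L} {μ : L} {k : ℕ}
    (h : ((f - algebraMap L (Module.End L (α → L)) μ) ^ k) v = 0) : v ∈ f.maxGenEigenspace μ := by
  rw [Module.End.mem_maxGenEigenspace]
  exact ⟨k, h⟩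

theorem ord_le_card {f : Module.End L (α → L)} {v : α → L} (h : ∃ k, GE f k v) :
    ord f v ≤ Fintype.card α := by
  obtain ⟨k, μ, hk⟩ := h
  exact ord_le ⟨μ, mem_maxGen_iff.1 (mem_maxGen_of_pow hk)⟩

/-- the function used for the adapted basis -/
noncomputable def rho (f : Module.End L (α → L)) (ξ : α → ℝ) (v : α → L) : ℝ := by
  classical
  exact if ∃ k, GE f k v then ((Fintype.card α + 1 : ℕ) : ℝ) * lrk ξ (lev ξ v) - ord f v
    else -((Fintype.card α + 2 : ℕ) : ℝ)

theorem rho_of_ge {f : Module.End L (α → L)} {ξ : α → ℝ} {v : α → L} (h : ∃ k, GE f k v) :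
    rho f ξ v = ((Fintype.card α + 1 : ℕ) : ℝ) * lrk ξ (lev ξ v) - ord f v := by
  classical
  unfold rho
  exact if_pos h

theorem rho_of_not {f : Module.End L (α → L)} {ξ : α → ℝ} {v : α → L} (h : ¬ ∃ k, GE f k v) :
    rho f ξ v = -((Fintype.card α + 2 : ℕ) : ℝ) := by
  classical
  unfold rho
  exact if_neg h

theorem rho_gt {f : Module.End L (α → L)} {ξ : α → ℝ} {v : α → L} (h : ∃ k, GE f k v) :
    -((Fintype.card α + 2 : ℕ) : ℝ) < rho f ξ v := by
  rw [rho_of_ge h]
  have h1 : ((ord f v : ℕ) : ℝ) ≤ Fintype.card α := by exact_mod_cast ord_le_card h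
  have h2 : (0 : ℝ) ≤ ((Fintype.card α + 1 : ℕ) : ℝ) * lrk ξ (lev ξ v) := by positivity
  push_cast at h2 ⊢
  linarith

theorem rho_lt_of_lev {f : Module.End L (α → L)} {ξ : α → ℝ} {u v : α → L} (hu : ∃ k, GE f k u)
    (hv : ∃ k, GE f k v) (hv0 : v ≠ 0) (h : lev ξ v < lev ξ u) : rho f ξ v < rho f ξ u := by
  rw [rho_of_ge hu, rho_of_ge hv]
  obtain ⟨r, -, hr⟩ := exists_lev (ξ := ξ) hv0
  have h1 : lrk ξ (lev ξ v) < lrk ξ (lev ξ u) := by
    rw [hr] at h ⊢
    exact lrk_lt h
  have h2 : ((lrk ξ (lev ξ v) : ℕ) : ℝ) + 1 ≤ lrk ξ (lev ξ u) := by exact_mod_cast h1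
  have h3 : ((ord f u : ℕ) : ℝ) ≤ Fintype.card α := by exact_mod_cast ord_le_card hu
  have h4 : (0 : ℝ) ≤ ((ord f v : ℕ) : ℝ) := Nat.cast_nonneg _
  have h5 : ((Fintype.card α + 1 : ℕ) : ℝ) * ((lrk ξ (lev ξ v) : ℕ) + 1) ≤
      ((Fintype.card α + 1 : ℕ) : ℝ) * lrk ξ (lev ξ u) :=
    mul_le_mul_of_nonneg_left h2 (Nat.cast_nonneg _)
  rw [mul_add, mul_one] at h5
  push_cast at h5 ⊢
  linarith

theorem rho_lt_of_ord {f : Module.End L (α → L)} {ξ : α → ℝ} {u v : α → L} (hu : ∃ k, GE f k u)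
    (hv : ∃ k, GE f k v) (h : lev ξ v ≤ lev ξ u) (h' : ord f u < ord f v) :
    rho f ξ v < rho f ξ u := by
  rw [rho_of_ge hu, rho_of_ge hv]
  have h1 : ((lrk ξ (lev ξ v) : ℕ) : ℝ) ≤ lrk ξ (lev ξ u) := by exact_mod_cast lrk_mono h
  have h2 : ((ord f u : ℕ) : ℝ) < ord f v := by exact_mod_cast h'
  have h3 := mul_le_mul_of_nonneg_left h1 (Nat.cast_nonneg (α := ℝ) (Fintype.card α + 1))
  linarith

theorem rho_finite (f : Module.End L (α → L)) (ξ : α → ℝ) : (Set.range (rho f ξ)).Finite := by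
  classical
  let S : Finset ℝ := ((Finset.range (Fintype.card α + 1)) ×ˢ (Finset.range (Fintype.card α + 1))).image
    fun p => ((Fintype.card α + 1 : ℕ) : ℝ) * (p.1 : ℕ) - (p.2 : ℕ)
  refine Set.Finite.subset ((Finset.finite_toSet S).union (Set.finite_singleton
    (-((Fintype.card α + 2 : ℕ) : ℝ)))) ?_
  rintro _ ⟨v, rfl⟩
  by_cases h : ∃ k, GE f k v
  · left
    rw [Finset.mem_coe]
    refine Finset.mem_image.2 ⟨(lrk ξ (lev ξ v), ord f v), ?_, (rho_of_ge h).symm⟩
    rw [Finset.mem_product, Finset.mem_range, Finset.mem_range]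
    exact ⟨Nat.lt_succ_of_le (lrk_le_card _ _), Nat.lt_succ_of_le (ord_le_card h)⟩
  · right
    exact rho_of_not h

/-- A basis of generalised eigenvectors, adapted to a stable weighted flag, in which the matrix is
triangular. -/
theorem exists_eigbasis [IsAlgClosed L] (δ : Matrix α α L) (ξ : α → ℝ) (hδ : Le δ ξ ξ) :
    ∃ (P : (Matrix α α L)ˣ) (ξ' ρ : α → ℝ) (c : α → L), Le (P : Matrix α α L) ξ ξ' ∧
      Le ((P⁻¹ : (Matrix α α L)ˣ) : Matrix α α L) ξ' ξ ∧
      (∀ j, (((P⁻¹ : (Matrix α α L)ˣ) : Matrix α α L) * δ * (P : Matrix α α L)) j j = c j) ∧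
      ∀ i j, i ≠ j → (((P⁻¹ : (Matrix α α L)ˣ) : Matrix α α L) * δ * (P : Matrix α α L)) i j ≠ 0 →
        c i = c j ∧ ρ j < ρ i := by
  classical
  let f : Module.End L (α → L) := Matrix.toLin' δ
  have hfF : ∀ t, ∀ v ∈ cF L ξ t, f v ∈ cF L ξ t := by
    intro t v hv r hr
    have h1 : ∑ q, δ r q * v q ≠ 0 := hr
    obtain ⟨q, -, hq⟩ := Finset.exists_ne_zero_of_sum_ne_zero h1
    exact (hv q (right_ne_zero_of_mul hq)).trans (hδ r q (left_ne_zero_of_mul hq))
  obtain ⟨P, hP⟩ := adapted_basis (rho f ξ) (rho_finite f ξ)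
  let col : α → (α → L) := fun j i => (P : Matrix α α L) i j
  let co : (α → L) → (α → L) := fun v => ((P⁻¹ : (Matrix α α L)ˣ) : Matrix α α L).mulVec v
  have hP' : ∀ v, v ≠ 0 → ∀ j, co v j ≠ 0 → rho f ξ v ≤ rho f ξ (col j) :=
    fun v hv j hj => hP (rho f ξ v) v hv le_rfl j hj
  have hcocol : ∀ j, co (col j) = Pi.single j 1 := by
    intro j
    have h1 : col j = (P : Matrix α α L).mulVec (Pi.single j 1) := by
      funext i
      rw [Matrix.mulVec_single_one]
      rfl
    change ((P⁻¹ : (Matrix α α L)ˣ) : Matrix α α L).mulVec (col j) = _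
    rw [h1, Matrix.mulVec_mulVec, Units.inv_mul, Matrix.one_mulVec]
  have hcol0 : ∀ j, col j ≠ 0 := by
    intro j h0
    have h1 := hcocol j
    rw [h0] at h1
    have h2 := congrFun h1 j
    rw [Pi.single_eq_same] at h2
    change ((P⁻¹ : (Matrix α α L)ˣ) : Matrix α α L).mulVec 0 j = 1 at h2
    rw [Matrix.mulVec_zero, Pi.zero_apply] at h2
    exact zero_ne_one h2
  -- all columns are generalised eigenvectors
  have hge : ∀ j, ∃ k, GE f k (col j) := by
    intro j
    by_contra hcon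
    have h1 : ∀ v : α → L, v ∈ LinearMap.ker ((LinearMap.proj j : (α → L) →ₗ[L] L) ∘ₗ
        Matrix.mulVecLin ((P⁻¹ : (Matrix α α L)ˣ) : Matrix α α L)) := by
      intro v
      have h2 : (⊤ : Submodule L (α → L)) ≤ LinearMap.ker ((LinearMap.proj j : (α → L) →ₗ[L] L) ∘ₗ
        Matrix.mulVecLin ((P⁻¹ : (Matrix α α L)ˣ) : Matrix α α L)) := by
        rw [← Module.End.iSup_maxGenEigenspace_eq_top f]
        refine iSup_le fun μ u hu => ?_
        rw [LinearMap.mem_ker]
        by_contra h0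
        have hu0 : u ≠ 0 := by
          rintro rfl
          exact h0 (map_zero _)
        have h3 := hP' u hu0 j h0
        rw [rho_of_not hcon] at h3
        have h4 := rho_gt (f := f) (ξ := ξ) (v := u) ⟨_, μ, mem_maxGen_iff.1 hu⟩
        linarith
      exact h2 Submodule.mem_top
    have h2 := h1 (col j)
    rw [LinearMap.mem_ker] at h2
    have h3 : co (col j) j = 0 := h2
    rw [hcocol, Pi.single_eq_same] at h3
    exact one_ne_zero h3
  choose c hc using fun j => GE_ord (hge j)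
  have hcV : ∀ j, col j ∈ f.maxGenEigenspace (c j) := fun j => mem_maxGen_of_pow (hc j)
  -- the difference
  let u : α → (α → L) := fun j => (f - algebraMap L (Module.End L (α → L)) (c j)) (col j)
  have hu_eq : ∀ j, f (col j) = c j • col j + u j := by
    intro j
    change f (col j) = c j • col j + (f - algebraMap L (Module.End L (α → L)) (c j)) (col j)
    rw [LinearMap.sub_apply, Module.algebraMap_end_apply]
    abel
  have hord : ∀ j, ord f (col j) ≠ 0 := by
    intro j h0
    have h1 := hc j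
    rw [h0, pow_zero, Module.End.one_apply] at h1
    exact hcol0 j h1
  have hu_ge : ∀ j, GE f (ord f (col j) - 1) (u j) := by
    intro j
    refine ⟨c j, ?_⟩
    have h1 := hc j
    obtain ⟨k, hk⟩ := Nat.exists_eq_succ_of_ne_zero (hord j)
    rw [hk] at h1 ⊢
    rw [Nat.succ_eq_add_one, pow_succ, Module.End.mul_apply] at h1
    exact h1
  have hu_F : ∀ j, u j ∈ cF L ξ (lev ξ (col j)) := by
    intro j
    have h1 : col j ∈ cF L ξ (lev ξ (col j)) := (le_lev (hcol0 j)).1 le_rfl
    have h2 : u j = f (col j) - c j • col j := by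
      rw [hu_eq]; abel
    rw [h2]
    exact Submodule.sub_mem _ (hfF _ _ h1) (Submodule.smul_mem _ _ h1)
  have hu_rho : ∀ j, u j ≠ 0 → rho f ξ (col j) < rho f ξ (u j) := by
    intro j h0
    refine rho_lt_of_ord ⟨_, hu_ge j⟩ (hge j) ((le_lev h0).2 (hu_F j)) ?_
    have h1 := ord_le (hu_ge j)
    have h2 := hord j
    omega
  have hentry : ∀ i j, (((P⁻¹ : (Matrix α α L)ˣ) : Matrix α α L) * δ * (P : Matrix α α L)) i j =
      c j * (Pi.single j (1 : L) : α → L) i + co (u j) i := by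
    intro i j
    have h1 : (((P⁻¹ : (Matrix α α L)ˣ) : Matrix α α L) * δ * (P : Matrix α α L)) i j =
        co (f (col j)) i := by
      have h2 : (((P⁻¹ : (Matrix α α L)ˣ) : Matrix α α L) * δ * (P : Matrix α α L)) i j =
          ((((P⁻¹ : (Matrix α α L)ˣ) : Matrix α α L) * δ * (P : Matrix α α L)).mulVec
            (Pi.single j 1)) i := by
        rw [Matrix.mulVec_single_one]; rfl
      have h3 : col j = (P : Matrix α α L).mulVec (Pi.single j 1) := by
        funext i
        rw [Matrix.mulVec_single_one]; rfl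
      rw [h2, h3]
      change _ = (((P⁻¹ : (Matrix α α L)ˣ) : Matrix α α L).mulVec (δ.mulVec
        ((P : Matrix α α L).mulVec (Pi.single j 1)))) i
      rw [Matrix.mulVec_mulVec, Matrix.mulVec_mulVec, Matrix.mul_assoc]
    rw [h1, hu_eq]
    change (((P⁻¹ : (Matrix α α L)ˣ) : Matrix α α L).mulVec (c j • col j + u j)) i = _
    rw [Matrix.mulVec_add, Matrix.mulVec_smul, Pi.add_apply, Pi.smul_apply, smul_eq_mul]
    have h4 : ((P⁻¹ : (Matrix α α L)ˣ) : Matrix α α L).mulVec (col j) = Pi.single j 1 := hcocol j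
    rw [h4]
  have hstrict : ∀ i j, co (u j) i ≠ 0 → rho f ξ (col j) < rho f ξ (col i) := by
    intro i j h0
    have hu0 : u j ≠ 0 := by
      intro h1
      apply h0
      change ((P⁻¹ : (Matrix α α L)ˣ) : Matrix α α L).mulVec (u j) i = 0
      rw [h1, Matrix.mulVec_zero, Pi.zero_apply]
    exact (hu_rho j hu0).trans_le (hP' _ hu0 i h0)
  refine ⟨P, fun j => lev ξ (col j), fun j => rho f ξ (col j), c, ?_, ?_, ?_, ?_⟩
  · intro r j hrj
    exact lev_le (v := col j) hrj
  · intro j r hjr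
    by_contra hlt
    have hlt' : lev ξ (col j) < ξ r := not_le.1 hlt
    -- the coordinate `j` vanishes on the stable subspace
    have h1 : cF L ξ (ξ r) ≤ LinearMap.ker ((LinearMap.proj j : (α → L) →ₗ[L] L) ∘ₗ
        Matrix.mulVecLin ((P⁻¹ : (Matrix α α L)ˣ) : Matrix α α L)) := by
      have h2 : cF L ξ (ξ r) = ⨆ μ, cF L ξ (ξ r) ⊓ f.maxGenEigenspace μ := by
        have h3 := Submodule.inf_iSup_genEigenspace (hfF (ξ r)) (⊤ : ℕ∞)
        have h4 : (⨆ μ, f.genEigenspace μ (⊤ : ℕ∞)) = ⊤ :=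
          Module.End.iSup_maxGenEigenspace_eq_top f
        rw [h4, inf_top_eq] at h3
        exact h3
      rw [h2]
      refine iSup_le fun μ w hw => ?_
      rw [LinearMap.mem_ker]
      by_contra h0
      have hw0 : w ≠ 0 := by
        rintro rfl
        exact h0 (map_zero _)
      have h3 := hP' w hw0 j h0
      have h4 : ξ r ≤ lev ξ w := (le_lev hw0).2 hw.1
      have h5 := rho_lt_of_lev (f := f) (ξ := ξ) (u := w) (v := col j)
        ⟨_, μ, mem_maxGen_iff.1 hw.2⟩ (hge j) (hcol0 j) (by linarith)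
      linarith
    have h2 : (Pi.single r (1 : L) : α → L) ∈ cF L ξ (ξ r) := by
      intro q hq
      by_cases hqr : q = r
      · rw [hqr]
      · exact absurd (Pi.single_eq_of_ne hqr _) hq
    have h3 := h1 h2
    rw [LinearMap.mem_ker] at h3
    have h4 : ((P⁻¹ : (Matrix α α L)ˣ) : Matrix α α L).mulVec (Pi.single r (1 : L)) j = 0 := h3
    rw [Matrix.mulVec_single_one] at h4
    exact hjr h4
  · intro j
    rw [hentry, Pi.single_eq_same, mul_one]
    have h1 : co (u j) j = 0 := by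
      by_contra h0
      exact lt_irrefl _ (hstrict j j h0)
    rw [h1, add_zero]
  · intro i j hij h0
    rw [hentry, Pi.single_eq_of_ne hij, mul_zero, zero_add] at h0
    refine ⟨?_, hstrict i j h0⟩
    -- the blocks
    by_contra hne
    have huV : u j ∈ f.maxGenEigenspace (c j) := by
      have h1 := mem_maxGen_of_pow (f := f) (v := u j) (μ := c j) (k := ord f (col j) - 1) (by
        have h1 := hc j
        obtain ⟨k, hk⟩ := Nat.exists_eq_succ_of_ne_zero (hord j)
        rw [hk] at h1 ⊢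
        rw [Nat.succ_eq_add_one, pow_succ, Module.End.mul_apply] at h1
        exact h1)
      exact h1
    have hexp : u j = ∑ q, co (u j) q • col q := by
      have h1 : (P : Matrix α α L).mulVec (co (u j)) = u j := by
        change (P : Matrix α α L).mulVec (((P⁻¹ : (Matrix α α L)ˣ) : Matrix α α L).mulVec (u j)) = _
        rw [Matrix.mulVec_mulVec, Units.mul_inv, Matrix.one_mulVec]
      conv_lhs => rw [← h1]
      funext r
      rw [Finset.sum_apply]
      change ∑ q, (P : Matrix α α L) r q * co (u j) q = _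
      refine Finset.sum_congr rfl fun q _ => ?_
      rw [Pi.smul_apply, smul_eq_mul, mul_comm]
    let w : α → L := ∑ q ∈ Finset.univ.filter (fun q => c q ≠ c j), co (u j) q • col q
    have hw1 : w ∈ ⨆ μ, ⨆ (_ : μ ≠ c j), f.maxGenEigenspace μ := by
      refine Submodule.sum_mem _ fun q hq => Submodule.smul_mem _ _ ?_
      exact Submodule.mem_iSup_of_mem (c q) (Submodule.mem_iSup_of_mem (Finset.mem_filter.1 hq).2 (hcV q))
    have hw2 : w ∈ f.maxGenEigenspace (c j) := by
      have h1 : w = u j - ∑ q ∈ Finset.univ.filter (fun q => ¬ c q ≠ c j), co (u j) q • col q := by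
        rw [eq_sub_iff_add_eq]
        conv_rhs => rw [hexp]
        exact Finset.sum_filter_add_sum_filter_not _ _ _
      rw [h1]
      refine Submodule.sub_mem _ huV (Submodule.sum_mem _ fun q hq => Submodule.smul_mem _ _ ?_)
      have h2 := (Finset.mem_filter.1 hq).2
      push Not at h2
      rw [← h2]
      exact hcV q
    have hw0 : w = 0 := by
      have h1 := (Module.End.independent_maxGenEigenspace f) (c j)
      exact (Submodule.disjoint_def.1 h1) w hw2 hw1
    have h2 : co w i = co (u j) i := by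
      change ((P⁻¹ : (Matrix α α L)ˣ) : Matrix α α L).mulVec w i = _
      rw [show w = ∑ q ∈ Finset.univ.filter (fun q => c q ≠ c j), co (u j) q • col q from rfl,
        ← Matrix.mulVecLin_apply, map_sum, Finset.sum_apply, Finset.sum_eq_single i]
      · rw [map_smul, Pi.smul_apply, smul_eq_mul, Matrix.mulVecLin_apply]
        have h4 : ((P⁻¹ : (Matrix α α L)ˣ) : Matrix α α L).mulVec (col i) = Pi.single i 1 := hcocol i
        rw [h4, Pi.single_eq_same, mul_one]
      · intro q _ hq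
        rw [map_smul, Pi.smul_apply, smul_eq_mul, Matrix.mulVecLin_apply]
        have h4 : ((P⁻¹ : (Matrix α α L)ˣ) : Matrix α α L).mulVec (col q) = Pi.single q 1 := hcocol q
        rw [h4, Pi.single_eq_of_ne (Ne.symm hq), mul_zero]
      · intro h
        exact absurd (Finset.mem_filter.2 ⟨Finset.mem_univ i, hne⟩) h
    apply h0
    rw [← h2, hw0]
    change ((P⁻¹ : (Matrix α α L)ˣ) : Matrix α α L).mulVec 0 i = 0
    rw [Matrix.mulVec_zero, Pi.zero_apply]

end H13F
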