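import Mathlib

/-!
# Elements killed by all homomorphisms to the real numbers
-/

namespace H13F

/-- An element of an abelian group killed by all homomorphisms to `ℝ` has finite order. -/
theorem torsion_of_forall_hom {A : Type*} [AddCommGroup A] (z : A) (h : ∀ l : A →+ ℝ, l z = 0) :
    ∃ n : ℕ, 0 < n ∧ n • z = 0 := by
  have h1 : IsLocalizedModule (nonZeroDivisors ℤ) (TensorProduct.mk ℤ ℚ A 1) :=
    (isLocalizedModule_iff_isBaseChange (nonZeroDivisors ℤ) ℚ _).2 (TensorProduct.isBaseChange ℤ A ℚ)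
  have h2 : TensorProduct.mk ℤ ℚ A 1 z = 0 := by
    rw [← Module.forall_dual_apply_eq_zero_iff ℚ]
    intro φ
    have h3 := h (((algebraMap ℚ ℝ : ℚ →+* ℝ) : ℚ →+ ℝ).comp
      (φ.toAddMonoidHom.comp (TensorProduct.mk ℤ ℚ A 1).toAddMonoidHom))
    have h4 : ((φ (TensorProduct.mk ℤ ℚ A 1 z) : ℚ) : ℝ) = 0 := h3
    exact_mod_cast h4
  obtain ⟨⟨n, hn⟩, hn2⟩ := (IsLocalizedModule.eq_zero_iff (nonZeroDivisors ℤ) _).1 h2
  have hn0 : n ≠ 0 := nonZeroDivisors.ne_zero hn
  have hn3 : n • z = 0 := hn2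
  refine ⟨n.natAbs, Int.natAbs_pos.2 hn0, ?_⟩
  rcases Int.natAbs_eq n with h5 | h5
  · rw [← natCast_zsmul, ← h5]; exact hn3
  · have h6 : ((n.natAbs : ℕ) : ℤ) = -n := by omega
    rw [← natCast_zsmul, h6, neg_zsmul, hn3, neg_zero]

/-- An element of a field killed by all homomorphisms of the multiplicative group to `ℝ` is a root of
unity. -/
theorem root_of_unity_of_forall_hom {L : Type*} [Field L] (z : Lˣ)
    (h : ∀ l : Additive Lˣ →+ ℝ, l (Additive.ofMul z) = 0) : ∃ n : ℕ, 0 < n ∧ (z : L) ^ n = 1 := by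
  obtain ⟨n, hn, hn2⟩ := torsion_of_forall_hom (Additive.ofMul z) h
  refine ⟨n, hn, ?_⟩
  have h1 : z ^ n = 1 := by
    have h2 : Additive.ofMul (z ^ n) = 0 := hn2
    exact Additive.ofMul.injective h2
  have h2 := congrArg (fun u : Lˣ => (u : L)) h1
  simpa using h2

end H13F
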