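import Pool.Agent.W_f569db_h13.Kempf2

/-!
# Matrices commuting with a triangular tensor power
-/

set_option linter.unusedSectionVars false

namespace H13F

open H69 Matrix Finset

variable {α : Type*} [Fintype α] [DecidableEq α] {L : Type*} [Field L]
  {ι : Type*} [Fintype ι] [DecidableEq ι]

theorem ten_tri {δ : Matrix α α L} {c : α → L} {ρ : α → ℝ}
    (ht : ∀ i j, i ≠ j → δ i j ≠ 0 → c i = c j ∧ ρ j < ρ i) {a b : ι → α} (hab : a ≠ b)
    (h : ten ι δ a b ≠ 0) : ∏ s, c (a s) = ∏ s, c (b s) ∧ ∑ s, ρ (b s) < ∑ s, ρ (a s) := by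
  have h1 : ∀ s, δ (a s) (b s) ≠ 0 := fun s => Finset.prod_ne_zero_iff.1 h s (Finset.mem_univ _)
  have h2 : ∀ s, c (a s) = c (b s) ∧ ρ (b s) ≤ ρ (a s) := by
    intro s
    by_cases hs : a s = b s
    · rw [hs]; exact ⟨rfl, le_rfl⟩
    · exact ⟨(ht _ _ hs (h1 s)).1, (ht _ _ hs (h1 s)).2.le⟩
  refine ⟨Finset.prod_congr rfl fun s _ => (h2 s).1, ?_⟩
  obtain ⟨s, hs⟩ := Function.ne_iff.1 hab
  exact Finset.sum_lt_sum (fun s _ => (h2 s).2) ⟨s, Finset.mem_univ _, (ht _ _ hs (h1 s)).2⟩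

/-- A matrix commuting with a triangular tensor power respects the eigenvalues. -/
theorem coeff_eig {x : Matrix (ι → α) (ι → α) L} {δ : Matrix α α L} {c : α → L} {ρ : α → ℝ}
    (hd : ∀ j, δ j j = c j) (ht : ∀ i j, i ≠ j → δ i j ≠ 0 → c i = c j ∧ ρ j < ρ i)
    (hcomm : ten ι δ * x = x * ten ι δ) (a b : ι → α) (hab : x a b ≠ 0) :
    ∏ s, c (a s) = ∏ s, c (b s) := by
  classical
  by_contra hne
  let S : Finset ((ι → α) × (ι → α)) := Finset.univ.filter fun p =>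
    x p.1 p.2 ≠ 0 ∧ ∏ s, c (p.1 s) ≠ ∏ s, c (p.2 s)
  obtain ⟨⟨a, b⟩, hS, hmin⟩ := Finset.exists_min_image S
    (fun p => ∑ s, ρ (p.1 s) - ∑ s, ρ (p.2 s)) ⟨(a, b), Finset.mem_filter.2
      ⟨Finset.mem_univ _, hab, hne⟩⟩
  obtain ⟨h1, h2⟩ := (Finset.mem_filter.1 hS).2
  have hdiag : ∀ e : ι → α, ten ι δ e e = ∏ s, c (e s) := by
    intro e
    change ∏ s, δ (e s) (e s) = _
    exact Finset.prod_congr rfl fun s _ => hd _
  have h3 := congrFun (congrFun hcomm a) b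
  rw [Matrix.mul_apply, Matrix.mul_apply] at h3
  have h4 : ∑ j, ten ι δ a j * x j b = (∏ s, c (a s)) * x a b := by
    rw [Finset.sum_eq_single a]
    · rw [hdiag]
    · intro a' _ ha'
      by_contra h0
      have h5 := ten_tri ht (Ne.symm ha') (left_ne_zero_of_mul h0)
      have h6 := hmin (a', b) (Finset.mem_filter.2 ⟨Finset.mem_univ _, right_ne_zero_of_mul h0, by
        rw [← h5.1]; exact h2⟩)
      change ∑ s, ρ (a s) - ∑ s, ρ (b s) ≤ ∑ s, ρ (a' s) - ∑ s, ρ (b s) at h6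
      linarith [h5.2]
    · intro h; exact absurd (Finset.mem_univ _) h
  have h5 : ∑ j, x a j * ten ι δ j b = x a b * ∏ s, c (b s) := by
    rw [Finset.sum_eq_single b]
    · rw [hdiag]
    · intro b' _ hb'
      by_contra h0
      have h5 := ten_tri ht hb' (right_ne_zero_of_mul h0)
      have h6 := hmin (a, b') (Finset.mem_filter.2 ⟨Finset.mem_univ _, left_ne_zero_of_mul h0, by
        rw [h5.1]; exact h2⟩)
      change ∑ s, ρ (a s) - ∑ s, ρ (b s) ≤ ∑ s, ρ (a s) - ∑ s, ρ (b' s) at h6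
      linarith [h5.2]
    · intro h; exact absurd (Finset.mem_univ _) h
  rw [h4, h5, mul_comm] at h3
  exact h2 (mul_left_cancel₀ h1 h3)

end H13F
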