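import Pool.Agent.W_f569db_h13.CoreK
import Pool.Agent.W_f569db_h13.EigBasis
import Pool.Agent.W_f569db_h13.WordEig
import Pool.Agent.W_f569db_h13.Torsion
import Pool.Agent.W_f569db_h13.Opt

/-!
# The determinant relation for the minimal weighted flag
-/

set_option linter.unusedSectionVars false

universe u

namespace H13F

open H69 Matrix Finset

section tri

variable {α : Type*} [Fintype α] [DecidableEq α] {L : Type*} [Field L]

/-- The determinant of a matrix which is triangular for a real function. -/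
theorem det_tri (M : Matrix α α L) (ρ : α → ℝ) (h : ∀ i j, i ≠ j → M i j ≠ 0 → ρ j < ρ i) :
    M.det = ∏ i, M i i := by
  classical
  rw [Matrix.det_apply, Finset.sum_eq_single 1]
  · simp
  · intro σ _ hσ
    have h0 : ∏ i, M (σ i) i = 0 := by
      by_contra hne
      have h1 : ∀ i, M (σ i) i ≠ 0 := fun i => Finset.prod_ne_zero_iff.1 hne i (Finset.mem_univ _)
      obtain ⟨i₀, hi₀⟩ : ∃ i, σ i ≠ i := by
        by_contra hcon
        push Not at hcon
        exact hσ (Equiv.ext hcon)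
      have h2 : ∑ i, ρ i < ∑ i, ρ (σ i) := by
        refine Finset.sum_lt_sum (fun i _ => ?_) ⟨i₀, Finset.mem_univ _, h _ _ hi₀ (h1 i₀)⟩
        by_cases hi : σ i = i
        · rw [hi]
        · exact (h _ _ hi (h1 i)).le
      rw [Equiv.sum_comp σ ρ] at h2
      exact lt_irrefl _ h2
    rw [h0, smul_zero]
  · intro h; exact absurd (Finset.mem_univ _) h

theorem sum_sub {q : α → Prop} [DecidablePred q] (f : α → L) (hf : ∀ j, f j ≠ 0 → q j) :
    ∑ j : {j // q j}, f j = ∑ j, f j := by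
  rw [← Finset.sum_subtype (Finset.univ.filter q) (fun x => by simp) f]
  exact Finset.sum_filter_of_ne fun x _ hx => hf x hx

/-- Blocks of conjugate matrices for the same filtration have the same determinants. -/
theorem det_block_conj {δ δ' : Matrix α α L} (P : (Matrix α α L)ˣ)
    (hδ' : δ' = ((P⁻¹ : (Matrix α α L)ˣ) : Matrix α α L) * δ * (P : Matrix α α L)) (p q : α → Prop)
    [DecidablePred p] [DecidablePred q] (hP : ∀ i j, (P : Matrix α α L) i j ≠ 0 → q j → p i)
    (hP' : ∀ i j, ((P⁻¹ : (Matrix α α L)ˣ) : Matrix α α L) i j ≠ 0 → p j → q i)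
    (hδ : ∀ i j, δ i j ≠ 0 → p j → p i) :
    (δ'.toSquareBlockProp q).det = (δ.toSquareBlockProp p).det := by
  classical
  let M : Matrix {i // p i} {j // q j} L := Matrix.of fun i j => (P : Matrix α α L) i j
  let M' : Matrix {j // q j} {i // p i} L :=
    Matrix.of fun j i => ((P⁻¹ : (Matrix α α L)ˣ) : Matrix α α L) j i
  have h1 : M * M' = 1 := by
    ext i i'
    rw [Matrix.mul_apply]
    change ∑ j : {j // q j}, (fun j => (P : Matrix α α L) i j *
      ((P⁻¹ : (Matrix α α L)ˣ) : Matrix α α L) j i') j = _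
    rw [sum_sub (fun j => (P : Matrix α α L) i j * ((P⁻¹ : (Matrix α α L)ˣ) : Matrix α α L) j i')
      (fun j hj => hP' _ _ (right_ne_zero_of_mul hj) i'.2), ← Matrix.mul_apply, Units.mul_inv,
      Matrix.one_apply, Matrix.one_apply]
    simp only [Subtype.ext_iff]
  have h2 : M' * M = 1 := by
    ext j j'
    rw [Matrix.mul_apply]
    change ∑ i : {i // p i}, (fun i => ((P⁻¹ : (Matrix α α L)ˣ) : Matrix α α L) j i *
      (P : Matrix α α L) i j') i = _
    rw [sum_sub (fun i => ((P⁻¹ : (Matrix α α L)ˣ) : Matrix α α L) j i * (P : Matrix α α L) i j')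
      (fun i hi => hP _ _ (right_ne_zero_of_mul hi) j'.2), ← Matrix.mul_apply, Units.inv_mul,
      Matrix.one_apply, Matrix.one_apply]
    simp only [Subtype.ext_iff]
  have h3 : δ'.toSquareBlockProp q = M' * δ.toSquareBlockProp p * M := by
    ext j j'
    rw [Matrix.mul_apply]
    change δ' j j' = ∑ i : {i // p i}, (M' * δ.toSquareBlockProp p) j i * (P : Matrix α α L) i j'
    have h4 : ∀ i : {i // p i}, (M' * δ.toSquareBlockProp p) j i =
        (((P⁻¹ : (Matrix α α L)ˣ) : Matrix α α L) * δ) j i := by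
      intro i
      rw [Matrix.mul_apply, Matrix.mul_apply]
      change ∑ i' : {i // p i}, (fun i' => ((P⁻¹ : (Matrix α α L)ˣ) : Matrix α α L) j i' * δ i' i) i' = _
      rw [sum_sub (fun i' => ((P⁻¹ : (Matrix α α L)ˣ) : Matrix α α L) j i' * δ i' i)
        (fun i' hi' => hδ _ _ (right_ne_zero_of_mul hi') i.2)]
    simp only [h4]
    change δ' j j' = ∑ i : {i // p i}, (fun i => (((P⁻¹ : (Matrix α α L)ˣ) : Matrix α α L) * δ) j i *
      (P : Matrix α α L) i j') i
    rw [sum_sub (fun i => (((P⁻¹ : (Matrix α α L)ˣ) : Matrix α α L) * δ) j i *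
      (P : Matrix α α L) i j') (fun i hi => hP _ _ (right_ne_zero_of_mul hi) j'.2), ← Matrix.mul_apply,
      hδ']
  rw [h3]
  exact Matrix.det_conj_of_mul_eq_one h2 h1

/-- The block determinant of a triangular matrix. -/
theorem det_block_tri (M : Matrix α α L) (ρ : α → ℝ) (h : ∀ i j, i ≠ j → M i j ≠ 0 → ρ j < ρ i)
    (q : α → Prop) [DecidablePred q] :
    (M.toSquareBlockProp q).det = ∏ i ∈ Finset.univ.filter q, M i i := by
  rw [det_tri (M.toSquareBlockProp q) (fun i => ρ i)]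
  · rw [Finset.prod_subtype (Finset.univ.filter q) (p := q) (fun x => by simp) fun i => M i i]
    rfl
  · intro i j hij h0
    exact h i j (fun h1 => hij (Subtype.ext h1)) h0

end tri

variable {α : Type} [Fintype α] [DecidableEq α] {ι : Type} [Fintype ι] [DecidableEq ι] {K : Type u}
  [Field K] [CharZero K]

/-- Counting: the number of `t ∈ (-T, T]` with `t ≤ z`. -/
theorem card_Ioc_le {T : ℕ} {z : ℤ} (h1 : -(T : ℤ) ≤ z) (h2 : z ≤ T) :
    (((Finset.Ioc (-(T : ℤ)) T).filter fun t => t ≤ z).card : ℤ) = z + T := by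
  have h3 : (Finset.Ioc (-(T : ℤ)) T).filter (fun t => t ≤ z) = Finset.Ioc (-(T : ℤ)) z := by
    ext t
    simp only [Finset.mem_filter, Finset.mem_Ioc]
    constructor
    · rintro ⟨⟨h3, -⟩, h4⟩; exact ⟨h3, h4⟩
    · rintro ⟨h3, h4⟩; exact ⟨⟨h3, h4.trans h2⟩, h4⟩
  rw [h3, Int.card_Ioc, Int.toNat_of_nonneg (by omega)]
  ring

/-- The determinant relation. -/
theorem det_relation {Λ : Type*} (Z : Set Λ) (x : Λ → Matrix (ι → α) (ι → α) K)
    {h : (Matrix α α K)ˣ} {ξ : α → ℝ} (hP : PosS (Set.range x) (x '' Z) h ξ)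
    (hmin : ∀ (g' : (Matrix α α K)ˣ) (ξ' : α → ℝ),
      PosS (Set.range x) (x '' Z) g' ξ' → ∑ r, ξ r ^ 2 ≤ ∑ r, ξ' r ^ 2)
    (γ : (Matrix α α K)ˣ) (hγ : ∀ l, cj γ (x l) = x l) {D : ℝ} (hD : 0 < D) (p : ℝ) (ζ : α → ℤ)
    (hζ : ∀ r, (ζ r : ℝ) = D * (ξ r - p)) (hdet : (γ : Matrix α α K).det ^ 2 = 1) (T : ℕ)
    (hT : ∀ r, -(T : ℤ) ≤ ζ r ∧ ζ r ≤ T) :
    ∃ N : ℕ, 0 < N ∧ (∏ t ∈ Finset.Ioc (-(T : ℤ)) T,
      ((((h⁻¹ : (Matrix α α K)ˣ) : Matrix α α K) * (γ : Matrix α α K) *
        (h : Matrix α α K)).toSquareBlockProp fun r => t ≤ ζ r).det) ^ N = 1 := by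
  classical
  -- the flag is stable
  have hγ' : ∀ l, cj γ⁻¹ (x l) = x l := by
    intro l
    have h1 : cj γ⁻¹ (cj γ (x l)) = x l := by
      unfold cj
      rw [inv_inv, ← Matrix.mul_assoc, ← Matrix.mul_assoc, ten_inv_mul, Matrix.one_mul,
        Matrix.mul_assoc, ten_inv_mul, Matrix.mul_one]
    rwa [hγ] at h1
  have hsame : Same h ξ (γ * h) ξ := by
    refine unique_minimal2 _ _ hP (hP.of_conj ?_ ?_) hmin le_rfl
    · rintro _ ⟨l, rfl⟩
      exact ⟨l, (hγ' l).symm⟩
    · rintro _ ⟨l, hl, rfl⟩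
      exact ⟨l, hl, (hγ' l).symm⟩
  let δ : Matrix α α K := ((h⁻¹ : (Matrix α α K)ˣ) : Matrix α α K) * (γ : Matrix α α K) *
        (h : Matrix α α K)
  have hδ : Le δ ξ ξ := by
    have h1 := hsame.1
    rwa [Units.val_mul, Units.val_mul, ← Matrix.mul_assoc] at h1
  let φ := algebraMap K (AlgebraicClosure K)
  let δL : Matrix α α (AlgebraicClosure K) := δ.map φ
  have hδL : Le δL ξ ξ := by
    intro i j hij
    refine hδ i j fun h0 => hij ?_
    change φ (δ i j) = 0
    rw [h0, map_zero]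
  obtain ⟨P, ξ', ρ, c, h1, h2, h3, h4⟩ := exists_eigbasis δL ξ hδL
  let δ' : Matrix α α (AlgebraicClosure K) :=
    ((P⁻¹ : (Matrix α α (AlgebraicClosure K))ˣ) : Matrix α α (AlgebraicClosure K)) * δL *
      (P : Matrix α α (AlgebraicClosure K))
  -- the new basis
  let g' : (Matrix α α (AlgebraicClosure K))ˣ := unitL h * P
  have hsame2 : Same (unitL h) ξ g' ξ' := by
    refine ⟨?_, ?_⟩
    · change Le (((unitL h)⁻¹ * (unitL h * P) : (Matrix α α (AlgebraicClosure K))ˣ) :
        Matrix α α (AlgebraicClosure K)) ξ ξ'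
      rw [inv_mul_cancel_left]; exact h1
    · change Le (((unitL h * P)⁻¹ * unitL h : (Matrix α α (AlgebraicClosure K))ˣ) :
        Matrix α α (AlgebraicClosure K)) ξ' ξ
      rw [_root_.mul_inv_rev, inv_mul_cancel_right]; exact h2
  have hP2 : PosS (Set.range (famL x)) (famL x '' Z) g' ξ' :=
    ((posS_unitL Z x h ξ).2 hP).of_same hsame2
  obtain ⟨τ, hτ⟩ := hsame2.exists_perm
  have hnorm : ∑ r, ξ' r ^ 2 = ∑ r, ξ r ^ 2 := by
    simp only [hτ]
    exact Equiv.sum_comp τ (fun r => ξ r ^ 2)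
  have hmin2 : ∀ ξ'' : α → ℝ, PosS (Set.range (famL x)) (famL x '' Z) g' ξ'' →
      ∑ r, ξ' r ^ 2 ≤ ∑ r, ξ'' r ^ 2 := by
    intro ξ'' hp
    rw [hnorm]
    exact minimal_unitL Z x hP hmin g' ξ'' hp
  -- `δ'` is the matrix of `γ` in the new basis
  have hδ'g : δ' = ((g'⁻¹ : (Matrix α α (AlgebraicClosure K))ˣ) : Matrix α α (AlgebraicClosure K)) *
      (γ : Matrix α α K).map φ * (g' : Matrix α α (AlgebraicClosure K)) := by
    have e1 : δL = (((unitL h)⁻¹ : (Matrix α α (AlgebraicClosure K))ˣ) :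
        Matrix α α (AlgebraicClosure K)) * (γ : Matrix α α K).map φ *
        ((unitL h : (Matrix α α (AlgebraicClosure K))ˣ) : Matrix α α (AlgebraicClosure K)) := by
      have e2 : (((unitL h)⁻¹ : (Matrix α α (AlgebraicClosure K))ˣ) :
        Matrix α α (AlgebraicClosure K)) = ((h⁻¹ : (Matrix α α K)ˣ) : Matrix α α K).map φ := rfl
      have e3 : ((unitL h : (Matrix α α (AlgebraicClosure K))ˣ) : Matrix α α (AlgebraicClosure K)) =
        (h : Matrix α α K).map φ := rfl
      rw [e2, e3, ← Matrix.map_mul, ← Matrix.map_mul]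
    change ((P⁻¹ : (Matrix α α (AlgebraicClosure K))ˣ) : Matrix α α (AlgebraicClosure K)) * δL *
      (P : Matrix α α (AlgebraicClosure K)) = _
    rw [e1]
    change _ = (((unitL h * P)⁻¹ : (Matrix α α (AlgebraicClosure K))ˣ) :
      Matrix α α (AlgebraicClosure K)) * _ * ((unitL h * P : (Matrix α α (AlgebraicClosure K))ˣ) :
        Matrix α α (AlgebraicClosure K))
    rw [_root_.mul_inv_rev, Units.val_mul, Units.val_mul]
    simp only [Matrix.mul_assoc]
  have hdetδ' : δ'.det = φ (γ : Matrix α α K).det := by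
    rw [hδ'g, Matrix.det_mul, Matrix.det_mul, mul_comm, ← mul_assoc, ← Matrix.det_mul, Units.mul_inv,
      Matrix.det_one, one_mul]
    exact (RingHom.map_det φ (γ : Matrix α α K)).symm
  have hdetc : δ'.det = ∏ i, c i := by
    rw [det_tri δ' ρ fun i j hij h0 => (h4 i j hij h0).2]
    exact Finset.prod_congr rfl fun i _ => h3 i
  have hγ0 : (γ : Matrix α α K).det ≠ 0 := by
    intro h0
    rw [h0] at hdet
    norm_num at hdet
  have hc0 : ∀ i, c i ≠ 0 := by
    have h5 : ∏ i, c i ≠ 0 := by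
      rw [← hdetc, hdetδ']
      exact (map_ne_zero φ).2 hγ0
    exact fun i => Finset.prod_ne_zero_iff.1 h5 i (Finset.mem_univ i)
  let cu : α → (AlgebraicClosure K)ˣ := fun i => Units.mk0 (c i) (hc0 i)
  -- the coefficients respect the eigenvalues
  have hcoef : ∀ l, ∀ a b : ι → α, cj g'⁻¹ (famL x l) a b ≠ 0 → ∏ s, c (a s) = ∏ s, c (b s) := by
    intro l a b hab
    refine coeff_eig (δ := δ') h3 h4 ?_ a b hab
    have e1 : ten ι ((γ : Matrix α α K).map φ) * famL x l =
        famL x l * ten ι ((γ : Matrix α α K).map φ) := by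
      have e2 : ten ι (γ : Matrix α α K) * x l = x l * ten ι (γ : Matrix α α K) := by
        conv_rhs => rw [← hγ l]
        unfold cj
        rw [Matrix.mul_assoc, ten_inv_mul, Matrix.mul_one]
      rw [← ten_map, ← Matrix.map_mul, ← Matrix.map_mul, e2]
    rw [hδ'g, ten_mul, ten_mul, kempfA_cj_inv]
    have e3 : ten ι (g' : Matrix α α (AlgebraicClosure K)) *
      ten ι ((g'⁻¹ : (Matrix α α (AlgebraicClosure K))ˣ) : Matrix α α (AlgebraicClosure K)) = 1 :=
      ten_mul_inv g'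
    calc _ = ten ι ((g'⁻¹ : (Matrix α α (AlgebraicClosure K))ˣ) : Matrix α α (AlgebraicClosure K)) *
          ten ι ((γ : Matrix α α K).map φ) * (ten ι (g' : Matrix α α (AlgebraicClosure K)) *
          ten ι ((g'⁻¹ : (Matrix α α (AlgebraicClosure K))ˣ) : Matrix α α (AlgebraicClosure K))) *
          famL x l * ten ι (g' : Matrix α α (AlgebraicClosure K)) := by
          simp only [Matrix.mul_assoc]
      _ = ten ι ((g'⁻¹ : (Matrix α α (AlgebraicClosure K))ˣ) : Matrix α α (AlgebraicClosure K)) *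
          (ten ι ((γ : Matrix α α K).map φ) * famL x l) *
          ten ι (g' : Matrix α α (AlgebraicClosure K)) := by
          rw [e3, Matrix.mul_one]; simp only [Matrix.mul_assoc]
      _ = ten ι ((g'⁻¹ : (Matrix α α (AlgebraicClosure K))ˣ) : Matrix α α (AlgebraicClosure K)) *
          famL x l * (ten ι (g' : Matrix α α (AlgebraicClosure K)) *
          ten ι ((g'⁻¹ : (Matrix α α (AlgebraicClosure K))ˣ) : Matrix α α (AlgebraicClosure K))) *
          ten ι ((γ : Matrix α α K).map φ) * ten ι (g' : Matrix α α (AlgebraicClosure K)) := by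
          rw [e1, e3, Matrix.mul_one]; simp only [Matrix.mul_assoc]
      _ = _ := by simp only [Matrix.mul_assoc]
  -- the first order condition
  have hfirst : ∀ ℓ : Additive (AlgebraicClosure K)ˣ →+ ℝ,
      ∑ r, ξ' r * ℓ (Additive.ofMul (cu r)) = 0 := by
    intro ℓ
    have hw : ∀ l, ∀ a b : ι → α, cj g'⁻¹ (famL x l) a b ≠ 0 →
        wt (fun r => ℓ (Additive.ofMul (cu r))) a b = 0 := by
      intro l a b hab
      have e1 : ∏ s, cu (a s) = ∏ s, cu (b s) := by
        apply Units.ext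
        rw [Units.coe_prod, Units.coe_prod]
        exact hcoef l a b hab
      have e2 : ∀ a : ι → α, ∑ s, ℓ (Additive.ofMul (cu (a s))) =
          ℓ (Additive.ofMul (∏ s, cu (a s))) := by
        intro a
        rw [ofMul_prod, map_sum]
      unfold wt
      rw [e2, e2, e1, sub_self]
    refine first_order_eq hP2 hmin2 _ ?_ ?_
    · rintro _ ⟨l, rfl⟩ a b hab _
      exact hw l a b hab
    · rintro _ ⟨l, -, rfl⟩ a b hab _
      exact hw l a b hab
  -- the block determinants
  have hblock : ∀ t : ℤ, φ ((δ.toSquareBlockProp fun r => t ≤ ζ r).det) =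
      ∏ j ∈ Finset.univ.filter (fun j => t ≤ ζ (τ j)), c j := by
    intro t
    have e1 : φ ((δ.toSquareBlockProp fun r => t ≤ ζ r).det) =
        (δL.toSquareBlockProp fun r => t ≤ ζ r).det := by
      rw [RingHom.map_det]
      rfl
    have hle : ∀ {a b : ℝ} {z w : ℤ}, (z : ℝ) = D * (a - p) → (w : ℝ) = D * (b - p) → a ≤ b → z ≤ w := by
      intro a b z w hz hw hab
      have : (z : ℝ) ≤ w := by
        rw [hz, hw]
        exact mul_le_mul_of_nonneg_left (by linarith) hD.le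
      exact_mod_cast this
    rw [e1, ← det_block_conj (δ := δL) (δ' := δ') P rfl (fun r => t ≤ ζ r) (fun j => t ≤ ζ (τ j)),
      det_block_tri δ' ρ (fun i j hij h0 => (h4 i j hij h0).2)]
    · exact Finset.prod_congr rfl fun i _ => h3 i
    · intro i j hij ht
      have h5 := h1 i j hij
      rw [hτ] at h5
      exact ht.trans (hle (hζ _) (hζ _) h5)
    · intro i j hij ht
      have h5 := h2 i j hij
      rw [hτ] at h5
      exact ht.trans (hle (hζ _) (hζ _) h5)
    · intro i j hij ht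
      exact ht.trans (hle (hζ _) (hζ _) (hδL i j hij))
  -- the product
  let θ : K := ∏ t ∈ Finset.Ioc (-(T : ℤ)) T, (δ.toSquareBlockProp fun r => t ≤ ζ r).det
  let z : (AlgebraicClosure K)ˣ := ∏ t ∈ Finset.Ioc (-(T : ℤ)) T,
    ∏ j ∈ Finset.univ.filter (fun j => t ≤ ζ (τ j)), cu j
  have hz : (z : AlgebraicClosure K) = φ θ := by
    change ((∏ t ∈ Finset.Ioc (-(T : ℤ)) T,
      ∏ j ∈ Finset.univ.filter (fun j => t ≤ ζ (τ j)), cu j : (AlgebraicClosure K)ˣ) :
        AlgebraicClosure K) = φ (∏ t ∈ Finset.Ioc (-(T : ℤ)) T, _)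
    rw [Units.coe_prod, map_prod]
    refine Finset.prod_congr rfl fun t _ => ?_
    rw [Units.coe_prod, hblock]
    rfl
  have hsumc : ∀ ℓ : Additive (AlgebraicClosure K)ˣ →+ ℝ, ∑ j, ℓ (Additive.ofMul (cu j)) = 0 := by
    intro ℓ
    have e1 : (∏ j, cu j) ^ 2 = 1 := by
      apply Units.ext
      rw [Units.val_pow_eq_pow_val, Units.coe_prod]
      change (∏ j, c j) ^ 2 = 1
      rw [← hdetc, hdetδ', ← map_pow, hdet, map_one]
    have e2 : (2 : ℕ) • ℓ (Additive.ofMul (∏ j, cu j)) = 0 := by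
      rw [← map_nsmul, ← ofMul_pow, e1, ofMul_one, map_zero]
    have e3 : ∑ j, ℓ (Additive.ofMul (cu j)) = ℓ (Additive.ofMul (∏ j, cu j)) := by
      rw [ofMul_prod, map_sum]
    rw [e3]
    rw [nsmul_eq_mul] at e2
    rcases mul_eq_zero.1 e2 with h5 | h5
    · norm_num at h5
    · exact h5
  obtain ⟨N, hN, hN2⟩ := root_of_unity_of_forall_hom z (by
    intro ℓ
    change ℓ (Additive.ofMul (∏ t ∈ Finset.Ioc (-(T : ℤ)) T,
      ∏ j ∈ Finset.univ.filter (fun j => t ≤ ζ (τ j)), cu j)) = 0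
    rw [ofMul_prod, map_sum]
    have e1 : ∀ t : ℤ, ℓ (Additive.ofMul (∏ j ∈ Finset.univ.filter (fun j => t ≤ ζ (τ j)), cu j)) =
        ∑ j, if t ≤ ζ (τ j) then ℓ (Additive.ofMul (cu j)) else 0 := by
      intro t
      rw [ofMul_prod, map_sum, Finset.sum_filter]
    simp only [e1]
    rw [Finset.sum_comm]
    have e2 : ∀ j, ∑ t ∈ Finset.Ioc (-(T : ℤ)) T,
        (if t ≤ ζ (τ j) then ℓ (Additive.ofMul (cu j)) else 0) =
        ((ζ (τ j) : ℝ) + T) * ℓ (Additive.ofMul (cu j)) := by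
      intro j
      rw [← Finset.sum_filter, Finset.sum_const, nsmul_eq_mul]
      congr 1
      have e3 := card_Ioc_le (hT (τ j)).1 (hT (τ j)).2
      exact_mod_cast e3
    simp only [e2]
    have e3 : ∀ j, ((ζ (τ j) : ℝ) + T) * ℓ (Additive.ofMul (cu j)) =
        D * (ξ' j * ℓ (Additive.ofMul (cu j))) + (T - D * p) * ℓ (Additive.ofMul (cu j)) := by
      intro j
      rw [hζ, ← hτ]; ring
    simp only [e3]
    rw [Finset.sum_add_distrib, ← Finset.mul_sum, ← Finset.mul_sum, hfirst, hsumc, mul_zero, mul_zero,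
      add_zero])
  refine ⟨N, hN, ?_⟩
  rw [hz, ← map_pow] at hN2
  exact (algebraMap K (AlgebraicClosure K)).injective (hN2.trans (map_one _).symm)

end H13F
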