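import Pool.Agent.W_f569db_h13.SymConv
import Pool.Agent.W_f569db_h13.Canon
import Pool.Agent.W_f569db_h13.DetRel

set_option autoImplicit false

/-!
# The canonical weighted basis with integral weights
-/

noncomputable section

namespace H13F

open AlgebraicGeometry CategoryTheory MonoidalCategory
open scoped TensorProduct DirectSum
open Pool.Agent.WeilH_h6 Pool.Agent.WeilH_h6.VarClass Pool.Agent.WeilH_h6.Weil

universe u v w

variable {k : Type u} [Field k] {𝒱 : VarClass k} {K : Type v} [Field K] {W : Weil.{u, v, w} 𝒱 K}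

/-- common denominator -/
theorem exists_denom {α : Type} [Fintype α] (q : α → ℚ) : ∃ D : ℕ, 0 < D ∧ ∃ z : α → ℤ, ∀ r,
    (z r : ℚ) = D * q r := by
  classical
  refine ⟨∏ r, (q r).den, Finset.prod_pos fun r _ => (q r).den_pos, ?_⟩
  have h : ∀ r, ∃ z : ℤ, (z : ℚ) = ((∏ r, (q r).den : ℕ) : ℚ) * q r := by
    intro r
    obtain ⟨c, hc⟩ := Finset.dvd_prod_of_mem (fun r => (q r).den) (Finset.mem_univ r)
    refine ⟨c * (q r).num, ?_⟩
    rw [hc]
    push_cast
    rw [mul_comm ((q r).den : ℚ) (c : ℚ), mul_assoc, Rat.den_mul_eq_num]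
  choose z hz using h
  exact ⟨z, hz⟩

section mat

variable {X : 𝒱.Obj} {α : Type} [Fintype α] [DecidableEq α]

theorem cls_ten (S : SymG W X) (hσ : S.σ = RingEquiv.refl K) (b : α → W.H X) {γ : Matrix α α K}
    (hγ : ∀ j, S.g (b j) = ∑ i, γ i j • b i) {n : ℕ} (y : (Fin n → α) → K) :
    S.G n (cls W b n y) = cls W b n ((H69.ten (Fin n) γ).mulVec y) := by
  unfold cls
  rw [S.G_sum]
  have h1 : ∀ c : Fin n → α, S.G n (y c • W.pureT fun s => b (c s)) =
      ∑ e : Fin n → α, ((∏ s, γ (e s) (c s)) * y c) • W.pureT fun s => b (e s) := by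
    intro c
    rw [S.G_smul, S.G_pureT, hσ]
    have h2 : (fun s => S.g (b (c s))) = fun s => ∑ i, γ i (c s) • b i := by
      funext s; exact hγ _
    rw [h2]
    conv_lhs => rw [← pureM_apply, MultilinearMap.map_sum]
    rw [Finset.smul_sum]
    refine Finset.sum_congr rfl fun e _ => ?_
    rw [MultilinearMap.map_smul_univ, pureM_apply, smul_smul, mul_comm]
    rfl
  simp only [h1]
  rw [Finset.sum_comm]
  refine Finset.sum_congr rfl fun e _ => ?_
  rw [← Finset.sum_smul]
  rfl

theorem cls_inj [CharZero K] (hpar : W.par X ∈ W.algHom X X) {b b' : α → W.H X}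
    (hd : ∀ i j, W.tr X (b i * b' j) = if i = j then 1 else 0) {n : ℕ} {y z : (Fin n → α) → K}
    (h : cls W b n y = cls W b n z) : y = z := by
  have key : ∀ y : (Fin n → α) → K, ∀ c, fB hpar n (cls W b n y) (W.pureT fun s => b' (c s)) = y c := by
    intro y c
    rw [fB_cls]
    unfold flat
    rw [Finset.sum_eq_single c]
    · rw [Finset.prod_eq_one, mul_one]
      intro s _
      rw [hd, if_pos rfl]
    · intro e _ he
      obtain ⟨s, hs⟩ := Function.ne_iff.1 he
      rw [Finset.prod_eq_zero (Finset.mem_univ s), mul_zero]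
      rw [hd, if_neg hs]
    · intro h; exact absurd (Finset.mem_univ _) h
  funext c
  rw [← key y, ← key z, h]

/-- the members of the family commute with the linear maps which fix the algebraic classes -/
theorem cj_fam [CharZero K] (hpar : W.par X ∈ W.algHom X X) {b b' : α → W.H X}
    (hd : ∀ i j, W.tr X (b i * b' j) = if i = j then 1 else 0) {n : ℕ} (S : SymG W X)
    (hσ : S.σ = RingEquiv.refl K) (hμ : S.μ = 1)
    (hG : ∀ a ∈ W.algSpan (X.pow n), S.G n a = a) (γ : (Matrix α α K)ˣ)
    (hγ : ∀ j, S.g (b j) = ∑ i, (γ : Matrix α α K) i j • b i) (l : PairS W b n) :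
    H69.cj γ (famX b n l) = famX b n l := by
  obtain ⟨⟨y, hy⟩, ⟨z, hz⟩⟩ := l
  have h1 : (H69.ten (Fin n) (γ : Matrix α α K)).mulVec y = y := by
    apply cls_inj hpar hd
    rw [← cls_ten S hσ b hγ, hG _ hy]
  have h2 : H69.ten (Fin n) (γ : Matrix α α K) * famX b n (⟨y, hy⟩, ⟨z, hz⟩) =
      famX b n (⟨y, hy⟩, ⟨z, hz⟩) := by
    ext I J
    rw [Matrix.mul_apply]
    change ∑ e, H69.ten (Fin n) (γ : Matrix α α K) I e * (y e * flat W b z fun s => b (J s)) =
      y I * flat W b z fun s => b (J s)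
    conv_rhs => rw [← h1]
    rw [Matrix.mulVec, dotProduct, Finset.sum_mul]
    exact Finset.sum_congr rfl fun e _ => (mul_assoc _ _ _).symm
  have h3 : famX b n (⟨y, hy⟩, ⟨z, hz⟩) * H69.ten (Fin n) (γ : Matrix α α K) =
      famX b n (⟨y, hy⟩, ⟨z, hz⟩) := by
    ext I J
    rw [Matrix.mul_apply]
    change ∑ e : Fin n → α, (y I * flat W b z fun s => b (e s)) *
      (∏ s, (γ : Matrix α α K) (e s) (J s)) = y I * flat W b z fun s => b (J s)
    have h4 : flat W b z (fun s => b (J s)) = ∑ e : Fin n → α,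
        (∏ s, (γ : Matrix α α K) (e s) (J s)) * flat W b z fun s => b (e s) := by
      have h5 := S.fB_G hpar n (cls W b n z) (fun s => b (J s))
      rw [hG _ hz, hμ, hσ, one_pow, one_mul] at h5
      change _ = fB hpar n (cls W b n z) _ at h5
      rw [← fB_cls hpar, ← h5]
      have h6 : (fun s => S.g (b (J s))) = fun s => ∑ i, (γ : Matrix α α K) i (J s) • b i := by
        funext s; exact hγ _
      rw [h6]
      have h7 : (W.pureT fun s => ∑ i, (γ : Matrix α α K) i (J s) • b i) = ∑ e : Fin n → α,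
          (∏ s, (γ : Matrix α α K) (e s) (J s)) • W.pureT fun s => b (e s) := by
        conv_lhs => rw [← pureM_apply, MultilinearMap.map_sum]
        refine Finset.sum_congr rfl fun e _ => ?_
        rw [MultilinearMap.map_smul_univ, pureM_apply]
      rw [h7, ← fBL_apply, map_sum]
      refine Finset.sum_congr rfl fun e _ => ?_
      rw [map_smul, smul_eq_mul, fBL_apply, fB_cls]
    rw [h4, Finset.mul_sum]
    refine Finset.sum_congr rfl fun e _ => ?_
    ring
  unfold H69.cj
  rw [h2]
  calc famX b n (⟨y, hy⟩, ⟨z, hz⟩) * H69.ten (Fin n) ((γ⁻¹ : (Matrix α α K)ˣ) : Matrix α α K) =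
      famX b n (⟨y, hy⟩, ⟨z, hz⟩) * H69.ten (Fin n) (γ : Matrix α α K) *
        H69.ten (Fin n) ((γ⁻¹ : (Matrix α α K)ˣ) : Matrix α α K) := by rw [h3]
    _ = _ := by rw [Matrix.mul_assoc, H69.ten_mul_inv, Matrix.mul_one]

/-- an orthogonal matrix has determinant `± 1` -/
theorem det_sq {b b' : α → W.H X} (hd : ∀ i j, W.tr X (b i * b' j) = if i = j then 1 else 0)
    (hb : ∀ x, x ∈ Submodule.span K (Set.range b)) {φ : W.H X → W.H X}
    (hφ : ∀ x y, W.tr X (φ x * φ y) = W.tr X (x * y)) (γ : Matrix α α K)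
    (hγ : ∀ j, φ (b j) = ∑ i, γ i j • b i) : γ.det ^ 2 = 1 := by
  let Bm : Matrix α α K := Matrix.of fun i j => W.tr X (b i * b j)
  have h1 : γ.transpose * Bm * γ = Bm := by
    ext i j
    have h2 : (γ.transpose * Bm * γ) i j = W.tr X (φ (b i) * φ (b j)) := by
      rw [hγ, hγ, Finset.sum_mul_sum, map_sum, Matrix.mul_apply]
      have h3 : ∀ q, (γ.transpose * Bm) i q * γ q j = ∑ p, γ p i * Bm p q * γ q j := by
        intro q
        rw [Matrix.mul_apply, Finset.sum_mul]
        rfl
      simp only [h3, map_sum]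
      rw [Finset.sum_comm]
      refine Finset.sum_congr rfl fun p _ => Finset.sum_congr rfl fun q _ => ?_
      rw [smul_mul_smul_comm, map_smul, smul_eq_mul]
      change γ p i * W.tr X (b p * b q) * γ q j = _
      ring
    rw [h2, hφ]
    rfl
  have h2 : Bm.det ≠ 0 := by
    choose c hc using fun j => (Submodule.mem_span_range_iff_exists_fun K).1 (hb (b' j))
    have h3 : Bm * Matrix.of (fun p j => c j p) = 1 := by
      ext i j
      rw [Matrix.mul_apply, Matrix.one_apply, ← hd i j, ← hc j, Finset.mul_sum, map_sum]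
      refine Finset.sum_congr rfl fun p _ => ?_
      rw [mul_smul_comm, map_smul, smul_eq_mul]
      change W.tr X (b i * b p) * c j p = _
      ring
    intro h0
    have h4 := congrArg Matrix.det h3
    rw [Matrix.det_mul, h0, zero_mul, Matrix.det_one] at h4
    exact zero_ne_one h4
  have h3 := congrArg Matrix.det h1
  rw [Matrix.det_mul, Matrix.det_mul, Matrix.det_transpose] at h3
  have h4 : γ.det ^ 2 * Bm.det = 1 * Bm.det := by rw [one_mul]; linear_combination h3
  exact mul_right_cancel₀ h2 h4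

end mat

/-- The canonical weighted basis with integral weights. -/
theorem exists_canonical [CharZero K] {X : 𝒱.Obj} (hpar : W.par X ∈ W.algHom X X) {n : ℕ}
    (hn : 2 ≤ n) :
    ∃ (r : ℕ) (B : NWB (W := W) (X := X) hpar n (Fin r)) (ζ : Fin r → ℤ), (∀ i, B.ξ i = ζ i) ∧
      (∀ S : SymG W X, (∀ b, S.G n b ∈ W.algSpan (X.pow n) ↔ b ∈ W.algSpan (X.pow n)) →
        ∀ t, ∀ x ∈ B.Fil t, S.g x ∈ B.Fil t) ∧
      (∀ φ : W.Hom X X, Fixes W X n φ → ∀ δ : Matrix (Fin r) (Fin r) K,
        (∀ j, φ (B.v j) = ∑ i, δ i j • B.v i) → ∀ T : ℕ, (∀ r, -(T : ℤ) ≤ ζ r ∧ ζ r ≤ T) →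
          ∃ N : ℕ, 0 < N ∧
            (∏ t ∈ Finset.Ioc (-(T : ℤ)) T, (δ.toSquareBlockProp fun r => t ≤ ζ r).det) ^ N = 1) := by
  classical
  let b := Module.finBasis K (W.H X)
  choose b' hb' using fun j => exists_dual X (b.coord j)
  have hd : ∀ i j, W.tr X (b i * b' j) = if i = j then 1 else 0 := by
    intro i j
    rw [hb', b.coord_apply, b.repr_self, Finsupp.single_apply]
  have hspan : ∀ x, x ∈ Submodule.span K (Set.range b) := by
    intro x
    rw [b.span_eq]
    exact Submodule.mem_top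
  obtain ⟨h, ξ, hP, hmin⟩ := exists_minimal2 _ _ (exists_posS hpar b n)
  have hG := (posS_iff hpar hspan hd n h ξ).1 hP
  obtain ⟨i₀, hp⟩ := exists_normal' hpar (by omega : 1 ≤ n) (exp_col hd hspan h) hG
  -- rationality
  choose q hq using fun r => rational_of_minimal hP (fun ξ' h' => hmin h ξ' h') r
  obtain ⟨D, hD, z, hz⟩ := exists_denom fun r => q r - q i₀
  have hDR : (0 : ℝ) < D := by exact_mod_cast hD
  have hD1 : (1 : ℝ) ≤ D := by exact_mod_cast hD
  have hzR : ∀ r, (z r : ℝ) = D * (ξ r - ξ i₀) := by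
    intro r
    rw [hq, hq]
    have h1 := hz r
    exact_mod_cast h1
  have hsumz : ∀ {m : ℕ} (a : Fin m → Fin (Module.finrank K (W.H X))),
      ∑ s, ((z (a s) : ℤ) : ℝ) = D * ∑ s, (ξ (a s) - ξ i₀) := by
    intro m a
    rw [Finset.mul_sum]
    exact Finset.sum_congr rfl fun s _ => hzR _
  let B : NWB (W := W) (X := X) hpar n (Fin (Module.finrank K (W.H X))) :=
    { v := colB b (h : Matrix _ _ K)
      v' := rowB b' ((h⁻¹ : (Matrix _ _ K)ˣ) : Matrix _ _ K)
      ξ := fun i => (z i : ℝ)
      dual := fun i j hij => by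
        rw [tr_col_row hd, Units.inv_mul, Matrix.one_apply_ne (Ne.symm hij)]
      one := fun i => by
        rw [tr_col_row hd, Units.inv_mul, Matrix.one_apply_eq]
      exp := exp_col hd hspan h
      neg := fun m hm Y hY a h0 => by
        have h1 := (hp m hm Y hY a).1 h0
        rw [hsumz]
        refine ⟨mul_nonpos_of_nonneg_of_nonpos hDR.le h1.1, fun hnt => ?_⟩
        have h2 := mul_le_mul_of_nonneg_left (h1.2 hnt) hDR.le
        linarith
      pos := fun m hm Y hY a h0 => by
        rw [hsumz]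
        exact mul_nonneg hDR.le ((hp m hm Y hY a).2 h0).1 }
  refine ⟨_, B, z, fun i => rfl, fun S hSA t x hx => ?_, fun φ hφ δ hδ T hT => ?_⟩
  · obtain ⟨γ, hγ⟩ := S.exists_matrix b
    let hσ : (Matrix (Fin (Module.finrank K (W.H X))) (Fin (Module.finrank K (W.H X))) K)ˣ :=
      Units.map (RingHom.mapMatrix (S.σ : K →+* K)).toMonoidHom h
    let h2 := γ * hσ
    have hcol : ∀ j, colB b (h2 : Matrix _ _ K) j = S.g (colB b (h : Matrix _ _ K) j) := by
      intro j
      unfold colB
      rw [S.g_sum]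
      have h3 : ∀ i, S.g ((h : Matrix _ _ K) i j • b i) =
          ∑ q, (S.σ ((h : Matrix _ _ K) i j) * (γ : Matrix _ _ K) q i) • b q := by
        intro i
        rw [S.g_smul, hγ, Finset.smul_sum]
        exact Finset.sum_congr rfl fun q _ => smul_smul _ _ _
      simp only [h3]
      rw [Finset.sum_comm]
      refine Finset.sum_congr rfl fun q _ => ?_
      rw [← Finset.sum_smul]
      congr 1
      have h4 : (h2 : Matrix (Fin (Module.finrank K (W.H X)))
          (Fin (Module.finrank K (W.H X))) K) q j =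
          ∑ i, (γ : Matrix (Fin (Module.finrank K (W.H X))) (Fin (Module.finrank K (W.H X))) K) q i *
            S.σ ((h : Matrix (Fin (Module.finrank K (W.H X)))
              (Fin (Module.finrank K (W.H X))) K) i j) := by
        change ((γ : Matrix (Fin (Module.finrank K (W.H X))) (Fin (Module.finrank K (W.H X))) K) *
          (hσ : Matrix (Fin (Module.finrank K (W.H X))) (Fin (Module.finrank K (W.H X))) K)) q j = _
        rw [Matrix.mul_apply]
        rfl
      rw [h4]
      exact Finset.sum_congr rfl fun i _ => mul_comm _ _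
    have hrow : ∀ j, rowB b' ((h2⁻¹ : (Matrix _ _ K)ˣ) : Matrix _ _ K) j =
        S.μ⁻¹ • S.g (rowB b' ((h⁻¹ : (Matrix _ _ K)ˣ) : Matrix _ _ K) j) := by
      intro j
      refine W.ext_tr' fun w => ?_
      rw [exp_col hd hspan h2 w, Finset.sum_mul, Finset.sum_mul, map_sum, map_sum]
      refine Finset.sum_congr rfl fun i _ => ?_
      rw [smul_mul_assoc, smul_mul_assoc, map_smul, map_smul]
      congr 1
      rw [tr_col_row hd, Units.inv_mul, mul_smul_comm, map_smul, hcol, S.tr_mul, tr_col_row hd,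
        Units.inv_mul, smul_eq_mul, ← mul_assoc, inv_mul_cancel₀ S.μ_ne, one_mul, Matrix.one_apply]
      split_ifs
      · rw [map_one]
      · rw [map_zero]
    have hG2 : PosG hpar n (colB b (h2 : Matrix _ _ K))
        (rowB b' ((h2⁻¹ : (Matrix _ _ K)ˣ) : Matrix _ _ K)) ξ := by
      intro Y hY Y' hY' a a' h3 h4
      obtain ⟨Y, rfl⟩ := S.G_surj n Y
      obtain ⟨Y', rfl⟩ := S.G_surj n Y'
      have h5 : (fun s => rowB b' ((h2⁻¹ : (Matrix _ _ K)ˣ) : Matrix _ _ K) (a s)) =
          fun s => S.μ⁻¹ • S.g (rowB b' ((h⁻¹ : (Matrix _ _ K)ˣ) : Matrix _ _ K) (a s)) := by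
        funext s; exact hrow _
      have h6 : (fun s => colB b (h2 : Matrix _ _ K) (a' s)) =
          fun s => S.g (colB b (h : Matrix _ _ K) (a' s)) := by
        funext s; exact hcol _
      rw [h5, ← pureM_apply, MultilinearMap.map_smul_univ, pureM_apply, fB_smul_right, S.fB_G] at h3
      rw [h6, S.fB_G] at h4
      have h7 := hG Y ((hSA Y).1 hY) Y' ((hSA Y').1 hY') a a'
        (fun h0 => h3 (by rw [h0, map_zero, mul_zero, mul_zero]))
        (fun h0 => h4 (by rw [h0, map_zero, mul_zero]))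
      refine ⟨h7.1, fun hnt => h7.2 ?_⟩
      rcases hnt with hnt | hnt
      · exact Or.inl (S.nt_of_G n hSA hnt)
      · exact Or.inr (S.nt_of_G n hSA hnt)
    have hsame := unique_minimal2 _ _ hP ((posS_iff hpar hspan hd n h2 ξ).2 hG2) hmin le_rfl
    -- stability
    intro i hi
    have h8 : ∀ r, W.tr X (S.g (colB b (h : Matrix _ _ K) r) *
        rowB b' ((h⁻¹ : (Matrix _ _ K)ˣ) : Matrix _ _ K) i) ≠ 0 → ξ r ≤ ξ i := by
      intro r hr
      rw [← hcol, tr_col_row hd] at hr
      exact hsame.1 i r hr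
    rw [B.exp x, S.g_sum, Finset.sum_mul, map_sum]
    refine Finset.sum_eq_zero fun r _ => ?_
    rw [S.g_smul, smul_mul_assoc, map_smul, smul_eq_mul]
    by_contra h0
    have h9 : ξ r ≤ ξ i := h8 r (right_ne_zero_of_mul h0)
    have h10 : W.tr X (x * B.v' r) ≠ 0 := fun h11 => left_ne_zero_of_mul h0 (by rw [h11, map_zero])
    have h11 : t ≤ (z r : ℝ) := by
      by_contra h12
      exact h10 (hx r (not_le.1 h12))
    have h12 : (z i : ℝ) < t := hi
    have h13 : (z r : ℝ) ≤ z i := by
      rw [hzR, hzR]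
      exact mul_le_mul_of_nonneg_left (by linarith) hDR.le
    linarith
  · obtain ⟨S, hS1, hS2, hS3, hS4⟩ := hφ.exists_G hpar hn
    obtain ⟨γ, hγ⟩ := S.exists_matrix b
    have hcj := cj_fam hpar hd S hS1 hS3 (hS4 n le_rfl) γ hγ
    have hdet := det_sq hd hspan (φ := S.g) (fun x y => by rw [hS2]; exact hφ.tr_mul hn x y)
      (γ : Matrix _ _ K) hγ
    have hmain := det_relation (famZ b n) (famX b n) hP hmin γ hcj hDR (ξ i₀) z hzR hdet T hT
    have hδ' : δ = ((h⁻¹ : (Matrix _ _ K)ˣ) : Matrix _ _ K) * (γ : Matrix _ _ K) *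
        (h : Matrix _ _ K) := by
      ext i j
      have h1 : W.tr X (φ (B.v j) * B.v' i) = δ i j := by
        rw [hδ, Finset.sum_mul, map_sum, Finset.sum_eq_single i]
        · rw [smul_mul_assoc, map_smul, B.one, smul_eq_mul, mul_one]
        · intro q _ hq
          rw [smul_mul_assoc, map_smul, B.dual q i hq, smul_zero]
        · intro h; exact absurd (Finset.mem_univ _) h
      rw [← h1]
      have h2 : φ (B.v j) = colB b ((γ : Matrix _ _ K) * (h : Matrix _ _ K)) j := by
        change φ (colB b (h : Matrix _ _ K) j) = _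
        rw [← hS2]
        unfold colB
        rw [S.g_sum]
        have h3 : ∀ i, S.g ((h : Matrix _ _ K) i j • b i) =
            ∑ q, ((γ : Matrix _ _ K) q i * (h : Matrix _ _ K) i j) • b q := by
          intro i
          rw [S.g_smul, hγ, hS1, Finset.smul_sum]
          refine Finset.sum_congr rfl fun q _ => ?_
          rw [smul_smul, mul_comm]
          rfl
        simp only [h3]
        rw [Finset.sum_comm]
        refine Finset.sum_congr rfl fun q _ => ?_
        rw [← Finset.sum_smul, Matrix.mul_apply]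
      rw [h2]
      change W.tr X (colB b _ j * rowB b' ((h⁻¹ : (Matrix _ _ K)ˣ) : Matrix _ _ K) i) = _
      rw [tr_col_row hd, Matrix.mul_assoc]
    rw [hδ']
    exact hmain

end H13F
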