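import Pool.Agent.W_f569db_h13.Two

set_option autoImplicit false

/-!
# The filtration attached to a normalised weighted basis
-/

noncomputable section

namespace H13F

open AlgebraicGeometry CategoryTheory MonoidalCategory
open scoped TensorProduct DirectSum
open Pool.Agent.WeilH_h6 Pool.Agent.WeilH_h6.VarClass Pool.Agent.WeilH_h6.Weil

universe u v w

variable {k : Type u} [Field k] {𝒱 : VarClass k} {K : Type v} [Field K] {W : Weil.{u, v, w} 𝒱 K}

/-- A normalised weighted basis: `v'` is the dual basis of `v`; all algebraic classes on the powers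
`X^m`, `m ≤ n`, have weights `≥ 0`, numerically trivial ones have weights `≥ 1`. -/
structure NWB [CharZero K] {X : 𝒱.Obj} (hpar : W.par X ∈ W.algHom X X) (n : ℕ) (α : Type)
    [Fintype α] where
  v : α → W.H X
  v' : α → W.H X
  ξ : α → ℝ
  dual : ∀ i j, i ≠ j → W.tr X (v i * v' j) = 0
  one : ∀ i, W.tr X (v i * v' i) = 1
  exp : ∀ x, x = ∑ i, W.tr X (x * v' i) • v i
  neg : ∀ m ≤ n, ∀ Y ∈ W.algSpan (X.pow m), ∀ a : Fin m → α,
    fB hpar m Y (W.pureT fun s => v (a s)) ≠ 0 →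
      ∑ s, ξ (a s) ≤ 0 ∧ (W.NT Y → ∑ s, ξ (a s) ≤ -1)
  pos : ∀ m ≤ n, ∀ Y ∈ W.algSpan (X.pow m), ∀ a : Fin m → α,
    fB hpar m Y (W.pureT fun s => v' (a s)) ≠ 0 → 0 ≤ ∑ s, ξ (a s)

namespace NWB

variable [CharZero K] {X : 𝒱.Obj} {hpar : W.par X ∈ W.algHom X X} {n : ℕ} {α : Type} [Fintype α]
  (B : NWB (W := W) (X := X) hpar n α)

/-- the filtration -/
def Fil (t : ℝ) : Submodule K (W.H X) where
  carrier := {x | ∀ i, B.ξ i < t → W.tr X (x * B.v' i) = 0}
  add_mem' := by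
    intro x y hx hy i hi
    rw [add_mul, map_add, hx i hi, hy i hi, add_zero]
  zero_mem' := by
    intro i _
    rw [zero_mul, map_zero]
  smul_mem' := by
    intro c x hx i hi
    rw [smul_mul_assoc, map_smul, hx i hi, smul_zero]

theorem mem_Fil {t : ℝ} {x : W.H X} : x ∈ B.Fil t ↔ ∀ i, B.ξ i < t → W.tr X (x * B.v' i) = 0 :=
  Iff.rfl

theorem Fil_anti {s t : ℝ} (h : s ≤ t) {x : W.H X} (hx : x ∈ B.Fil t) : x ∈ B.Fil s :=
  fun i hi => hx i (lt_of_lt_of_le hi h)

theorem v_mem (i : α) : B.v i ∈ B.Fil (B.ξ i) := by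
  intro j hj
  refine B.dual i j ?_
  rintro rfl
  exact lt_irrefl _ hj

/-- algebraic endomorphisms in the weighted basis -/
theorem end_neg (hn : 2 ≤ n) {T : W.H X →ₗ[K] W.H X} (hT : T ∈ W.algHom X X) {i j : α}
    (h : W.tr X (T (B.v i) * B.v j) ≠ 0) : B.ξ i + B.ξ j ≤ 0 := by
  obtain ⟨Y, hY, hY2⟩ := fB_end hpar hT
  have h1 := (B.neg 2 hn Y hY ![i, j] (by
    have e : (fun s => B.v ((![i, j] : Fin 2 → α) s)) = ![B.v i, B.v j] := by
      funext s; fin_cases s <;> rfl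
    rw [e, hY2]
    exact h)).1
  rw [Fin.sum_univ_two] at h1
  exact h1

theorem end_pos (hn : 2 ≤ n) {T : W.H X →ₗ[K] W.H X} (hT : T ∈ W.algHom X X) {i j : α}
    (h : W.tr X (T (B.v' i) * B.v' j) ≠ 0) : 0 ≤ B.ξ i + B.ξ j := by
  obtain ⟨Y, hY, hY2⟩ := fB_end hpar hT
  have h1 := B.pos 2 hn Y hY ![i, j] (by
    have e : (fun s => B.v' ((![i, j] : Fin 2 → α) s)) = ![B.v' i, B.v' j] := by
      funext s; fin_cases s <;> rfl
    rw [e, hY2]
    exact h)
  rw [Fin.sum_univ_two] at h1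
  exact h1

theorem v'_mem (hn : 2 ≤ n) (i : α) : B.v' i ∈ B.Fil (-B.ξ i) := by
  intro j hj
  by_contra h0
  have h1 := B.end_pos hn (W.id_mem_algHom X) (i := i) (j := j) h0
  linarith

/-- elements of different filtration steps are orthogonal, also after an algebraic endomorphism -/
theorem tr_end_eq_zero (hn : 2 ≤ n) {T : W.H X →ₗ[K] W.H X} (hT : T ∈ W.algHom X X) {s t : ℝ}
    {x y : W.H X} (hx : x ∈ B.Fil s) (hy : y ∈ B.Fil t) (hst : 0 < s + t) :
    W.tr X (T x * y) = 0 := by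
  rw [B.exp x, B.exp y, map_sum, Finset.sum_mul_sum, map_sum]
  refine Finset.sum_eq_zero fun i _ => ?_
  rw [map_sum]
  refine Finset.sum_eq_zero fun j _ => ?_
  rw [map_smul, smul_mul_smul_comm, map_smul, smul_eq_mul]
  by_contra h0
  have h1 := left_ne_zero_of_mul h0
  have h2 : s ≤ B.ξ i := by
    by_contra h3
    exact left_ne_zero_of_mul h1 (hx i (not_le.1 h3))
  have h3 : t ≤ B.ξ j := by
    by_contra h3
    exact right_ne_zero_of_mul h1 (hy j (not_le.1 h3))
  have h4 := B.end_neg hn hT (right_ne_zero_of_mul h0)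
  linarith

theorem T_mem (hn : 2 ≤ n) {T : W.H X →ₗ[K] W.H X} (hT : T ∈ W.algHom X X) {t : ℝ} {x : W.H X}
    (hx : x ∈ B.Fil t) : T x ∈ B.Fil t := by
  intro i hi
  exact B.tr_end_eq_zero hn hT hx (B.v'_mem hn i) (by linarith)

/-- the orthogonal complement of `F^t` is `F^{>-t}` -/
theorem orth (hn : 2 ≤ n) (t : ℝ) (x : W.H X) :
    (∀ y ∈ B.Fil t, W.tr X (x * y) = 0) ↔ ∃ s, -t < s ∧ x ∈ B.Fil s := by
  constructor
  · intro h
    -- the smallest weight bigger than `-t`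
    classical
    by_cases hne : (Finset.univ.filter fun i : α => -t < B.ξ i).Nonempty
    · obtain ⟨i₀, hi₀, hmin⟩ := Finset.exists_min_image _ B.ξ hne
      refine ⟨B.ξ i₀, (Finset.mem_filter.1 hi₀).2, fun i hi => ?_⟩
      have h1 : B.ξ i ≤ -t := by
        by_contra h2
        exact absurd (hmin i (Finset.mem_filter.2 ⟨Finset.mem_univ _, not_le.1 h2⟩)) (not_le.2 hi)
      refine h _ (B.Fil_anti ?_ (B.v'_mem hn i))
      linarith
    · refine ⟨-t + 1, by linarith, fun i hi => ?_⟩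
      have h1 : B.ξ i ≤ -t := by
        by_contra h2
        exact hne ⟨i, Finset.mem_filter.2 ⟨Finset.mem_univ _, not_le.1 h2⟩⟩
      refine h _ (B.Fil_anti ?_ (B.v'_mem hn i))
      linarith
  · rintro ⟨s, hs, hx⟩ y hy
    exact B.tr_end_eq_zero hn (W.id_mem_algHom X) hx hy (by linarith)

/-- pairing of an algebraic class with a product of elements of the filtration steps, unsigned form -/
theorem fB_eq_zero {m : ℕ} (hm : m ≤ n) {Y : W.H (X.pow m)} (hY : Y ∈ W.algSpan (X.pow m))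
    {t : Fin m → ℝ} {x : Fin m → W.H X} (hx : ∀ s, x s ∈ B.Fil (t s))
    (ht : 0 < ∑ s, t s ∨ (W.NT Y ∧ -1 < ∑ s, t s)) : fB hpar m Y (W.pureT x) = 0 := by
  classical
  have h1 : x = fun s => ∑ i, W.tr X (x s * B.v' i) • B.v i := by
    funext s
    exact B.exp (x s)
  have h2 : W.pureT x = ∑ a : Fin m → α, (∏ s, W.tr X (x s * B.v' (a s))) •
      W.pureT fun s => B.v (a s) := by
    conv_lhs => rw [h1, ← pureM_apply, MultilinearMap.map_sum]
    refine Finset.sum_congr rfl fun a _ => ?_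
    rw [MultilinearMap.map_smul_univ, pureM_apply]
  rw [h2, ← fBL_apply, map_sum]
  refine Finset.sum_eq_zero fun a _ => ?_
  rw [map_smul, smul_eq_mul, fBL_apply]
  by_contra h0
  have h3 := left_ne_zero_of_mul h0
  have h4 : ∀ s, t s ≤ B.ξ (a s) := by
    intro s
    by_contra h5
    exact (Finset.prod_ne_zero_iff.1 h3 s (Finset.mem_univ _)) (hx s _ (not_le.1 h5))
  have h5 : ∑ s, t s ≤ ∑ s, B.ξ (a s) := Finset.sum_le_sum fun s _ => h4 s
  have h6 := B.neg m hm Y hY a (right_ne_zero_of_mul h0)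
  rcases ht with ht | ⟨hnt, ht⟩
  · linarith [h6.1]
  · linarith [h6.2 hnt]

/-- pairing of an algebraic class with a product of elements of the filtration steps -/
theorem tr_eq_zero (hn : 2 ≤ n) {m : ℕ} (hm : m ≤ n) {Y : W.H (X.pow m)}
    (hY : Y ∈ W.algSpan (X.pow m)) {t : Fin m → ℝ} {x : Fin m → W.H X} (hx : ∀ s, x s ∈ B.Fil (t s))
    (ht : 0 < ∑ s, t s ∨ (W.NT Y ∧ -1 < ∑ s, t s)) : W.tr (X.pow m) (Y * W.pureT x) = 0 := by
  classical
  have h1 : x = fun s => ∑ i : Fin 2, parPr W X i (x s) := by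
    funext s; rw [parPr_add]
  have h2 : W.pureT x = ∑ τ : Fin m → Fin 2, W.pureT fun s => parPr W X (τ s) (x s) := by
    conv_lhs => rw [h1, ← pureM_apply, MultilinearMap.map_sum]
    simp only [pureM_apply]
  rw [h2, Finset.mul_sum, map_sum]
  refine Finset.sum_eq_zero fun τ _ => ?_
  obtain ⟨ε, -, h3⟩ := tr_mul_pureT (W := W) (X := X) hpar (n := m) τ
  rw [h3 Y _ (fun s => par_parPr W (τ s) (x s)), B.fB_eq_zero hm hY
    (fun s => B.T_mem hn (parPr_mem W hpar (τ s)) (hx s)) ht, mul_zero]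

theorem mul_mem (hn : 3 ≤ n) {s t : ℝ} {x y : W.H X} (hx : x ∈ B.Fil s) (hy : y ∈ B.Fil t) :
    x * y ∈ B.Fil (s + t) := by
  intro i hi
  obtain ⟨Y, hY, hY3⟩ := exists_diag3 (W := W) X
  rw [← hY3]
  refine B.tr_eq_zero (by omega) hn hY (t := ![s, t, -B.ξ i]) ?_ (Or.inl ?_)
  · intro j
    fin_cases j
    · exact hx
    · exact hy
    · exact B.v'_mem (by omega) i
  · rw [Fin.sum_univ_three]
    show 0 < s + t + -B.ξ i
    linarith

theorem alg_mem (hn : 1 ≤ n) {a : W.H X} (ha : a ∈ W.algSpan X) : a ∈ B.Fil 0 := by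
  intro i hi
  by_contra h0
  have h1 := B.pos 1 hn (W.pureT fun _ => a) (pureT_alg fun _ => ha) (fun _ => i) (by
    rw [fB_pureT, Fin.prod_univ_one]
    exact h0)
  rw [Fin.sum_univ_one] at h1
  linarith

theorem exists_top : ∃ t, B.Fil t = ⊤ := by
  classical
  rcases isEmpty_or_nonempty α with h | h
  · exact ⟨0, by
      rw [eq_top_iff]
      intro x _ i
      exact (h.false i).elim⟩
  · obtain ⟨i₀, -, hmin⟩ := Finset.exists_min_image Finset.univ B.ξ Finset.univ_nonempty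
    refine ⟨B.ξ i₀, ?_⟩
    rw [eq_top_iff]
    intro x _ i hi
    exact absurd (hmin i (Finset.mem_univ _)) (not_le.2 hi)

theorem exists_bot : ∃ t, B.Fil t = ⊥ := by
  classical
  rcases isEmpty_or_nonempty α with h | h
  · refine ⟨0, ?_⟩
    rw [eq_bot_iff]
    intro x _
    rw [Submodule.mem_bot, B.exp x]
    exact Finset.sum_of_isEmpty _
  · obtain ⟨i₀, -, hmax⟩ := Finset.exists_max_image Finset.univ B.ξ Finset.univ_nonempty
    refine ⟨B.ξ i₀ + 1, ?_⟩
    rw [eq_bot_iff]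
    intro x hx
    rw [Submodule.mem_bot, B.exp x]
    refine Finset.sum_eq_zero fun i _ => ?_
    rw [hx i (by linarith [hmax i (Finset.mem_univ _)]), zero_smul]

theorem inf_eq (t : ℝ) : ⨅ s, ⨅ (_ : s < t), B.Fil s = B.Fil t := by
  apply le_antisymm
  · intro x hx i hi
    have h1 : x ∈ B.Fil ((B.ξ i + t) / 2) := by
      have h2 := (Submodule.mem_iInf _).1 hx ((B.ξ i + t) / 2)
      exact (Submodule.mem_iInf _).1 h2 (by linarith)
    exact h1 i (by linarith)
  · refine le_iInf fun s => le_iInf fun hs => ?_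
    intro x hx
    exact B.Fil_anti hs.le hx

end NWB

end H13F
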