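import Pool.Agent.W_f569db_h13.WBDefs
import Pool.Agent.W_f569db_h13.Struct
import Pool.Agent.WeilH_h6.RatNT

set_option autoImplicit false

/-!
# The converse: a destabilising filtration gives a numerically trivial class
-/

noncomputable section

namespace H13F

open AlgebraicGeometry CategoryTheory MonoidalCategory
open scoped TensorProduct DirectSum
open Pool.Agent.WeilH_h6 Pool.Agent.WeilH_h6.VarClass Pool.Agent.WeilH_h6.Weil

universe u v w

variable {k : Type u} [Field k] {𝒱 : VarClass k} {K : Type v} [Field K] {W : Weil.{u, v, w} 𝒱 K}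

theorem tr_pull_pairq {X : 𝒱.Obj} (u : W.H (X.prod X)) :
    W.tr (X.pow 2) (W.pull (pairq X) u) = W.tr (X.prod X) u := by
  refine W.kunneth_induction X X (P := fun u => W.tr (X.pow 2) (W.pull (pairq X) u) =
    W.tr (X.prod X) u) ?_ ?_ u
  · intro a b ha hb
    rw [map_add, map_add, map_add, ha, hb]
  · intro x y
    rw [pull_pairq, tr_pureT, W.tr_prod, Fin.prod_univ_two]
    rfl

namespace WBasis

variable {X : 𝒱.Obj} (B : WBasis W X)

theorem F_anti {s t : ℝ} (h : s ≤ t) : B.F t ≤ B.F s :=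
  Submodule.span_mono (Set.image_mono fun _ hi => h.trans hi)

theorem v_mem (i : Fin B.r) : B.v i ∈ B.F (B.ξ i) :=
  Submodule.subset_span ⟨i, le_refl (B.ξ i), rfl⟩

theorem mem_F {t : ℝ} {x : W.H X} : x ∈ B.F t ↔ ∀ i, B.v.repr x i ≠ 0 → t ≤ B.ξ i := by
  constructor
  · intro hx i hi
    unfold F at hx
    rw [B.v.mem_span_image] at hx
    exact hx (Finsupp.mem_support_iff.2 hi)
  · intro h
    unfold F
    rw [B.v.mem_span_image]
    intro i hi
    exact h i (Finsupp.mem_support_iff.1 hi)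

theorem mem_of_forall_lt {t : ℝ} {x : W.H X} (h : ∀ s < t, x ∈ B.F s) : x ∈ B.F t := by
  rw [mem_F]
  intro i hi
  by_contra hlt
  have h1 := B.mem_F.1 (h ((B.ξ i + t) / 2) (by linarith)) i hi
  linarith

/-- algebraic endomorphisms preserve the filtration -/
theorem end_mem (hs : B.SelfDual) (hge : ∀ a ∈ W.algSpan (X.pow 2), B.Ge a)
    {T : W.H X →ₗ[K] W.H X} (hT : T ∈ W.algHom X X) {t : ℝ} {x : W.H X} (hx : x ∈ B.F t) :
    T x ∈ B.F t := by
  obtain ⟨α, hα, hα'⟩ := W.mem_algHom_iff.1 hT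
  refine B.mem_of_forall_lt fun s hst => ?_
  have h1 : ∀ y ∈ B.F (-s), W.tr X (T x * y) = 0 := by
    intro y hy
    rw [hα', ← tr_pull_pairq, map_mul, pull_pairq]
    refine hge _ (W.pull_mem_algSpan _ hα) ![t, -s] ![x, y] ?_ ?_
    · intro i
      fin_cases i
      · exact hx
      · exact hy
    · rw [Fin.sum_univ_two]
      show 0 < t + -s
      linarith
  obtain ⟨s', hs', hx'⟩ := (hs (-s) _).1 h1
  exact B.F_anti (by linarith) hx'

/-- The converse. -/
theorem nt_of_gt [CharZero K] (hpar : W.par X ∈ W.algHom X X) (hs : B.SelfDual)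
    (hge2 : ∀ a ∈ W.algSpan (X.pow 2), B.Ge a) {m : ℕ} (hge : ∀ a ∈ W.algSpan (X.pow m), B.Ge a)
    {a : W.H (X.pow m)} (ha : a ∈ W.algSpan (X.pow m)) (hgt : B.Gt a) : W.NT a := by
  classical
  refine ⟨ha, fun b hb => ?_⟩
  -- the left dual basis
  let w : Fin B.r → W.H X := fun i => (W.pd X).symm (B.v.coord i)
  have hw : ∀ i x, W.tr X (w i * x) = B.v.repr x i := by
    intro i x
    rw [← W.pd_apply, LinearEquiv.apply_symm_apply]
    rfl
  have hwm : ∀ i, w i ∈ B.F (-B.ξ i) := by
    intro i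
    refine B.mem_of_forall_lt fun s hst => ?_
    have h1 : ∀ y ∈ B.F (-s), W.tr X (w i * y) = 0 := by
      intro y hy
      rw [hw]
      by_contra h0
      have h2 := B.mem_F.1 hy i h0
      linarith
    obtain ⟨s', hs', hx'⟩ := (hs (-s) _).1 h1
    exact B.F_anti (by linarith) hx'
  -- coordinates of `b`
  have hspan : ∀ x, x ∈ Submodule.span K (Set.range B.v) := by
    intro x; rw [B.v.span_eq]; exact Submodule.mem_top
  obtain ⟨y, rfl⟩ := exists_cls (fun i => B.v i) hspan b
  unfold cls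
  rw [Finset.mul_sum, map_sum]
  refine Finset.sum_eq_zero fun c _ => ?_
  rw [mul_smul_comm, map_smul, smul_eq_mul]
  by_contra h0
  have h1 : ∑ s, B.ξ (c s) < 0 := by
    by_contra h2
    exact right_ne_zero_of_mul h0 (hgt (fun s => B.ξ (c s)) _ (fun s => B.v_mem _) (not_lt.1 h2))
  apply left_ne_zero_of_mul h0
  -- the coordinate is an unsigned pairing with the dual basis
  have h2 : fB hpar m (cls W (fun i => B.v i) m y) (W.pureT fun s => W.par X (w (c s))) = y c := by
    rw [fB_cls]
    unfold flat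
    rw [Finset.sum_eq_single c]
    · rw [Finset.prod_eq_one, mul_one]
      intro s _
      rw [← W.tr_comm, hw, B.v.repr_self, Finsupp.single_eq_same]
    · intro c' _ hc'
      obtain ⟨s, hs⟩ := Function.ne_iff.1 hc'
      rw [Finset.prod_eq_zero (Finset.mem_univ s), mul_zero]
      rw [← W.tr_comm, hw, B.v.repr_self, Finsupp.single_eq_of_ne (Ne.symm hs)]
    · intro h; exact absurd (Finset.mem_univ _) h
  rw [← h2]
  -- homogeneous parts
  have hexp : (W.pureT fun s => W.par X (w (c s))) = ∑ τ : Fin m → Fin 2,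
      W.pureT fun s => parPr W X (τ s) (W.par X (w (c s))) := by
    have h3 : (fun s => W.par X (w (c s))) = fun s => ∑ i : Fin 2, parPr W X i (W.par X (w (c s))) := by
      funext s; rw [parPr_add]
    conv_lhs => rw [h3, ← pureM_apply, MultilinearMap.map_sum]
    simp only [pureM_apply]
  rw [hexp, ← fBL_apply, map_sum]
  refine Finset.sum_eq_zero fun τ _ => ?_
  rw [fBL_apply]
  obtain ⟨ε, hε, h4⟩ := tr_mul_pureT (W := W) (X := X) hpar (n := m) τ
  have h5 := h4 (cls W (fun i => B.v i) m y) _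
    (fun s => par_parPr W (τ s) (W.par X (w (c s))))
  have h6 : W.tr (X.pow m) (cls W (fun i => B.v i) m y *
      W.pureT fun s => parPr W X (τ s) (W.par X (w (c s)))) = 0 := by
    refine hge _ hb (fun s => -B.ξ (c s)) _ (fun s => ?_) ?_
    · exact B.end_mem hs hge2 (parPr_mem W hpar (τ s)) (B.end_mem hs hge2 hpar (hwm _))
    · rw [Finset.sum_neg_distrib]; linarith
  rw [h6] at h5
  rcases mul_eq_zero.1 h5.symm with h7 | h7
  · exact absurd h7 hε
  · exact h7

end WBasis

end H13F
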