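import Pool.Agent.W_f569db_h13.FiltDefs
import Pool.Agent.W_f569db_h13.Conv

set_option autoImplicit false

/-!
# From filtrations to weighted bases
-/

noncomputable section

namespace H13F

open AlgebraicGeometry CategoryTheory MonoidalCategory
open scoped TensorProduct DirectSum
open Pool.Agent.WeilH_h6 Pool.Agent.WeilH_h6.VarClass Pool.Agent.WeilH_h6.Weil

universe u v w

variable {k : Type u} [Field k] {𝒱 : VarClass k} {K : Type v} [Field K] {W : Weil.{u, v, w} 𝒱 K}

namespace Filt

variable {X : 𝒱.Obj} (B : Filt W X)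

theorem exists_level {x : W.H X} (hx : x ≠ 0) : ∃ l : ℤ, ∀ t, x ∈ B.F t ↔ t ≤ l := by
  obtain ⟨t₀, ht₀⟩ := B.top
  obtain ⟨t₁, ht₁⟩ := B.bot
  have hlt : ∀ t, x ∈ B.F t → t ≤ t₁ := by
    intro t ht
    by_contra h
    have h1 := B.anti t₁ t (by omega) ht
    rw [ht₁, Submodule.mem_bot] at h1
    exact hx h1
  obtain ⟨l, hl, hmax⟩ := Int.exists_greatest_of_bdd (P := fun t => x ∈ B.F t) ⟨t₁, hlt⟩
    ⟨t₀, by rw [ht₀]; exact Submodule.mem_top⟩
  exact ⟨l, fun t => ⟨fun h => hmax t h, fun h => B.anti t l h hl⟩⟩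

/-- A filtration comes from a weighted basis. -/
theorem exists_wb : ∃ B' : WBasis W X, ∀ t : ℝ, B'.F t = B.F ⌈t⌉ := by
  classical
  let b := Module.finBasis K (W.H X)
  let cf : (Fin (Module.finrank K (W.H X)) → K) → W.H X := fun c => ∑ i, c i • b i
  have hcf0 : ∀ c, cf c = 0 → c = 0 := by
    intro c hc
    funext i
    exact Fintype.linearIndependent_iff.1 b.linearIndependent c hc i
  let η : (Fin (Module.finrank K (W.H X)) → K) → ℝ := fun c =>
    if h : cf c ≠ 0 then ((Classical.choose (B.exists_level h) : ℤ) : ℝ) else 0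
  have hη : ∀ c, cf c ≠ 0 → ∃ l : ℤ, η c = l ∧ ∀ t, cf c ∈ B.F t ↔ t ≤ l := by
    intro c hc
    refine ⟨Classical.choose (B.exists_level hc), ?_, Classical.choose_spec (B.exists_level hc)⟩
    exact dif_pos hc
  have hfin : (Set.range η).Finite := by
    obtain ⟨t₀, ht₀⟩ := B.top
    obtain ⟨t₁, ht₁⟩ := B.bot
    refine Set.Finite.subset (((Set.finite_Icc t₀ t₁).image (fun t : ℤ => (t : ℝ))).union
      (Set.finite_singleton 0)) ?_
    rintro _ ⟨c, rfl⟩
    by_cases hc : cf c ≠ 0
    · obtain ⟨l, hl, hl2⟩ := hη c hc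
      left
      refine ⟨l, ⟨(hl2 t₀).1 (by rw [ht₀]; exact Submodule.mem_top), ?_⟩, hl.symm⟩
      by_contra h
      have h1 := B.anti t₁ l (by omega) ((hl2 l).2 le_rfl)
      rw [ht₁, Submodule.mem_bot] at h1
      exact hc h1
    · right
      exact dif_neg hc
  obtain ⟨h, hh⟩ := adapted_basis η hfin
  let vv : Fin (Module.finrank K (W.H X)) → W.H X := fun j => cf fun i => (h : Matrix _ _ K) i j
  let co : W.H X → (Fin (Module.finrank K (W.H X)) → K) := fun x =>
    ((h⁻¹ : (Matrix _ _ K)ˣ) : Matrix _ _ K).mulVec fun i => b.repr x i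
  have hco : ∀ x, ∑ j, co x j • vv j = x := by
    intro x
    have h1 : ∀ j, co x j • vv j = ∑ i, ((h : Matrix _ _ K) i j * co x j) • b i := by
      intro j
      change co x j • ∑ i, (h : Matrix _ _ K) i j • b i = _
      rw [Finset.smul_sum]
      exact Finset.sum_congr rfl fun i _ => by rw [smul_smul, mul_comm]
    simp only [h1]
    rw [Finset.sum_comm]
    have h2 : ∀ i, ∑ j, ((h : Matrix _ _ K) i j * co x j) • b i = b.repr x i • b i := by
      intro i
      rw [← Finset.sum_smul]
      congr 1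
      have h4 : (h : Matrix (Fin (Module.finrank K (W.H X))) (Fin (Module.finrank K (W.H X))) K).mulVec
          (((h⁻¹ : (Matrix (Fin (Module.finrank K (W.H X))) (Fin (Module.finrank K (W.H X))) K)ˣ) :
            Matrix (Fin (Module.finrank K (W.H X))) (Fin (Module.finrank K (W.H X))) K).mulVec
            fun i => b.repr x i) = fun i => b.repr x i := by
        rw [Matrix.mulVec_mulVec, Units.mul_inv, Matrix.one_mulVec]
      exact congrFun h4 i
    simp only [h2]
    exact b.sum_repr x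
  have hli : LinearIndependent K vv := by
    rw [Fintype.linearIndependent_iff]
    intro c hc
    have h1 : (h : Matrix (Fin (Module.finrank K (W.H X))) (Fin (Module.finrank K (W.H X))) K).mulVec c
        = 0 := by
      apply hcf0
      change ∑ i, ((h : Matrix (Fin (Module.finrank K (W.H X)))
        (Fin (Module.finrank K (W.H X))) K).mulVec c) i • b i = 0
      rw [← hc]
      have h2 : ∀ j, c j • vv j = ∑ i, ((h : Matrix _ _ K) i j * c j) • b i := by
        intro j
        change c j • ∑ i, (h : Matrix _ _ K) i j • b i = _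
        rw [Finset.smul_sum]
        exact Finset.sum_congr rfl fun i _ => by rw [smul_smul, mul_comm]
      simp only [h2]
      rw [Finset.sum_comm]
      refine Finset.sum_congr rfl fun i _ => ?_
      rw [← Finset.sum_smul]
      rfl
    have h2 : c = 0 := by
      have h3 := congrArg (fun z => ((h⁻¹ : (Matrix (Fin (Module.finrank K (W.H X)))
        (Fin (Module.finrank K (W.H X))) K)ˣ) : Matrix (Fin (Module.finrank K (W.H X)))
        (Fin (Module.finrank K (W.H X))) K).mulVec z) h1
      rw [Matrix.mulVec_mulVec, Units.inv_mul, Matrix.one_mulVec, Matrix.mulVec_zero] at h3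
      exact h3
    intro i
    rw [h2]; rfl
  let vb : Module.Basis (Fin (Module.finrank K (W.H X))) K (W.H X) := Module.Basis.mk hli (by
    intro x _
    rw [← hco x]
    exact Submodule.sum_mem _ fun j _ => Submodule.smul_mem _ _ (Submodule.subset_span ⟨j, rfl⟩))
  have hvb : ∀ j, vb j = vv j := fun j => by
    change (Module.Basis.mk hli _) j = vv j
    rw [Module.Basis.mk_apply]
  have hrepr : ∀ x j, vb.repr x j = co x j := by
    intro x j
    have h1 : x = ∑ j, co x j • vb j := by
      simp only [hvb]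
      exact (hco x).symm
    conv_lhs => rw [h1]
    rw [map_sum, Finsupp.finsetSum_apply, Finset.sum_eq_single j]
    · rw [map_smul, Finsupp.smul_apply, vb.repr_self, Finsupp.single_eq_same, smul_eq_mul, mul_one]
    · intro i _ hij
      rw [map_smul, Finsupp.smul_apply, vb.repr_self, Finsupp.single_eq_of_ne (Ne.symm hij),
        smul_zero]
    · intro h; exact absurd (Finset.mem_univ _) h
  refine ⟨⟨_, vb, fun j => η fun i => (h : Matrix _ _ K) i j⟩, fun t => ?_⟩
  ext x
  rw [WBasis.mem_F]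
  have hvv0 : ∀ j, vv j ≠ 0 := fun j => hli.ne_zero j
  constructor
  · intro hx
    rw [← vb.sum_repr x]
    refine Submodule.sum_mem _ fun j _ => ?_
    by_cases h0 : vb.repr x j = 0
    · rw [h0, zero_smul]; exact Submodule.zero_mem _
    · refine Submodule.smul_mem _ _ ?_
      have h1 : t ≤ η fun i => (h : Matrix _ _ K) i j := hx j h0
      obtain ⟨l, hl, hl2⟩ := hη _ (hvv0 j)
      rw [hl] at h1
      rw [hvb]
      exact (hl2 _).2 (Int.ceil_le.2 h1)
  · intro hx j hj
    change vb.repr x j ≠ 0 at hj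
    change t ≤ η fun i => (h : Matrix _ _ K) i j
    rw [hrepr] at hj
    have hcfx : cf (fun i => b.repr x i) = x := b.sum_repr x
    have hx0 : x ≠ 0 := by
      rintro rfl
      apply hj
      change ((h⁻¹ : (Matrix _ _ K)ˣ) : Matrix _ _ K).mulVec (fun i => b.repr 0 i) j = 0
      rw [map_zero]
      exact congrFun (Matrix.mulVec_zero _) j
    refine hh t (fun i => b.repr x i) ?_ ?_ j hj
    · intro h0
      apply hx0
      rw [← hcfx, h0]
      change ∑ i, (0 : K) • b i = 0
      simp
    · obtain ⟨l, hl, hl2⟩ := hη (fun i => b.repr x i) (by rw [hcfx]; exact hx0)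
      rw [hl]
      rw [hcfx] at hl2
      exact Int.ceil_le.1 ((hl2 _).1 hx)

/-- the converse for filtrations -/
theorem nt_of_gt [CharZero K] (hpar : W.par X ∈ W.algHom X X) (hs : B.SelfDual)
    (hge2 : ∀ a ∈ W.algSpan (X.pow 2), B.Ge a) {m : ℕ} (hge : ∀ a ∈ W.algSpan (X.pow m), B.Ge a)
    {a : W.H (X.pow m)} (ha : a ∈ W.algSpan (X.pow m)) (hgt : B.Gt a) : W.NT a := by
  obtain ⟨B', hB'⟩ := B.exists_wb
  have hGe : ∀ {m : ℕ} (a : W.H (X.pow m)), B.Ge a → B'.Ge a := by
    intro m a h t x hx ht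
    refine h (fun s => ⌈t s⌉) x (fun s => by rw [← hB']; exact hx s) ?_
    have h1 : ∑ s, t s ≤ ∑ s, ((⌈t s⌉ : ℤ) : ℝ) := Finset.sum_le_sum fun s _ => Int.le_ceil _
    have h2 : (0 : ℝ) < ((∑ s, ⌈t s⌉ : ℤ) : ℝ) := by
      push_cast; linarith
    exact_mod_cast h2
  have hGt : ∀ {m : ℕ} (a : W.H (X.pow m)), B.Gt a → B'.Gt a := by
    intro m a h t x hx ht
    refine h (fun s => ⌈t s⌉) x (fun s => by rw [← hB']; exact hx s) ?_
    have h1 : ∑ s, t s ≤ ∑ s, ((⌈t s⌉ : ℤ) : ℝ) := Finset.sum_le_sum fun s _ => Int.le_ceil _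
    have h2 : (0 : ℝ) ≤ ((∑ s, ⌈t s⌉ : ℤ) : ℝ) := by
      push_cast; linarith
    exact_mod_cast h2
  refine B'.nt_of_gt hpar ?_ (fun a ha => hGe a (hge2 a ha)) (fun a ha => hGe a (hge a ha)) ha
    (hGt a hgt)
  intro t x
  rw [hB']
  rw [← hs ⌈t⌉ x]
  constructor
  · intro hx
    refine ⟨((1 - ⌈t⌉ : ℤ) : ℝ), ?_, ?_⟩
    · have := Int.ceil_lt_add_one t
      push_cast; linarith
    · rw [hB', Int.ceil_intCast]; exact hx
  · rintro ⟨s, hs', hx⟩
    rw [hB'] at hx
    refine B.anti _ _ ?_ hx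
    have h1 : (-⌈t⌉ : ℤ) < ⌈s⌉ := by
      rw [Int.lt_ceil]
      have := Int.le_ceil t
      push_cast; linarith
    omega

end Filt

end H13F
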