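import Pool.Agent.W_f569db_h13.Norm

set_option autoImplicit false

/-!
# The unsigned form on `H(X^2)` and algebraic endomorphisms; the small diagonal
-/

noncomputable section

namespace H13F

open AlgebraicGeometry CategoryTheory MonoidalCategory
open scoped TensorProduct DirectSum
open Pool.Agent.WeilH_h6 Pool.Agent.WeilH_h6.VarClass Pool.Agent.WeilH_h6.Weil

universe u v w

variable {k : Type u} [Field k] {𝒱 : VarClass k} {K : Type v} [Field K] {W : Weil.{u, v, w} 𝒱 K}

/-- `X^2 → X × X` -/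
def pairq (X : 𝒱.Obj) : X.pow 2 ⟶ X.prod X := Obj.lift (Obj.proj X 2 0) (Obj.proj X 2 1)

theorem pureT_two {X : 𝒱.Obj} (v : Fin 2 → W.H X) :
    W.pureT v = W.pull (Obj.proj X 2 0) (v 0) * W.pull (Obj.proj X 2 1) (v 1) := by
  unfold Weil.pureT
  simp [List.ofFn_succ]

theorem pull_pairq {X : 𝒱.Obj} (x y : W.H X) :
    W.pull (pairq X) (W.p1 X X x * W.p2 X X y) = W.pureT ![x, y] := by
  rw [map_mul, ← W.pull_comp, ← W.pull_comp]
  unfold pairq
  rw [Obj.lift_fst, Obj.lift_snd, pureT_two]
  rfl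

/-- comparison of the trace on `X × X` with the unsigned form -/
theorem tr_eq_fB [CharZero K] {X : 𝒱.Obj} (hpar : W.par X ∈ W.algHom X X) (α : W.H (X.prod X))
    {i j : Fin 2} {v w : W.H X} (hv : W.par X v = ((-1 : K) ^ ((i : Fin 2) : ℕ)) • v)
    (hw : W.par X w = ((-1 : K) ^ ((j : Fin 2) : ℕ)) • w) :
    W.tr (X.prod X) (α * (W.p1 X X v * W.p2 X X w)) =
      (-1 : K) ^ (((i : Fin 2) : ℕ) * ((j : Fin 2) : ℕ)) *
        fB hpar 2 (W.pull (pairq X) α) (W.pureT ![v, w]) := by
  refine W.kunneth_induction X X (P := fun α => W.tr (X.prod X) (α * (W.p1 X X v * W.p2 X X w)) =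
      (-1 : K) ^ (((i : Fin 2) : ℕ) * ((j : Fin 2) : ℕ)) *
        fB hpar 2 (W.pull (pairq X) α) (W.pureT ![v, w])) ?_ ?_ α
  · intro a b ha hb
    rw [add_mul, map_add, ha, hb, map_add, fB_add_left, mul_add]
  · intro x y
    have h1 : ∀ l : Fin 2, W.tr (X.prod X) (W.p1 X X x * W.p2 X X (parPr W X l y) *
        (W.p1 X X v * W.p2 X X w)) =
        (-1 : K) ^ (((i : Fin 2) : ℕ) * ((j : Fin 2) : ℕ)) *
          (W.tr X (x * v) * W.tr X (parPr W X l y * w)) := by
      intro l
      have h2 : W.p2 X X (parPr W X l y) * W.p1 X X v = ((-1 : K) ^ (((l : Fin 2) : ℕ) *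
          ((i : Fin 2) : ℕ))) • (W.p1 X X v * W.p2 X X (parPr W X l y)) :=
        W.supercomm (by rw [par_pull, par_parPr, map_smul]) (by rw [par_pull, hv, map_smul])
      have h3 : W.p1 X X x * W.p2 X X (parPr W X l y) * (W.p1 X X v * W.p2 X X w) =
          ((-1 : K) ^ (((l : Fin 2) : ℕ) * ((i : Fin 2) : ℕ))) •
            (W.p1 X X (x * v) * W.p2 X X (parPr W X l y * w)) := by
        calc W.p1 X X x * W.p2 X X (parPr W X l y) * (W.p1 X X v * W.p2 X X w)
            = W.p1 X X x * (W.p2 X X (parPr W X l y) * W.p1 X X v) * W.p2 X X w := by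
              simp only [mul_assoc]
          _ = _ := by
              rw [h2, mul_smul_comm, smul_mul_assoc, map_mul, map_mul]
              simp only [mul_assoc]
      rw [h3, map_smul, W.tr_prod, smul_eq_mul]
      by_cases hlj : l = j
      · subst hlj
        rw [mul_comm ((l : Fin 2) : ℕ) ((i : Fin 2) : ℕ)]
      · have h0 : W.tr X (parPr W X l y * w) = 0 := by
          refine tr_mul_parity (par_parPr W l y) hw ?_
          have h3 : (-1 : K) ≠ 1 := by
            intro h
            have h4 : (2 : K) = 0 := by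
              have : (1 : K) + 1 = 1 + (-1) := by rw [h]
              rw [one_add_one_eq_two] at this
              rw [this]; ring
            exact two_ne_zero h4
          fin_cases l <;> fin_cases j <;> simp_all
        rw [h0, mul_zero, mul_zero, mul_zero]
    have h4 : y = ∑ l, parPr W X l y := (parPr_add W y).symm
    have h5 : fB hpar 2 (W.pull (pairq X) (W.p1 X X x * W.p2 X X y)) (W.pureT ![v, w]) =
        W.tr X (x * v) * W.tr X (y * w) := by
      rw [pull_pairq, fB_pureT, Fin.prod_univ_two]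
      rfl
    rw [h5]
    conv_lhs => rw [h4, map_sum, Finset.mul_sum, Finset.sum_mul, map_sum]
    simp only [h1]
    rw [← Finset.mul_sum, ← Finset.mul_sum]
    congr 2
    conv_rhs => rw [h4, Finset.sum_mul, map_sum]

/-- the unsigned form and algebraic endomorphisms -/
theorem fB_end [CharZero K] {X : 𝒱.Obj} (hpar : W.par X ∈ W.algHom X X)
    {T : W.H X →ₗ[K] W.H X} (hT : T ∈ W.algHom X X) :
    ∃ Y ∈ W.algSpan (X.pow 2), ∀ v w, fB hpar 2 Y (W.pureT ![v, w]) = W.tr X (T v * w) := by
  classical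
  obtain ⟨α, hα, hα'⟩ := W.mem_algHom_iff.1 (W.comp_mem_algHom hpar hT)
  refine ⟨W.pull (pairq X) α, W.pull_mem_algSpan _ hα, fun v w => ?_⟩
  have h1 : ∀ i j : Fin 2, fB hpar 2 (W.pull (pairq X) α)
      (W.pureT ![parPr W X i v, parPr W X j w]) = W.tr X (T (parPr W X i v) * parPr W X j w) := by
    intro i j
    have h2 := hα' (parPr W X i v) (parPr W X j w)
    rw [tr_eq_fB hpar α (par_parPr W i v) (par_parPr W j w), LinearMap.comp_apply,
      par_parPr, map_smul, smul_mul_assoc, map_smul, smul_eq_mul] at h2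
    have hTp : W.par X (T (parPr W X i v)) = ((-1 : K) ^ ((i : Fin 2) : ℕ)) • T (parPr W X i v) := by
      rw [← W.par_algHom hT, par_parPr, map_smul]
    by_cases hij : i = j
    · subst hij
      have h3 : ((-1 : K) ^ (((i : Fin 2) : ℕ) * ((i : Fin 2) : ℕ))) =
          (-1 : K) ^ ((i : Fin 2) : ℕ) := by
        fin_cases i <;> simp
      rw [h3] at h2
      exact (mul_left_cancel₀ (pow_ne_zero _ (neg_ne_zero.2 one_ne_zero)) h2).symm
    · have h0 : W.tr X (T (parPr W X i v) * parPr W X j w) = 0 := by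
        refine tr_mul_parity hTp (par_parPr W j w) ?_
        have h3 : (-1 : K) ≠ 1 := by
          intro h
          have h4 : (2 : K) = 0 := by
            have : (1 : K) + 1 = 1 + (-1) := by rw [h]
            rw [one_add_one_eq_two] at this
            rw [this]; ring
          exact two_ne_zero h4
        fin_cases i <;> fin_cases j <;> simp_all
      rw [h0, mul_zero] at h2
      rw [h0]
      rcases mul_eq_zero.1 h2.symm with h | h
      · exact absurd h (pow_ne_zero _ (neg_ne_zero.2 one_ne_zero))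
      · exact h
  have hv : v = ∑ i, parPr W X i v := (parPr_add W v).symm
  have hw : w = ∑ i, parPr W X i w := (parPr_add W w).symm
  have h2 : W.pureT ![v, w] = ∑ i, ∑ j, W.pureT ![parPr W X i v, parPr W X j w] := by
    rw [pureT_two]
    simp only [pureT_two]
    have e1 : (![v, w] : Fin 2 → W.H X) 0 = v := rfl
    have e2 : (![v, w] : Fin 2 → W.H X) 1 = w := rfl
    rw [e1, e2]
    conv_lhs => rw [hv, hw, map_sum, map_sum, Finset.sum_mul_sum]
    rfl
  have h3 : W.tr X (T v * w) = ∑ i, ∑ j, W.tr X (T (parPr W X i v) * parPr W X j w) := by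
    conv_lhs => rw [hv, hw, map_sum, Finset.sum_mul_sum, map_sum]
    refine Finset.sum_congr rfl fun i _ => ?_
    rw [map_sum]
  rw [h2, h3, ← fBL_apply, map_sum]
  refine Finset.sum_congr rfl fun i _ => ?_
  rw [map_sum]
  refine Finset.sum_congr rfl fun j _ => ?_
  rw [fBL_apply, h1]

/-- the class of the small diagonal in `X^3` -/
theorem exists_diag3 (X : 𝒱.Obj) : ∃ Y ∈ W.algSpan (X.pow 3), ∀ x y z : W.H X,
    W.tr (X.pow 3) (Y * W.pureT ![x, y, z]) = W.tr X (x * y * z) := by
  obtain ⟨Y, hY, h⟩ := W.push_algSpan (Obj.liftP 3 fun _ => 𝟙 X) (W.one_mem_algSpan X)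
  refine ⟨Y, hY, fun x y z => ?_⟩
  rw [h, one_mul, W.pull_pureT]
  have h1 : (List.ofFn fun s : Fin 3 => W.pull ((Obj.liftP 3 fun _ => 𝟙 X) ≫ Obj.proj X 3 s)
      ((![x, y, z] : Fin 3 → W.H X) s)) = [x, y, z] := by
    simp only [Obj.liftP_proj, W.pull_id]
    simp [List.ofFn_succ]
  rw [h1]
  simp [mul_assoc]

end H13F
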