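import Pool.Agent.WeilH_h6.Parts
import Pool.Agent.WeilH_h6.Sel
import Pool.Agent.WeilH_h6.Box
import Pool.Agent.WeilH_h6.LamB

set_option autoImplicit false

/-!
# Unsigned permutations of the factors of `X^m`, if the parity operator is algebraic
-/

noncomputable section

namespace H13F

open AlgebraicGeometry CategoryTheory MonoidalCategory
open scoped TensorProduct DirectSum
open Pool.Agent.WeilH_h6 Pool.Agent.WeilH_h6.VarClass Pool.Agent.WeilH_h6.Weil

universe u v w

variable {k : Type u} [Field k] {𝒱 : VarClass k} {K : Type v} [Field K] (W : Weil.{u, v, w} 𝒱 K)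

/-- the projectors onto the even and the odd part -/
def parPr (X : 𝒱.Obj) (i : Fin 2) : Module.End K (W.H X) :=
  (2 : K)⁻¹ • (LinearMap.id + ((-1 : K) ^ (i : ℕ)) • W.par X)

theorem parPr_add [CharZero K] {X : 𝒱.Obj} (v : W.H X) : ∑ i, parPr W X i v = v := by
  rw [Fin.sum_univ_two]
  unfold parPr
  simp only [LinearMap.smul_apply, LinearMap.add_apply, LinearMap.id_apply, Fin.val_zero,
    Fin.val_one, pow_zero, pow_one, one_smul, neg_smul, smul_add, smul_neg]
  have h2 : (2 : K) ≠ 0 := two_ne_zero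
  have h3 : (2 : K)⁻¹ • v + (2 : K)⁻¹ • v = v := by
    rw [← add_smul, ← two_mul, mul_inv_cancel₀ h2, one_smul]
  calc (2 : K)⁻¹ • v + (2 : K)⁻¹ • W.par X v + ((2 : K)⁻¹ • v + -((2 : K)⁻¹ • W.par X v))
      = (2 : K)⁻¹ • v + (2 : K)⁻¹ • v := by abel
    _ = v := h3

theorem par_parPr [CharZero K] {X : 𝒱.Obj} (i : Fin 2) (v : W.H X) :
    W.par X (parPr W X i v) = ((-1 : K) ^ (i : ℕ)) • parPr W X i v := by
  unfold parPr
  simp only [LinearMap.smul_apply, LinearMap.add_apply, LinearMap.id_apply, map_smul, map_add,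
    W.par_par]
  rw [smul_comm]
  congr 1
  rw [smul_add, smul_smul, ← pow_add, Even.neg_one_pow ⟨(i : ℕ), rfl⟩, one_smul, add_comm]

theorem parPr_mem [CharZero K] {X : 𝒱.Obj} (hpar : W.par X ∈ W.algHom X X) (i : Fin 2) :
    parPr W X i ∈ W.algHom X X :=
  Submodule.smul_mem _ _ (Submodule.add_mem _ (W.id_mem_algHom X) (Submodule.smul_mem _ _ hpar))

/-- a linear map which is `pureT v ↦ pureT (v ∘ e.symm)` (no sign) and preserves the algebraic and the
numerically trivial classes -/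
theorem exists_uperm [CharZero K] {X : 𝒱.Obj} (hpar : W.par X ∈ W.algHom X X) {m M : ℕ}
    (e : Fin m ≃ Fin M) :
    ∃ U : W.H (X.pow m) →ₗ[K] W.H (X.pow M), (∀ v, U (W.pureT v) = W.pureT fun t => v (e.symm t)) ∧
      (∀ a ∈ W.algSpan (X.pow m), U a ∈ W.algSpan (X.pow M)) ∧ ∀ a, W.NT a → W.NT (U a) := by
  classical
  choose ε hε hU using fun π : Fin m → Fin 2 =>
    W.pull_sel_pureT (X := X) e (fun s => ((π s : Fin 2) : ℕ))
  have hεsq : ∀ π, ε π * ε π = 1 := by
    intro π
    rcases hε π with h | h <;> rw [h] <;> ring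
  let E : (Fin m → Fin 2) → (W.H (X.pow m) →ₗ[K] W.H (X.pow M)) := fun π =>
    ε π • ((W.pull (Obj.sel X e)).toLinearMap ∘ₗ W.powMap m fun s => parPr W X (π s))
  have hE1 : ∀ π v, E π (W.pureT v) = W.pureT fun t => parPr W X (π (e.symm t)) (v (e.symm t)) := by
    intro π v
    change ε π • W.pull (Obj.sel X e) (W.powMap m (fun s => parPr W X (π s)) (W.pureT v)) = _
    rw [W.powMap_pureT, hU π _ (fun s => par_parPr W (π s) (v s)), smul_smul, hεsq, one_smul]
  have hE2 : ∀ π, E π ∈ W.algHom (X.pow m) (X.pow M) := by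
    intro π
    refine Submodule.smul_mem _ _ (W.comp_mem_algHom (W.powMap_mem_algHom fun s => ?_)
      (W.pull_mem_algHom _))
    exact parPr_mem W hpar (π s)
  have hmem : (∑ π, E π) ∈ W.algHom (X.pow m) (X.pow M) := Submodule.sum_mem _ fun π _ => hE2 π
  refine ⟨∑ π, E π, fun v => ?_, fun a ha => W.algHom_apply_mem hmem ha, fun a ha =>
    ha.algHom W hmem⟩
  rw [LinearMap.sum_apply]
  simp only [hE1]
  -- multilinear expansion
  have h1 : (fun t => v (e.symm t)) = fun t => ∑ i : Fin 2, parPr W X i (v (e.symm t)) := by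
    funext t
    rw [parPr_add]
  rw [← pureM_apply, h1, MultilinearMap.map_sum]
  refine Fintype.sum_equiv (Equiv.arrowCongr e (Equiv.refl (Fin 2))) _ _ fun π => ?_
  rw [pureM_apply]
  rfl

end H13F
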