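import Pool.Agent.W_f569db_h13.WBDefs

set_option autoImplicit false

/-!
# Properties of weighted bases
-/

noncomputable section

namespace H13F

open Pool.Agent.WeilH_h6 Pool.Agent.WeilH_h6.VarClass

universe u v w

variable {k : Type u} [Field k] {𝒱 : VarClass k} {K : Type v} [Field K]

/-- The parity operator of `H(X)` (multiplication by `(-1)^i` on `H^i(X)`) is algebraic. -/
def AlgParity (W : Weil.{u, v, w} 𝒱 K) (X : 𝒱.Obj) : Prop :=
  ∃ φ : W.Hom X X, W.IsAlgEnd X φ ∧ ∀ (i : ℕ), ∀ x ∈ W.grad X i, W.ap φ x = ((-1 : K) ^ i) • x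

namespace WBasis

variable {W : Weil.{u, v, w} 𝒱 K} {X : 𝒱.Obj} (B : WBasis W X)

/-- All algebraic classes on the powers `X^m`, `m ≤ n`, have weight `≥ 0`. -/
def AlgGe (n : ℕ) : Prop := ∀ m ≤ n, ∀ a ∈ W.algSpan (X.pow m), B.Ge a

/-- Some nonzero algebraic class on a power `X^m`, `m ≤ n`, has weight `> 0`. -/
def SomeGt (n : ℕ) : Prop := ∃ m ≤ n, ∃ a ∈ W.algSpan (X.pow m), a ≠ 0 ∧ B.Gt a

/-- All numerically trivial classes in the span of the algebraic classes on the powers `X^m`, `m ≤ n`,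
have weight `> 0`. -/
def NumGt (n : ℕ) : Prop :=
  ∀ m ≤ n, ∀ a ∈ W.algSpan (X.pow m), (∀ b ∈ W.algSpan (X.pow m), W.tr _ (a * b) = 0) → B.Gt a

/-- `F^{> 0}` is not zero. -/
def Nontriv : Prop := ∃ t > 0, B.F t ≠ ⊥

/-- The filtration is multiplicative: `F^s · F^t ⊆ F^(s+t)`. -/
def Mult : Prop := ∀ s t : ℝ, ∀ x ∈ B.F s, ∀ y ∈ B.F t, x * y ∈ B.F (s + t)

/-- The filtration is stable under all algebraic endomorphisms of `H(X)`. -/
def AlgStable : Prop := ∀ φ, W.IsAlgEnd X φ → ∀ t : ℝ, ∀ x ∈ B.F t, φ x ∈ B.F t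

/-- The filtration is stable under all symmetries of `H(X)`. -/
def SymStable : Prop := ∀ (S : Symm W X) (t : ℝ), ∀ x ∈ B.F t, S.g x ∈ B.F t

end WBasis

end H13F
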