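import Pool.Agent.W_f569db_h13.Conv
import Pool.Agent.W_f569db_h13.Canon
import Pool.Agent.W_f569db_h13.CritDefs

set_option autoImplicit false

/-!
# The criterion
-/

noncomputable section

namespace H13F

open AlgebraicGeometry CategoryTheory MonoidalCategory
open scoped TensorProduct DirectSum
open Pool.Agent.WeilH_h6 Pool.Agent.WeilH_h6.VarClass Pool.Agent.WeilH_h6.Weil

universe u v w

variable {k : Type u} [Field k] {𝒱 : VarClass k} {K : Type v} [Field K] {W : Weil.{u, v, w} 𝒱 K}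

theorem exists_nt_of_not_homEqNum {X : 𝒱.Obj} (h : ¬ W.HomEqNum X) : ∃ a, W.NT a ∧ a ≠ (0 : W.H X) := by
  by_contra hcon
  push Not at hcon
  exact h (W.homEqNum_of_nondeg fun a ha hb => hcon a ⟨ha, hb⟩)

theorem isAlgEnd_par {X : 𝒱.Obj} (h : AlgParity W X) : W.IsAlgEnd X (W.par X) := by
  obtain ⟨φ, hφ, hφ'⟩ := h
  have h1 : φ = W.par X := by
    refine LinearMap.ext fun x => ?_
    refine W.hom_induction (P := fun x => φ x = W.par X x) (by simp) ?_ ?_ x
    · intro x y hx hy; rw [map_add, map_add, hx, hy]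
    · intro i x hx
      rw [W.par_apply hx]; exact hφ' i x hx
  rw [← h1]; exact hφ

namespace NWB

variable [CharZero K] {X : 𝒱.Obj} {hpar : W.par X ∈ W.algHom X X} {n r : ℕ}
  (B : NWB (W := W) (X := X) hpar n (Fin r))

/-- the basis -/
def basis : Module.Basis (Fin r) K (W.H X) :=
  Module.Basis.mk (v := B.v) (by
    rw [Fintype.linearIndependent_iff]
    intro g hg i
    have h1 : W.tr X ((∑ j, g j • B.v j) * B.v' i) = g i := by
      rw [Finset.sum_mul, map_sum, Finset.sum_eq_single i]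
      · rw [smul_mul_assoc, map_smul, B.one, smul_eq_mul, mul_one]
      · intro j _ hj
        rw [smul_mul_assoc, map_smul, B.dual j i hj, smul_zero]
      · intro h; exact absurd (Finset.mem_univ _) h
    rw [← h1, hg, zero_mul, map_zero]) (by
    intro x _
    rw [B.exp x]
    exact Submodule.sum_mem _ fun i _ => Submodule.smul_mem _ _ (Submodule.subset_span ⟨i, rfl⟩))

@[simp] theorem basis_apply (i : Fin r) : B.basis i = B.v i := by
  unfold basis
  rw [Module.Basis.mk_apply]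

theorem basis_repr (x : W.H X) (i : Fin r) : B.basis.repr x i = W.tr X (x * B.v' i) := by
  have h1 := B.basis.sum_repr x
  conv_rhs => rw [← h1, Finset.sum_mul, map_sum]
  rw [Finset.sum_eq_single i]
  · rw [smul_mul_assoc, map_smul, basis_apply, B.one, smul_eq_mul, mul_one]
  · intro j _ hj
    rw [smul_mul_assoc, map_smul, basis_apply, B.dual j i hj, smul_zero]
  · intro h; exact absurd (Finset.mem_univ _) h

/-- the weighted basis -/
def wb : WBasis W X := ⟨r, B.basis, B.ξ⟩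

theorem wb_F (t : ℝ) : B.wb.F t = B.Fil t := by
  ext x
  rw [WBasis.mem_F, mem_Fil]
  constructor
  · intro h i hi
    by_contra h0
    have h1 := h i (by
      change B.basis.repr x i ≠ 0
      rw [basis_repr]; exact h0)
    change t ≤ B.ξ i at h1
    linarith
  · intro h i hi
    by_contra h1
    apply hi
    change B.basis.repr x i = 0
    rw [basis_repr]
    exact h i (not_le.1 h1)

end NWB

/-- The criterion. -/
theorem criterion [CharZero K] (X : 𝒱.Obj) (hpar : W.IsAlgEnd X (W.par X)) (n : ℕ) (hn : 3 ≤ n) :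
    List.TFAE [
      ∃ m ≤ n, ¬ W.HomEqNum (X.pow m),
      ∃ B : WBasis W X, B.SelfDual ∧ (∀ m ≤ n, ∀ a ∈ W.algSpan (X.pow m), B.Ge a) ∧
        ∃ m ≤ n, ∃ a ∈ W.algSpan (X.pow m), a ≠ 0 ∧ B.Gt a,
      ∃ B : WBasis W X, B.SelfDual ∧ (∀ m ≤ n, ∀ a ∈ W.algSpan (X.pow m), B.Ge a) ∧
        (∃ m ≤ n, ∃ a ∈ W.algSpan (X.pow m), a ≠ 0 ∧ B.Gt a) ∧
        (∀ m ≤ n, ∀ a ∈ W.algSpan (X.pow m), (∀ b ∈ W.algSpan (X.pow m), W.tr _ (a * b) = 0) →
          B.Gt a) ∧
        (∃ t > 0, B.F t ≠ ⊥) ∧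
        (∀ s t : ℝ, ∀ x ∈ B.F s, ∀ y ∈ B.F t, x * y ∈ B.F (s + t)) ∧
        W.algSpan X ≤ B.F 0 ∧
        (∀ φ, W.IsAlgEnd X φ → ∀ t : ℝ, ∀ x ∈ B.F t, φ x ∈ B.F t) ∧
        ∀ (S : Symm W X) (t : ℝ), ∀ x ∈ B.F t, S.g x ∈ B.F t] := by
  have hpar' := W.isAlgEnd_iff.1 hpar
  tfae_have 1 → 3 := by
    rintro ⟨m₀, hm₀, hD⟩
    obtain ⟨a₀, hnt, ha₀⟩ := exists_nt_of_not_homEqNum hD
    obtain ⟨r, B, hB⟩ := exists_nwb (W := W) (X := X) hpar' (n := n) (by omega)
    have hgt : ∀ m ≤ n, ∀ a : W.H (X.pow m), W.NT a → B.wb.Gt a := by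
      intro m hm a ha t x hx ht
      refine B.tr_eq_zero (by omega) hm ha.1 (t := t) (fun s => ?_) (Or.inr ⟨ha, by linarith⟩)
      rw [← B.wb_F]; exact hx s
    refine ⟨B.wb, ?_, ?_, ⟨m₀, hm₀, a₀, hnt.1, ha₀, hgt m₀ hm₀ a₀ hnt⟩, ?_, ?_, ?_, ?_, ?_, ?_⟩
    · intro t x
      simp only [B.wb_F]
      exact B.orth (by omega) t x
    · intro m hm a ha t x hx ht
      refine B.tr_eq_zero (by omega) hm ha (t := t) (fun s => ?_) (Or.inl ht)
      rw [← B.wb_F]; exact hx s
    · intro m hm a ha hb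
      exact hgt m hm a ⟨ha, hb⟩
    · by_contra hcon
      push Not at hcon
      -- `F^{>0} = 0` implies `F^0 = H(X)`
      have h1 : ∀ x : W.H X, x ∈ B.Fil 0 := by
        intro x i hi
        have h2 : B.v' i ∈ B.Fil (-B.ξ i) := B.v'_mem (by omega) i
        rw [← B.wb_F, hcon (-B.ξ i) (by linarith), Submodule.mem_bot] at h2
        rw [h2, mul_zero, map_zero]
      apply ha₀
      refine W.ext_tr fun w => ?_
      rw [zero_mul, map_zero]
      refine W.pure_induction (P := fun w => W.tr _ (a₀ * w) = 0) ?_ ?_ ?_ w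
      · intro a b ha hb; rw [mul_add, map_add, ha, hb, add_zero]
      · intro c a ha; rw [mul_smul_comm, map_smul, ha, smul_zero]
      · intro v
        refine B.tr_eq_zero (by omega) hm₀ hnt.1 (t := fun _ => 0) (fun s => h1 _)
          (Or.inr ⟨hnt, ?_⟩)
        rw [Finset.sum_const_zero]; norm_num
    · intro s t x hx y hy
      rw [B.wb_F] at hx hy ⊢
      exact B.mul_mem hn hx hy
    · intro a ha
      rw [B.wb_F]
      exact B.alg_mem (by omega) ha
    · intro φ hφ t x hx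
      rw [B.wb_F] at hx ⊢
      exact B.T_mem (by omega) (W.isAlgEnd_iff.1 hφ) hx
    · intro S t x hx
      rw [B.wb_F] at hx ⊢
      exact hB S t x hx
  tfae_have 3 → 2 := by
    rintro ⟨B, h1, h2, h3, -⟩
    exact ⟨B, h1, h2, h3⟩
  tfae_have 2 → 1 := by
    rintro ⟨B, hs, hge, m, hm, a, ha, ha0, hgt⟩
    refine ⟨m, hm, fun hD => ha0 ?_⟩
    exact W.nt_eq_zero_of_homEqNum hD
      (B.nt_of_gt hpar' hs (hge 2 (by omega)) (hge m hm) ha hgt)
  tfae_finish

end H13F
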