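import Pool.Agent.W_f569db_h69.Bruhat

/-!
# Galois descent of a weighted flag
-/

set_option linter.unusedSectionVars false

namespace H13F

open H69 Matrix Finset

variable {α : Type*} [Fintype α] [DecidableEq α]

/-- A subspace of `L^α` which is stable under a set of automorphisms of `L` with fixed
field `K` is spanned by vectors over `K`.

Proof.  Choose a set `J` of coordinates, minimal (for the cardinality) with the property that `u ∈ U`,
`u j = 0` for all `j ∈ J` implies `u = 0` (`J = univ` has the property).  By minimality for `j ∈ J` there is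
`u ∈ U`, `u ≠ 0` and `u = 0` on `J \ {j}`, so `u j ≠ 0`; divide by `u j`: there is `e_j ∈ U` with `e_j j = 1`,
`e_j = 0` on the rest of `J`. For an automorphism `τ` of the set, `τ ∘ e_j - e_j ∈ U` vanishes on `J`, so
`τ ∘ e_j = e_j`, so `e_j` has its entries in `K`. And `u - ∑_{j ∈ J} u j • e_j` vanishes on `J`, so is `0`. -/
theorem descent_subspace {K L : Type*} [Field K] [Field L] [Algebra K L] (T : Set (L ≃+* L))
    (hT : ∀ y : L, (∀ τ ∈ T, τ y = y) → y ∈ Set.range (algebraMap K L))
    (U : Submodule L (α → L)) (hU : ∀ τ ∈ T, ∀ u ∈ U, (fun i => τ (u i)) ∈ U) :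
    U ≤ Submodule.span L {u | u ∈ U ∧ ∃ u₀ : α → K, u = fun i => algebraMap K L (u₀ i)} := by
  classical
  let P : Finset α → Prop := fun J => ∀ u ∈ U, (∀ j ∈ J, u j = 0) → u = 0
  obtain ⟨J, hJ, hmin⟩ := Finset.exists_min_image (Finset.univ.filter P) Finset.card
    ⟨Finset.univ, Finset.mem_filter.2 ⟨Finset.mem_univ _, fun u _ h => by
      funext i; exact h i (Finset.mem_univ i)⟩⟩
  have hJP : P J := (Finset.mem_filter.1 hJ).2
  have hex : ∀ j ∈ J, ∃ e ∈ U, e j = 1 ∧ ∀ i ∈ J, i ≠ j → e i = 0 := by
    intro j hj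
    have h1 : ¬ P (J.erase j) := by
      intro h2
      have h3 := hmin _ (Finset.mem_filter.2 ⟨Finset.mem_univ _, h2⟩)
      have h4 := Finset.card_erase_lt_of_mem hj
      omega
    have h1' : ∃ u ∈ U, (∀ i ∈ J.erase j, u i = 0) ∧ u ≠ 0 := by
      by_contra hcon
      apply h1
      intro u hu h2
      by_contra h3
      exact hcon ⟨u, hu, h2, h3⟩
    obtain ⟨u, hu, hu2, hu3⟩ := h1'
    have huj : u j ≠ 0 := by
      intro h0
      apply hu3
      refine hJP u hu fun i hi => ?_
      by_cases hij : i = j
      · rw [hij]; exact h0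
      · exact hu2 i (Finset.mem_erase.2 ⟨hij, hi⟩)
    refine ⟨(u j)⁻¹ • u, U.smul_mem _ hu, ?_, ?_⟩
    · rw [Pi.smul_apply, smul_eq_mul, inv_mul_cancel₀ huj]
    · intro i hi hij
      rw [Pi.smul_apply, hu2 i (Finset.mem_erase.2 ⟨hij, hi⟩), smul_zero]
  choose! e heU he1 he0 using hex
  have hrat : ∀ j ∈ J, ∃ u₀ : α → K, e j = fun i => algebraMap K L (u₀ i) := by
    intro j hj
    have h1 : ∀ i, e j i ∈ Set.range (algebraMap K L) := by
      intro i
      refine hT _ fun τ hτ => ?_
      have h2 : (fun i => τ (e j i)) - e j = 0 := by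
        refine hJP _ (U.sub_mem (hU τ hτ _ (heU j hj)) (heU j hj)) fun i hi => ?_
        rw [Pi.sub_apply]
        by_cases hij : i = j
        · rw [hij, he1 j hj, map_one, sub_self]
        · rw [he0 j hj i hi hij, map_zero, sub_self]
      have h3 := congrFun h2 i
      rw [Pi.sub_apply, Pi.zero_apply] at h3
      exact sub_eq_zero.1 h3
    choose u₀ hu₀ using h1
    exact ⟨u₀, funext fun i => (hu₀ i).symm⟩
  intro u hu
  have h1 : u - ∑ j ∈ J, u j • e j = 0 := by
    refine hJP _ (U.sub_mem hu (U.sum_mem fun j hj => U.smul_mem _ (heU j hj))) fun i hi => ?_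
    rw [Pi.sub_apply, Finset.sum_apply, Finset.sum_eq_single i]
    · rw [Pi.smul_apply, he1 i hi, smul_eq_mul, mul_one, sub_self]
    · intro j hj hji
      rw [Pi.smul_apply, he0 j hj i hi (Ne.symm hji), smul_zero]
    · intro h; exact absurd hi h
  rw [sub_eq_zero.1 h1]
  exact Submodule.sum_mem _ fun j hj => Submodule.smul_mem _ _
    (Submodule.subset_span ⟨heU j hj, hrat j hj⟩)

/-- A finite-dimensional space with a function `η` to `ℝ` with finitely many values such that all
`{v | v = 0 ∨ t ≤ η v}` are subspaces has a basis `h` with `t ≤ η v` iff `v` is in the span of the basis vectors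
with `t ≤ η`.

Proof.  Among all invertible matrices `h` choose one with the maximal value of `∑ j, η (h e_j)` (it takes
only finitely many values).  If `v ≠ 0`, `t ≤ η v`, `v = ∑ c_j h e_j` with `c_j ≠ 0` and `η (h e_j) < t`, then
replace the `j`-th column of `h` by `v`: this matrix is invertible and the sum is larger. -/
theorem adapted_basis {K : Type*} [Field K] (η : (α → K) → ℝ) (hfin : (Set.range η).Finite) :
    ∃ h : (Matrix α α K)ˣ, ∀ (t : ℝ) (v : α → K), v ≠ 0 → t ≤ η v →
      ∀ j, ((h⁻¹ : (Matrix α α K)ˣ) : Matrix α α K).mulVec v j ≠ 0 →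
        t ≤ η (fun i => (h : Matrix α α K) i j) := by
  classical
  let f : (Matrix α α K)ˣ → (α → ℝ) := fun h j => η (fun i => (h : Matrix α α K) i j)
  have hf : (Set.range f).Finite := by
    refine Set.Finite.subset (Set.Finite.pi' fun _ : α => hfin) ?_
    rintro _ ⟨h, rfl⟩ j
    exact ⟨_, rfl⟩
  obtain ⟨_, ⟨h, rfl⟩, hmax⟩ := Set.exists_max_image (Set.range f) (fun c => ∑ j, c j) hf
    ⟨f 1, ⟨1, rfl⟩⟩
  refine ⟨h, fun t v hv ht j hj => ?_⟩
  by_contra hlt
  have hlt' : η (fun i => (h : Matrix α α K) i j) < t := not_le.1 hlt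
  have hdet : (h : Matrix α α K).det ≠ 0 := by
    intro h0
    have h1 : (h : Matrix α α K).det * ((h⁻¹ : (Matrix α α K)ˣ) : Matrix α α K).det = 1 := by
      rw [← Matrix.det_mul, Units.mul_inv, Matrix.det_one]
    rw [h0, zero_mul] at h1
    exact zero_ne_one h1
  have hdet' : ((h : Matrix α α K).updateCol j v).det ≠ 0 := by
    rw [← Matrix.cramer_apply, Matrix.cramer_eq_adjugate_mulVec]
    have h1 : (h : Matrix α α K).adjugate =
        (h : Matrix α α K).det • ((h⁻¹ : (Matrix α α K)ˣ) : Matrix α α K) := by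
      have h2 := Matrix.adjugate_mul (h : Matrix α α K)
      calc (h : Matrix α α K).adjugate = (h : Matrix α α K).adjugate *
            ((h : Matrix α α K) * ((h⁻¹ : (Matrix α α K)ˣ) : Matrix α α K)) := by
            rw [Units.mul_inv, Matrix.mul_one]
        _ = _ := by rw [← Matrix.mul_assoc, h2, Matrix.smul_mul, Matrix.one_mul]
    rw [h1, Matrix.smul_mulVec, Pi.smul_apply, smul_eq_mul]
    exact mul_ne_zero hdet hj
  let h' : (Matrix α α K)ˣ := Matrix.nonsingInvUnit _ (isUnit_iff_ne_zero.2 hdet')
  have h1 := hmax (f h') ⟨h', rfl⟩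
  have h2 : ∑ i, f h i < ∑ i, f h' i := by
    refine Finset.sum_lt_sum (fun i _ => ?_) ⟨j, Finset.mem_univ _, ?_⟩
    · by_cases hij : i = j
      · have h3 : f h' i = η v := by
          change η (fun q => ((h : Matrix α α K).updateCol j v) q i) = η v
          congr 1
          funext q
          rw [hij, Matrix.updateCol_self]
        rw [h3, hij]
        exact (hlt'.le).trans ht
      · have h3 : f h' i = f h i := by
          change η (fun q => ((h : Matrix α α K).updateCol j v) q i) = _
          congr 1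
          funext q
          rw [Matrix.updateCol_ne hij]
        rw [h3]
    · have h3 : f h' j = η v := by
        change η (fun q => ((h : Matrix α α K).updateCol j v) q j) = η v
        congr 1
        funext q
        rw [Matrix.updateCol_self]
      rw [h3]
      exact lt_of_lt_of_le hlt' ht
  linarith

/-- Galois descent of a weighted flag.

Proof.  For `v : α → K`, `v ≠ 0` let `η v` be the minimum of the `ξ r` with `(g⁻¹ v)_r ≠ 0` (`η 0 = 0`).
`adapted_basis` gives `h`; `η j := η (h e_j)`. `Le (g⁻¹ h) ξ η` holds by definition.  For the other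
direction, `U = {u : α → L | (g⁻¹ u)_r ≠ 0 → ξ r₀ ≤ ξ r}` is stable under the automorphisms by `hg`, so by
`descent_subspace` the vector `g e_{r₀} ∈ U` is a combination of vectors `u` over `K` in `U`, which are `0` or
have `ξ r₀ ≤ η u`, so (adapted) `(h⁻¹ u)_j ≠ 0` implies `ξ r₀ ≤ η j`. -/
theorem descent_flag {K L : Type*} [Field K] [Field L] [Algebra K L] (T : Set (L ≃+* L))
    (hTK : ∀ τ ∈ T, ∀ y : K, τ (algebraMap K L y) = algebraMap K L y)
    (hT : ∀ y : L, (∀ τ ∈ T, τ y = y) → y ∈ Set.range (algebraMap K L))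
    (g : (Matrix α α L)ˣ) (ξ : α → ℝ)
    (hg : ∀ τ ∈ T, Same g ξ (Units.map (RingHom.mapMatrix (τ : L →+* L)).toMonoidHom g) ξ) :
    ∃ (h : (Matrix α α K)ˣ) (η : α → ℝ),
      Same (Units.map (RingHom.mapMatrix (algebraMap K L)).toMonoidHom h) η g ξ := by
  classical
  let gi : Matrix α α L := ((g⁻¹ : (Matrix α α L)ˣ) : Matrix α α L)
  let c : (α → K) → (α → L) := fun v => gi.mulVec fun i => algebraMap K L (v i)
  have hc0 : ∀ v, v ≠ 0 → ∃ r, c v r ≠ 0 := by
    intro v hv
    by_contra hcon
    push Not at hcon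
    have h1 : c v = 0 := funext hcon
    have h2 : (g : Matrix α α L).mulVec (c v) = fun i => algebraMap K L (v i) := by
      change (g : Matrix α α L).mulVec (gi.mulVec fun i => algebraMap K L (v i)) = _
      rw [Matrix.mulVec_mulVec, Units.mul_inv, Matrix.one_mulVec]
    rw [h1, Matrix.mulVec_zero] at h2
    apply hv
    funext i
    have h3 := congrFun h2 i
    rw [Pi.zero_apply] at h3
    exact (map_eq_zero _).1 h3.symm
  let η : (α → K) → ℝ := fun v =>
    if hS : (Finset.univ.filter fun r => c v r ≠ 0).Nonempty then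
      (Finset.univ.filter fun r => c v r ≠ 0).inf' hS ξ else 0
  have hη_le : ∀ v r, c v r ≠ 0 → η v ≤ ξ r := by
    intro v r hr
    have hS : (Finset.univ.filter fun r => c v r ≠ 0).Nonempty :=
      ⟨r, Finset.mem_filter.2 ⟨Finset.mem_univ _, hr⟩⟩
    change (if hS : (Finset.univ.filter fun r => c v r ≠ 0).Nonempty then
      (Finset.univ.filter fun r => c v r ≠ 0).inf' hS ξ else 0) ≤ ξ r
    rw [dif_pos hS]
    exact Finset.inf'_le ξ (Finset.mem_filter.2 ⟨Finset.mem_univ r, hr⟩)
  have hle_η : ∀ v t, v ≠ 0 → (∀ r, c v r ≠ 0 → t ≤ ξ r) → t ≤ η v := by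
    intro v t hv ht
    obtain ⟨r, hr⟩ := hc0 v hv
    have hS : (Finset.univ.filter fun r => c v r ≠ 0).Nonempty :=
      ⟨r, Finset.mem_filter.2 ⟨Finset.mem_univ _, hr⟩⟩
    change t ≤ (if hS : (Finset.univ.filter fun r => c v r ≠ 0).Nonempty then
      (Finset.univ.filter fun r => c v r ≠ 0).inf' hS ξ else 0)
    rw [dif_pos hS, Finset.le_inf'_iff]
    intro r hr
    exact ht r (Finset.mem_filter.1 hr).2
  have hfin : (Set.range η).Finite := by
    refine Set.Finite.subset ((Set.finite_range ξ).union (Set.finite_singleton 0)) ?_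
    rintro _ ⟨v, rfl⟩
    by_cases hS : (Finset.univ.filter fun r => c v r ≠ 0).Nonempty
    · left
      have h1 : η v = (Finset.univ.filter fun r => c v r ≠ 0).inf' hS ξ := dif_pos hS
      obtain ⟨r, -, hr⟩ := Finset.exists_mem_eq_inf' hS ξ
      exact ⟨r, by rw [h1, hr]⟩
    · right
      exact dif_neg hS
  obtain ⟨h, hh⟩ := adapted_basis η hfin
  refine ⟨h, fun j => η (fun i => (h : Matrix α α K) i j), ?_, ?_⟩
  · intro q r hqr
    -- the subspace
    let U : Submodule L (α → L) :=
      { carrier := {u | ∀ r', gi.mulVec u r' ≠ 0 → ξ r ≤ ξ r'}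
        add_mem' := by
          intro a b ha hb r' hr'
          rw [Matrix.mulVec_add, Pi.add_apply] at hr'
          by_cases h0 : gi.mulVec a r' = 0
          · rw [h0, zero_add] at hr'
            exact hb r' hr'
          · exact ha r' h0
        zero_mem' := by
          intro r' hr'
          rw [Matrix.mulVec_zero] at hr'
          exact absurd rfl hr'
        smul_mem' := by
          intro y a ha r' hr'
          rw [Matrix.mulVec_smul, Pi.smul_apply, smul_eq_mul] at hr'
          exact ha r' (right_ne_zero_of_mul hr') }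
    have hUT : ∀ τ ∈ T, ∀ u ∈ U, (fun i => τ (u i)) ∈ U := by
      intro τ hτ u hu r' hr'
      have h1 : gi.mulVec (fun i => τ (u i)) =
          ((g⁻¹ * Units.map (RingHom.mapMatrix (τ : L →+* L)).toMonoidHom g :
            (Matrix α α L)ˣ) : Matrix α α L).mulVec fun i => τ (gi.mulVec u i) := by
        rw [Units.val_mul, ← Matrix.mulVec_mulVec]
        congr 1
        have h2 : (g : Matrix α α L).mulVec (gi.mulVec u) = u := by
          rw [Matrix.mulVec_mulVec, Units.mul_inv, Matrix.one_mulVec]
        funext i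
        have h3 := congrFun h2 i
        conv_lhs => rw [← h3]
        rw [Matrix.mulVec, dotProduct, map_sum, Matrix.mulVec, dotProduct]
        refine Finset.sum_congr rfl fun j _ => ?_
        rw [map_mul]
        rfl
      rw [h1, Matrix.mulVec, dotProduct] at hr'
      obtain ⟨p, -, hp⟩ := Finset.exists_ne_zero_of_sum_ne_zero hr'
      have h2 : ξ p ≤ ξ r' := (hg τ hτ).1 r' p (left_ne_zero_of_mul hp)
      have h3 : gi.mulVec u p ≠ 0 := fun h0 => right_ne_zero_of_mul hp (by rw [h0, map_zero])
      exact (hu p h3).trans h2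
    have hcol : (fun i => (g : Matrix α α L) i r) ∈ U := by
      intro r' hr'
      have h1 : gi.mulVec (fun i => (g : Matrix α α L) i r) r' =
          (gi * (g : Matrix α α L)) r' r := by
        rw [Matrix.mul_apply, Matrix.mulVec, dotProduct]
      rw [h1] at hr'
      change (((g⁻¹ : (Matrix α α L)ˣ) : Matrix α α L) * (g : Matrix α α L)) r' r ≠ 0 at hr'
      rw [Units.inv_mul] at hr'
      by_cases hrr : r' = r
      · rw [hrr]
      · exact absurd (Matrix.one_apply_ne hrr) hr'
    have hspan := descent_subspace T hT U hUT hcol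
    -- the linear condition
    let hi : Matrix α α L := ((Units.map (RingHom.mapMatrix (algebraMap K L)).toMonoidHom h)⁻¹ :
      (Matrix α α L)ˣ)
    have hlin : ∀ u ∈ Submodule.span L {u | u ∈ U ∧ ∃ u₀ : α → K, u = fun i => algebraMap K L (u₀ i)},
        ∀ q, hi.mulVec u q ≠ 0 → ξ r ≤ η (fun i => (h : Matrix α α K) i q) := by
      intro u hu
      induction hu using Submodule.span_induction with
      | mem u hu =>
        obtain ⟨huU, u₀, rfl⟩ := hu
        intro q hq
        have hval : hi.mulVec (fun i => algebraMap K L (u₀ i)) q =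
            algebraMap K L (((h⁻¹ : (Matrix α α K)ˣ) : Matrix α α K).mulVec u₀ q) := by
          change (((Units.map (RingHom.mapMatrix (algebraMap K L)).toMonoidHom h)⁻¹ :
            (Matrix α α L)ˣ) : Matrix α α L).mulVec _ q = _
          rw [← map_inv, Matrix.mulVec, dotProduct, Matrix.mulVec, dotProduct, map_sum]
          refine Finset.sum_congr rfl fun j _ => ?_
          rw [map_mul]
          rfl
        rw [hval] at hq
        have hq' : ((h⁻¹ : (Matrix α α K)ˣ) : Matrix α α K).mulVec u₀ q ≠ 0 :=
          fun h0 => hq (by rw [h0, map_zero])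
        have hu0 : u₀ ≠ 0 := by
          rintro rfl
          rw [Matrix.mulVec_zero] at hq'
          exact hq' rfl
        exact hh (ξ r) u₀ hu0 (hle_η u₀ _ hu0 fun r' hr' => huU r' hr') q hq'
      | zero =>
        intro q hq
        rw [Matrix.mulVec_zero] at hq
        exact absurd rfl hq
      | add a b _ _ ha hb =>
        intro q hq
        rw [Matrix.mulVec_add, Pi.add_apply] at hq
        by_cases h0 : hi.mulVec a q = 0
        · rw [h0, zero_add] at hq
          exact hb q hq
        · exact ha q h0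
      | smul y a _ ha =>
        intro q hq
        rw [Matrix.mulVec_smul, Pi.smul_apply, smul_eq_mul] at hq
        exact ha q (right_ne_zero_of_mul hq)
    refine hlin _ hspan q ?_
    intro h0
    apply hqr
    rw [Units.val_mul, Matrix.mul_apply]
    rw [Matrix.mulVec, dotProduct] at h0
    exact h0
  · intro q r hqr
    refine hη_le _ q ?_
    intro h0
    apply hqr
    rw [Units.val_mul, Matrix.mul_apply]
    change gi.mulVec (fun i => algebraMap K L ((h : Matrix α α K) i r)) q = 0 at h0
    rw [Matrix.mulVec, dotProduct] at h0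
    exact h0

end H13F
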