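import Pool.Agent.W_f569db_h69.Gordan

/-!
# Strict and non-strict inequalities (Motzkin's transposition theorem for ordered groups)
-/

set_option linter.unusedSectionVars false

namespace H13F

open H69

/-- A finite system of strict and non-strict homogeneous integral linear inequalities which is
solvable in an ordered abelian group is solvable in `ℤ`. -/
theorem gordan2 {σ : Type*} [Fintype σ] [DecidableEq σ] {V : Type*} [AddCommGroup V] [LinearOrder V]
    [IsOrderedAddMonoid V] (φ : (σ → ℤ) →+ V) (U W : Finset (σ → ℤ)) (hU : ∀ u ∈ U, 0 < φ u)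
    (hW : ∀ u ∈ W, 0 ≤ φ u) :
    ∃ ψ : (σ → ℤ) →+ ℤ, (∀ u ∈ U, 0 < ψ u) ∧ ∀ u ∈ W, 0 ≤ ψ u := by
  classical
  -- the image is a free group of finite rank
  let φ' : (σ → ℤ) →ₗ[ℤ] V := φ.toIntLinearMap
  let R : Submodule ℤ V := LinearMap.range φ'
  have hfin : Module.Finite ℤ R := inferInstance
  have htf : Module.IsTorsionFree ℤ R := inferInstance
  have hfree : Module.Free ℤ R := Module.free_of_finite_type_torsion_free'
  let b := Module.Free.chooseBasis ℤ R
  let e : R ≃ₗ[ℤ] (Module.Free.ChooseBasisIndex ℤ R → ℤ) := b.equivFun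
  let π : (σ → ℤ) →ₗ[ℤ] (Module.Free.ChooseBasisIndex ℤ R → ℤ) :=
    e.toLinearMap.comp φ'.rangeRestrict
  let φ2 : (Module.Free.ChooseBasisIndex ℤ R → ℤ) →ₗ[ℤ] V :=
    R.subtype.comp e.symm.toLinearMap
  have h1 : ∀ u, φ2 (π u) = φ u := by
    intro u
    simp [φ2, π, φ']
  have h2 : ∀ u, φ u = 0 → π u = 0 := by
    intro u hu
    have h3 : φ'.rangeRestrict u = 0 := Subtype.ext hu
    simp [π, h3]
  obtain ⟨ψ, hψ⟩ := gordan φ2.toAddMonoidHom
    ((U ∪ W.filter (fun u => 0 < φ u)).image fun u => π u) (by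
      intro v hv
      obtain ⟨u, hu, rfl⟩ := Finset.mem_image.1 hv
      change 0 < φ2 (π u)
      rw [h1]
      rcases Finset.mem_union.1 hu with h | h
      · exact hU u h
      · exact (Finset.mem_filter.1 h).2)
  refine ⟨ψ.comp π.toAddMonoidHom, ?_, ?_⟩
  · intro u hu
    exact hψ _ (Finset.mem_image_of_mem _ (Finset.mem_union_left _ hu))
  · intro u hu
    rcases (hW u hu).lt_or_eq with h | h
    · exact (hψ _ (Finset.mem_image_of_mem _ (Finset.mem_union_right _
        (Finset.mem_filter.2 ⟨hu, h⟩)))).le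
    · change 0 ≤ ψ (π u)
      rw [h2 u h.symm, map_zero]

end H13F
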