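import Pool.Agent.W_f569db_h69.InvOrth

/-!
# Orthogonality of the invariants, for a product of different operators
-/

set_option linter.unusedSectionVars false

namespace H13F

open H69 Matrix Finset

variable {α : Type*} [Fintype α] [DecidableEq α]

/-- the trivial colouring -/
def c0 (α : Type*) : α → Unit := fun _ => ()

theorem Bd_c0 {R : Type*} [CommRing R] (A : Matrix α α R) : Bd (c0 α) A := fun _ _ _ => rfl

theorem mem_BG_c0 {R : Type*} [CommRing R] (g : (Matrix α α R)ˣ) : g ∈ BG (c0 α) R :=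
  mem_BG.2 ⟨Bd_c0 _, Bd_c0 _⟩

/-- An invariant `t` of `GL(V)(ℚ)` on `End(V^{⊗ ι})^{⊗ (d+1)}` is orthogonal to
`x_0 ⊗ ⋯ ⊗ x_d` if all traces `Tr(P_σ (x_0 ⊗ ⋯ ⊗ x_d))` vanish. -/
theorem inv_orth2 {ι : Type*} [Fintype ι] [DecidableEq ι]
    {K : Type*} [Field K] [CharZero K] (d : ℕ) (x : Fin (d + 1) → Matrix (ι → α) (ι → α) K)
    (htr : ∀ (σ : Equiv.Perm (Fin (d + 1) × ι)),
      ∑ a : Fin (d + 1) × ι → α, ∏ k, x k (fun s => a (k, s)) (fun s => a (σ (k, s))) = 0)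
    (t : (Fin (d + 1) → (ι → α) × (ι → α)) → ℚ)
    (ht : ∀ g : (Matrix α α ℚ)ˣ, ∀ e' : Fin (d + 1) → (ι → α) × (ι → α),
      ∑ e, t e * ∏ k, (ten ι (g : Matrix α α ℚ) (e k).1 (e' k).1 *
        ten ι ((g⁻¹ : (Matrix α α ℚ)ˣ) : Matrix α α ℚ) (e' k).2 (e k).2) = t e') :
    ∑ e, ((t e : ℚ) : K) * ∏ k, x k (e k).1 (e k).2 = 0 := by
  classical
  set κ := Fin (d + 1) × ι with hκ
  let E := invOrthE α (Fin (d + 1)) ι
  let τ : κ → Unit := fun _ => ()
  let A : Matrix (κ → α) (κ → α) ℚ := Matrix.of fun a b => t (E (a, b))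
  have hAdef : ∀ a b, A a b = t (E (a, b)) := fun a b => rfl
  have hAS : Supp (c0 α) τ A := fun a b _ => ⟨fun _ => rfl, fun _ => rfl⟩
  -- invariance of `A`
  have hinvA : ∀ g : (Matrix α α ℚ)ˣ, ∀ a' b' : κ → α,
      ∑ a, ∑ b, A a b * (ten κ (g : Matrix α α ℚ) a a' *
        ten κ ((g⁻¹ : (Matrix α α ℚ)ˣ) : Matrix α α ℚ) b' b) = A a' b' := by
    intro g a' b'
    rw [hAdef a' b', ← ht g (E (a', b')), ← E.sum_comp, Fintype.sum_prod_type]
    apply Finset.sum_congr rfl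
    intro a _
    apply Finset.sum_congr rfl
    intro b _
    have h1 : ∏ k, (ten ι (g : Matrix α α ℚ) ((E (a, b)) k).1 ((E (a', b')) k).1 *
        ten ι ((g⁻¹ : (Matrix α α ℚ)ˣ) : Matrix α α ℚ) ((E (a', b')) k).2 ((E (a, b)) k).2)
        = ten κ (g : Matrix α α ℚ) a a' *
          ten κ ((g⁻¹ : (Matrix α α ℚ)ˣ) : Matrix α α ℚ) b' b := by
      rw [Finset.prod_mul_distrib, invOrth_ten, invOrth_ten]
      rfl
    rw [h1, hAdef]
  have hcomm : ∀ g ∈ BG (c0 α) ℚ,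
      ten κ (g : Matrix α α ℚ) * A = A * ten κ (g : Matrix α α ℚ) := by
    intro g _
    have h1 : ten κ (g : Matrix α α ℚ) * A *
        ten κ ((g⁻¹ : (Matrix α α ℚ)ˣ) : Matrix α α ℚ) = A := by
      ext a' b'
      rw [← hinvA (invOrthT g) a' b', Matrix.mul_apply]
      simp only [Matrix.mul_apply, Finset.sum_mul]
      rw [Finset.sum_comm]
      apply Finset.sum_congr rfl
      intro a _
      apply Finset.sum_congr rfl
      intro b _
      rw [invOrthT_val, invOrthT_inv, ← ten_transpose, ← ten_transpose, Matrix.transpose_apply,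
        Matrix.transpose_apply]
      ring
    calc ten κ (g : Matrix α α ℚ) * A
        = ten κ (g : Matrix α α ℚ) * A *
          (ten κ ((g⁻¹ : (Matrix α α ℚ)ˣ) : Matrix α α ℚ) * ten κ (g : Matrix α α ℚ)) := by
          rw [ten_inv_mul, mul_one]
      _ = A * ten κ (g : Matrix α α ℚ) := by
          rw [← mul_assoc, h1]
  obtain ⟨q, -, hqA⟩ := schurWeyl (c0 α) τ A hAS hcomm
  -- the value
  rw [← E.sum_comp, Fintype.sum_prod_type]
  have hterm : ∀ a b : κ → α, ((t (E (a, b)) : ℚ) : K) * ∏ k, x k ((E (a, b)) k).1 ((E (a, b)) k).2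
      = ∑ σ : Equiv.Perm κ, (q σ : K) *
        ((if a = b ∘ σ then 1 else 0) * ∏ k, x k ((E (a, b)) k).1 ((E (a, b)) k).2) := by
    intro a b
    have h1 := hqA a b (fun _ => rfl) (fun _ => rfl)
    rw [hAdef] at h1
    rw [h1]
    push_cast
    rw [Finset.sum_mul]
    apply Finset.sum_congr rfl
    intro σ _
    by_cases hab : a = b ∘ σ
    · simp only [if_pos hab, Rat.cast_one]
      ring
    · simp only [if_neg hab, Rat.cast_zero]
      ring
  rw [Finset.sum_congr rfl (fun a _ => Finset.sum_congr rfl (fun b _ => hterm a b))]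
  have hswap : ∑ a : κ → α, ∑ b : κ → α, ∑ σ : Equiv.Perm κ, (q σ : K) *
        ((if a = b ∘ σ then 1 else 0) * ∏ k, x k ((E (a, b)) k).1 ((E (a, b)) k).2)
      = ∑ σ : Equiv.Perm κ, (q σ : K) * ∑ b : κ → α,
          ∏ k, x k ((E (b ∘ σ, b)) k).1 ((E (b ∘ σ, b)) k).2 := by
    have h1 : ∀ a : κ → α, ∑ b : κ → α, ∑ σ : Equiv.Perm κ, (q σ : K) *
        ((if a = b ∘ σ then 1 else 0) * ∏ k, x k ((E (a, b)) k).1 ((E (a, b)) k).2)
        = ∑ σ : Equiv.Perm κ, ∑ b : κ → α, (q σ : K) *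
        ((if a = b ∘ σ then 1 else 0) * ∏ k, x k ((E (a, b)) k).1 ((E (a, b)) k).2) :=
      fun a => Finset.sum_comm
    rw [Finset.sum_congr rfl (fun a _ => h1 a), Finset.sum_comm]
    apply Finset.sum_congr rfl
    intro σ _
    rw [Finset.sum_comm, Finset.mul_sum]
    apply Finset.sum_congr rfl
    intro b _
    rw [Finset.sum_eq_single (b ∘ σ)]
    · rw [if_pos rfl, one_mul]
    · intro a _ ha
      rw [if_neg ha, zero_mul, mul_zero]
    · intro h
      exact absurd (Finset.mem_univ _) h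
  rw [hswap]
  apply Finset.sum_eq_zero
  intro σ _
  have h1 : ∑ b : κ → α, ∏ k, x k ((E (b ∘ σ, b)) k).1 ((E (b ∘ σ, b)) k).2
      = ∑ a : κ → α, ∏ k, x k (fun s => a (k, s)) (fun s => a (σ⁻¹ (k, s))) := by
    rw [← (Equiv.arrowCongr σ (Equiv.refl α)).sum_comp]
    apply Finset.sum_congr rfl
    intro a _
    apply Finset.prod_congr rfl
    intro k _
    congr 1
    funext s
    simp [E, invOrthE, Equiv.arrowCongr]
  rw [h1, htr σ⁻¹, mul_zero]

end H13F
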