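import Pool.Agent.W_f569db_h69.KempfA
import Pool.Agent.W_f569db_h13.InvOrth2

/-!
# The optimal destabilising filtration for two sets of operators
-/

set_option linter.unusedSectionVars false

namespace H13F

open H69 Matrix Finset

variable {α : Type*} [Fintype α] [DecidableEq α] {F : Type*} [Field F]
  {ι : Type*} [Fintype ι] [DecidableEq ι]

/-- The weight of a pair of words. -/
def wt (ξ : α → ℝ) (a b : ι → α) : ℝ := ∑ s, ξ (a s) - ∑ s, ξ (b s)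

/-- In the basis `g` with the weights `ξ`, all nonzero matrix coefficients of the operators in `A` have
weight at least `0` and those of the operators in `N` have weight at least `1`. -/
def PosS (A N : Set (Matrix (ι → α) (ι → α) F)) (g : (Matrix α α F)ˣ) (ξ : α → ℝ) : Prop :=
  (∀ x ∈ A, ∀ a b, cj g⁻¹ x a b ≠ 0 → 0 ≤ wt ξ a b) ∧
    ∀ x ∈ N, ∀ a b, cj g⁻¹ x a b ≠ 0 → 1 ≤ wt ξ a b

/-- general form of the independence of the basis -/
theorem wt_of_same {x : Matrix (ι → α) (ι → α) F} {g g' : (Matrix α α F)ˣ} {ξ ξ' : α → ℝ} {r : ℝ}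
    (h : ∀ a b, cj g⁻¹ x a b ≠ 0 → r ≤ wt ξ a b) (hs : Same g ξ g' ξ') :
    ∀ a b, cj g'⁻¹ x a b ≠ 0 → r ≤ wt ξ' a b := by
  intro a b hab
  have key : cj g'⁻¹ x = ten ι ((g'⁻¹ * g : (Matrix α α F)ˣ) : Matrix α α F) *
      cj g⁻¹ x * ten ι ((g⁻¹ * g' : (Matrix α α F)ˣ) : Matrix α α F) := by
    rw [kempfA_cj_inv, kempfA_cj_inv, Units.val_mul, Units.val_mul, ten_mul, ten_mul]
    have h1 : ten ι (g : Matrix α α F) * ten ι ((g⁻¹ : (Matrix α α F)ˣ) : Matrix α α F) = 1 :=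
      ten_mul_inv g
    calc ten ι ((g'⁻¹ : (Matrix α α F)ˣ) : Matrix α α F) * x * ten ι (g' : Matrix α α F)
        = ten ι ((g'⁻¹ : (Matrix α α F)ˣ) : Matrix α α F) *
            (ten ι (g : Matrix α α F) * ten ι ((g⁻¹ : (Matrix α α F)ˣ) : Matrix α α F)) * x *
            (ten ι (g : Matrix α α F) * ten ι ((g⁻¹ : (Matrix α α F)ˣ) : Matrix α α F)) *
            ten ι (g' : Matrix α α F) := by rw [h1, mul_one, mul_one]
      _ = _ := by simp only [mul_assoc]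
  rw [key, Matrix.mul_apply] at hab
  obtain ⟨b', -, hb'⟩ := Finset.exists_ne_zero_of_sum_ne_zero hab
  have hb1 := left_ne_zero_of_mul hb'
  have hb2 := right_ne_zero_of_mul hb'
  rw [Matrix.mul_apply] at hb1
  obtain ⟨a', -, ha'⟩ := Finset.exists_ne_zero_of_sum_ne_zero hb1
  have ha1 := left_ne_zero_of_mul ha'
  have ha2 := right_ne_zero_of_mul ha'
  have h3 := h a' b' ha2
  have h4 : ∑ s, ξ (a' s) ≤ ∑ s, ξ' (a s) := by
    apply Finset.sum_le_sum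
    intro s _
    apply hs.2
    intro h0
    exact ha1 (Finset.prod_eq_zero (Finset.mem_univ s) h0)
  have h5 : ∑ s, ξ' (b s) ≤ ∑ s, ξ (b' s) := by
    apply Finset.sum_le_sum
    intro s _
    apply hs.1
    intro h0
    exact hb2 (Finset.prod_eq_zero (Finset.mem_univ s) h0)
  unfold wt at h3 ⊢
  linarith

theorem PosS.of_same {A N : Set (Matrix (ι → α) (ι → α) F)} {g g' : (Matrix α α F)ˣ} {ξ ξ' : α → ℝ}
    (h : PosS A N g ξ) (hs : Same g ξ g' ξ') : PosS A N g' ξ' :=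
  ⟨fun x hx => wt_of_same (h.1 x hx) hs, fun x hx => wt_of_same (h.2 x hx) hs⟩

theorem wt_midpoint (ξ ξ' : α → ℝ) (a b : ι → α) :
    wt (fun r => (ξ r + ξ' r) / 2) a b = (wt ξ a b + wt ξ' a b) / 2 := by
  unfold wt
  simp only [← Finset.sum_div, Finset.sum_add_distrib]
  ring

theorem PosS.midpoint {A N : Set (Matrix (ι → α) (ι → α) F)} {g : (Matrix α α F)ˣ} {ξ ξ' : α → ℝ}
    (h : PosS A N g ξ) (h' : PosS A N g ξ') : PosS A N g (fun r => (ξ r + ξ' r) / 2) := by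
  refine ⟨fun x hx a b hab => ?_, fun x hx a b hab => ?_⟩
  · rw [wt_midpoint]
    have h1 := h.1 x hx a b hab
    have h2 := h'.1 x hx a b hab
    linarith
  · rw [wt_midpoint]
    have h1 := h.2 x hx a b hab
    have h2 := h'.2 x hx a b hab
    linarith

/-- `PosS` and the normaliser. -/
theorem PosS.of_conj {A N : Set (Matrix (ι → α) (ι → α) F)} {g γ : (Matrix α α F)ˣ} {ξ : α → ℝ}
    (h : PosS A N g ξ) (hA : ∀ x ∈ A, cj γ⁻¹ x ∈ A) (hN : ∀ x ∈ N, cj γ⁻¹ x ∈ N) :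
    PosS A N (γ * g) ξ := by
  have key : ∀ x : Matrix (ι → α) (ι → α) F, cj (γ * g)⁻¹ x = cj g⁻¹ (cj γ⁻¹ x) := by
    intro x
    rw [kempfA_cj_inv, kempfA_cj_inv, kempfA_cj_inv, _root_.mul_inv_rev, Units.val_mul,
      Units.val_mul, ten_mul, ten_mul]
    simp only [mul_assoc]
  refine ⟨fun x hx a b hab => ?_, fun x hx a b hab => ?_⟩
  · rw [key] at hab
    exact h.1 _ (hA x hx) a b hab
  · rw [key] at hab
    exact h.2 _ (hN x hx) a b hab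

theorem kempf2_closed (s : Set ((ι → α) × (ι → α))) (r : ℝ) :
    IsClosed {ξ : α → ℝ | ∀ p ∈ s, r ≤ wt ξ p.1 p.2} := by
  have : {ξ : α → ℝ | ∀ p ∈ s, r ≤ wt ξ p.1 p.2} =
      ⋂ p ∈ s, {ξ : α → ℝ | r ≤ wt ξ p.1 p.2} := by
    ext ξ
    simp
  rw [this]
  refine isClosed_biInter fun p _ => ?_
  unfold wt
  exact isClosed_le continuous_const (by fun_prop)

/-- There is a weighted basis with `PosS` and minimal norm. -/
theorem exists_minimal2 (A N : Set (Matrix (ι → α) (ι → α) F))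
    (h : ∃ g : (Matrix α α F)ˣ, ∃ ξ : α → ℝ, PosS A N g ξ) :
    ∃ g : (Matrix α α F)ˣ, ∃ ξ : α → ℝ, PosS A N g ξ ∧
      ∀ (g' : (Matrix α α F)ˣ) (ξ' : α → ℝ), PosS A N g' ξ' → ∑ r, ξ r ^ 2 ≤ ∑ r, ξ' r ^ 2 := by
  classical
  let sp : (Matrix α α F)ˣ → Set ((ι → α) × (ι → α)) × Set ((ι → α) × (ι → α)) := fun g =>
    ({p | ∃ x ∈ A, cj g⁻¹ x p.1 p.2 ≠ 0}, {p | ∃ x ∈ N, cj g⁻¹ x p.1 p.2 ≠ 0})
  let K : Set ((ι → α) × (ι → α)) × Set ((ι → α) × (ι → α)) → Set (α → ℝ) := fun s =>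
    {ξ : α → ℝ | ∀ p ∈ s.1, 0 ≤ wt ξ p.1 p.2} ∩ {ξ : α → ℝ | ∀ p ∈ s.2, 1 ≤ wt ξ p.1 p.2}
  have hpos : ∀ (g : (Matrix α α F)ˣ) (ξ : α → ℝ), PosS A N g ξ ↔ ξ ∈ K (sp g) := by
    intro g ξ
    constructor
    · intro h
      refine ⟨?_, ?_⟩
      · rintro p ⟨x, hx, hp⟩
        exact h.1 x hx p.1 p.2 hp
      · rintro p ⟨x, hx, hp⟩
        exact h.2 x hx p.1 p.2 hp
    · intro h
      exact ⟨fun x hx a b hab => h.1 (a, b) ⟨x, hx, hab⟩, fun x hx a b hab => h.2 (a, b) ⟨x, hx, hab⟩⟩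
  let U : Set (α → ℝ) := ⋃ s ∈ Set.range sp, K s
  have hU : ∀ ξ : α → ℝ, ξ ∈ U ↔ ∃ g : (Matrix α α F)ˣ, PosS A N g ξ := by
    intro ξ
    simp only [U, Set.mem_iUnion, Set.mem_range]
    constructor
    · rintro ⟨s, ⟨g, rfl⟩, hs⟩
      exact ⟨g, (hpos g ξ).2 hs⟩
    · rintro ⟨g, hs⟩
      exact ⟨sp g, ⟨g, rfl⟩, (hpos g ξ).1 hs⟩
  have hUc : IsClosed U := by
    apply Set.Finite.isClosed_biUnion (Set.toFinite _)
    intro s _
    exact (kempf2_closed s.1 0).inter (kempf2_closed s.2 1)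
  obtain ⟨g₀, ξ₀, h₀⟩ := h
  let C : Set (α → ℝ) := U ∩ {ξ : α → ℝ | ∑ r, ξ r ^ 2 ≤ ∑ r, ξ₀ r ^ 2}
  have hC : IsCompact C := by
    apply Metric.isCompact_of_isClosed_isBounded
    · exact hUc.inter (isClosed_le (by fun_prop) continuous_const)
    · rw [Metric.isBounded_iff_subset_closedBall 0]
      refine ⟨Real.sqrt (∑ r, ξ₀ r ^ 2), ?_⟩
      rintro ξ ⟨-, hξ⟩
      rw [Set.mem_ofPred_eq] at hξ
      rw [mem_closedBall_zero_iff, pi_norm_le_iff_of_nonneg (Real.sqrt_nonneg _)]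
      intro r
      rw [Real.norm_eq_abs]
      apply Real.le_sqrt_of_sq_le
      rw [sq_abs]
      exact (Finset.single_le_sum (f := fun r => ξ r ^ 2) (fun i _ => sq_nonneg _)
        (Finset.mem_univ r)).trans hξ
  have hne : C.Nonempty := ⟨ξ₀, (hU ξ₀).2 ⟨g₀, h₀⟩, by rw [Set.mem_ofPred_eq]⟩
  obtain ⟨ξ, hξ, hmin⟩ := hC.exists_isMinOn (f := fun ξ : α → ℝ => ∑ r, ξ r ^ 2) hne
    (Continuous.continuousOn (by fun_prop))
  obtain ⟨g, hp⟩ := (hU ξ).1 hξ.1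
  refine ⟨g, ξ, hp, ?_⟩
  intro g' ξ' hp'
  by_cases hle : ∑ r, ξ' r ^ 2 ≤ ∑ r, ξ₀ r ^ 2
  · exact hmin ⟨(hU ξ').2 ⟨g', hp'⟩, hle⟩
  · exact (hξ.2).trans (le_of_lt (not_le.mp hle))

/-- Uniqueness of the minimal weighted flag. -/
theorem unique_minimal2 (A N : Set (Matrix (ι → α) (ι → α) F)) {g g' : (Matrix α α F)ˣ}
    {ξ ξ' : α → ℝ} (h : PosS A N g ξ) (h' : PosS A N g' ξ')
    (hm : ∀ (g' : (Matrix α α F)ˣ) (ξ' : α → ℝ), PosS A N g' ξ' → ∑ r, ξ r ^ 2 ≤ ∑ r, ξ' r ^ 2)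
    (hm' : ∑ r, ξ' r ^ 2 ≤ ∑ r, ξ r ^ 2) : Same g ξ g' ξ' := by
  obtain ⟨k, hk, η, η', h1, h2⟩ := common_basis (c0 α) (mem_BG_c0 g) (mem_BG_c0 g') ξ ξ'
  have p1 : PosS A N k η := h.of_same h1.symm
  have p2 : PosS A N k η' := h'.of_same h2.symm
  have p3 := p1.midpoint p2
  have e1 : ∑ r, η r ^ 2 = ∑ r, ξ r ^ 2 := by
    obtain ⟨τ, hτ⟩ := h1.symm.exists_perm
    simp only [hτ]
    exact Equiv.sum_comp τ (fun r => ξ r ^ 2)
  have e2 : ∑ r, η' r ^ 2 = ∑ r, ξ' r ^ 2 := by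
    obtain ⟨τ, hτ⟩ := h2.symm.exists_perm
    simp only [hτ]
    exact Equiv.sum_comp τ (fun r => ξ' r ^ 2)
  have h3 := hm k _ p3
  have h4 : ∑ r, ((η r + η' r) / 2) ^ 2 + ∑ r, ((η r - η' r) / 2) ^ 2 =
      (∑ r, η r ^ 2 + ∑ r, η' r ^ 2) / 2 := by
    rw [← Finset.sum_add_distrib, ← Finset.sum_add_distrib, Finset.sum_div]
    apply Finset.sum_congr rfl
    intro r _
    ring
  have h5 : ∑ r, ((η r - η' r) / 2) ^ 2 ≤ 0 := by
    linarith
  have h6 : η = η' := by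
    funext r
    have h7 : ((η r - η' r) / 2) ^ 2 ≤ 0 :=
      (Finset.single_le_sum (f := fun r => ((η r - η' r) / 2) ^ 2) (fun i _ => sq_nonneg _)
        (Finset.mem_univ r)).trans h5
    have h8 : (η r - η' r) / 2 = 0 := by
      exact pow_eq_zero_iff (two_ne_zero) |>.mp (le_antisymm h7 (sq_nonneg _))
    linarith
  rw [← h6] at h2
  exact h1.symm.trans h2

/-- `cj` is additive and homogeneous. -/
theorem cj_add (g : (Matrix α α F)ˣ) (x y : Matrix (ι → α) (ι → α) F) :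
    cj g (x + y) = cj g x + cj g y := by
  unfold cj
  rw [Matrix.mul_add, Matrix.add_mul]

theorem cj_smul (g : (Matrix α α F)ˣ) (r : F) (x : Matrix (ι → α) (ι → α) F) :
    cj g (r • x) = r • cj g x := by
  unfold cj
  rw [Matrix.mul_smul, Matrix.smul_mul]

theorem cj_zero (g : (Matrix α α F)ˣ) : cj g (0 : Matrix (ι → α) (ι → α) F) = 0 := by
  unfold cj
  rw [Matrix.mul_zero, Matrix.zero_mul]

theorem wt_of_span {S : Set (Matrix (ι → α) (ι → α) F)} {g : (Matrix α α F)ˣ} {ξ : α → ℝ} {r : ℝ}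
    (h : ∀ x ∈ S, ∀ a b, cj g x a b ≠ 0 → r ≤ wt ξ a b) :
    ∀ x ∈ Submodule.span F S, ∀ a b, cj g x a b ≠ 0 → r ≤ wt ξ a b := by
  intro x hx a b
  induction hx using Submodule.span_induction with
  | mem x hx => exact h x hx a b
  | zero =>
    intro h0
    rw [cj_zero] at h0
    exact absurd rfl h0
  | add x y _ _ h1 h2 =>
    intro h0
    rw [cj_add, Matrix.add_apply] at h0
    by_cases hx0 : cj g x a b = 0
    · rw [hx0, zero_add] at h0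
      exact h2 h0
    · exact h1 hx0
  | smul c x _ h1 =>
    intro h0
    rw [cj_smul, Matrix.smul_apply, smul_eq_mul] at h0
    exact h1 (right_ne_zero_of_mul h0)

theorem PosS.span {A N : Set (Matrix (ι → α) (ι → α) F)} {g : (Matrix α α F)ˣ} {ξ : α → ℝ}
    (h : PosS A N g ξ) : PosS (Submodule.span F A : Set (Matrix (ι → α) (ι → α) F))
      (Submodule.span F N : Set (Matrix (ι → α) (ι → α) F)) g ξ :=
  ⟨wt_of_span h.1, wt_of_span h.2⟩

end H13F
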