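import Pool.Agent.W_f569db_h13.InvOrth2
import Pool.Agent.W_f569db_h69.NoUnit

/-!
# No polynomial with a distinguished factor in each term is `1` on the orbit
-/

set_option linter.unusedSectionVars false

namespace H13F

open H69 Matrix Finset

variable {α : Type*} [Fintype α] [DecidableEq α]

/-- words of length between `1` and `D` with a letter in `Z` -/
abbrev NUW (Λ : Type*) (Z : Set Λ) (D : ℕ) : Type _ :=
  {w : (d : Fin D) × (Fin ((d : ℕ) + 1) → Λ) // ∃ k, w.2 k ∈ Z}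

/-- The index type. -/
abbrev NUE (Λ : Type*) (Z : Set Λ) (β : Type*) (D : ℕ) : Type _ :=
  (w : NUW Λ Z D) × (Fin ((w.1.1 : ℕ) + 1) → β)

/-- the list of an index -/
def nuList {Λ : Type*} {Z : Set Λ} {β : Type*} {D : ℕ} (e : NUE Λ Z β D) : List (Λ × β) :=
  List.ofFn fun k => (e.1.1.2 k, e.2 k)

theorem nuList_inj {Λ : Type*} {Z : Set Λ} {β : Type*} {D : ℕ} :
    Function.Injective (nuList : NUE Λ Z β D → List (Λ × β)) := by
  rintro ⟨⟨⟨d, v⟩, hv⟩, f⟩ ⟨⟨⟨d', v'⟩, hv'⟩, f'⟩ h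
  have h0 : List.ofFn (fun k => (v k, f k)) = List.ofFn (fun k => (v' k, f' k)) := h
  have h1 : (d : ℕ) + 1 = (d' : ℕ) + 1 := by
    have h2 := congrArg List.length h0
    rwa [List.length_ofFn, List.length_ofFn] at h2
  have h2 : d = d' := Fin.ext (by omega)
  subst h2
  have h3 := List.ofFn_injective h0
  have h4 : v = v' := by
    funext k
    exact congrArg Prod.fst (congrFun h3 k)
  have h5 : f = f' := by
    funext k
    exact congrArg Prod.snd (congrFun h3 k)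
  subst h4
  subst h5
  rfl

theorem nu_sum {Λ : Type*} [Fintype Λ] [DecidableEq Λ] (Z : Set Λ) {β : Type*} [Fintype β]
    [DecidableEq β] {K : Type*} [Field K]
    (A : List (Λ × β) →₀ K) (hA : ∀ l ∈ A.support, ∃ p ∈ l, p.1 ∈ Z) (D : ℕ)
    (hD : ∀ l ∈ A.support, l.length ≤ D) (F : Λ × β → K) [Fintype (NUW Λ Z D)] :
    (A.sum fun l r => r * (l.map F).prod) =
      ∑ e : NUE Λ Z β D, A (nuList e) * ∏ k, F (e.1.1.2 k, e.2 k) := by
  classical
  have hsub : A.support ⊆ Finset.univ.image (nuList : NUE Λ Z β D → List (Λ × β)) := by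
    intro l hl
    obtain ⟨p, hp, hpZ⟩ := hA l hl
    have h1 : l ≠ [] := List.ne_nil_of_mem hp
    have h2 : 0 < l.length := List.length_pos_iff.2 h1
    have h3 := hD l hl
    have h4 : l.length - 1 + 1 = l.length := by omega
    obtain ⟨i, hi⟩ := List.get_of_mem hp
    refine Finset.mem_image.2 ⟨⟨⟨⟨⟨l.length - 1, by omega⟩,
      fun k => (l.get (Fin.cast h4 k)).1⟩, ⟨Fin.cast h4.symm i, ?_⟩⟩,
      fun k => (l.get (Fin.cast h4 k)).2⟩, Finset.mem_univ _, ?_⟩
    · show (l.get (Fin.cast h4 (Fin.cast h4.symm i))).1 ∈ Z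
      rw [Fin.cast_cast, Fin.cast_eq_self, hi]
      exact hpZ
    · show List.ofFn (fun k : Fin (l.length - 1 + 1) =>
        ((l.get (Fin.cast h4 k)).1, (l.get (Fin.cast h4 k)).2)) = l
      rw [show (fun k : Fin (l.length - 1 + 1) =>
        ((l.get (Fin.cast h4 k)).1, (l.get (Fin.cast h4 k)).2)) =
          fun k : Fin (l.length - 1 + 1) => l.get (Fin.cast h4 k) from rfl,
        List.ofFn_congr h4]
      exact List.ofFn_get l
  rw [Finsupp.sum_of_support_subset A hsub (fun l r => r * (l.map F).prod) (fun l _ => zero_mul _),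
    Finset.sum_image (fun a _ b _ h => nuList_inj h)]
  refine Finset.sum_congr rfl fun e _ => ?_
  unfold nuList
  rw [List.map_ofFn, List.prod_ofFn]
  rfl

/-- The representation. -/
def nuRho {Λ : Type*} [DecidableEq Λ] (Z : Set Λ) (ι : Type*) [Fintype ι] [DecidableEq ι] (D : ℕ)
    (g : (Matrix α α ℚ)ˣ) :
    Matrix (NUE Λ Z ((ι → α) × (ι → α)) D) (NUE Λ Z ((ι → α) × (ι → α)) D) ℚ :=
  Matrix.blockDiagonal' fun w : NUW Λ Z D => ten (Fin ((w.1.1 : ℕ) + 1)) (NoUnit_P ι g)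

theorem nuRho_sum {Λ : Type*} [Fintype Λ] [DecidableEq Λ] (Z : Set Λ) {ι : Type*} [Fintype ι]
    [DecidableEq ι] (D : ℕ) [Fintype (NUW Λ Z D)] {K : Type*} [Field K]
    [CharZero K] (x : Λ → Matrix (ι → α) (ι → α) K) (g : (Matrix α α ℚ)ˣ)
    (e : NUE Λ Z ((ι → α) × (ι → α)) D) :
    ∑ e', ((nuRho Z ι D g e e' : ℚ) : K) * ∏ k, x (e'.1.1.2 k) (e'.2 k).1 (e'.2 k).2 =
      ∏ k, cj (Units.map (Rat.castHom K).mapMatrix.toMonoidHom g) (x (e.1.1.2 k))
        (e.2 k).1 (e.2 k).2 := by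
  obtain ⟨w, f⟩ := e
  rw [Fintype.sum_sigma, Finset.sum_eq_single w]
  · have h1 : ∀ f' : Fin ((w.1.1 : ℕ) + 1) → (ι → α) × (ι → α),
        ((nuRho Z ι D g ⟨w, f⟩ ⟨w, f'⟩ : ℚ) : K) * ∏ k, x (w.1.2 k) (f' k).1 (f' k).2 =
        ∏ k, (((NoUnit_P ι g (f k) (f' k) : ℚ) : K) * x (w.1.2 k) (f' k).1 (f' k).2) := by
      intro f'
      unfold nuRho
      rw [Matrix.blockDiagonal'_apply_eq, ten_apply, Rat.cast_prod, Finset.prod_mul_distrib]
    rw [Finset.sum_congr rfl fun f' _ => h1 f']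
    have h2 : ∀ k, cj (Units.map (Rat.castHom K).mapMatrix.toMonoidHom g) (x (w.1.2 k))
        (f k).1 (f k).2 =
        ∑ q, ((NoUnit_P ι g (f k) q : ℚ) : K) * x (w.1.2 k) q.1 q.2 :=
      fun k => (NoUnit_P_sum (x (w.1.2 k)) g (f k)).symm
    show _ = ∏ k, cj (Units.map (Rat.castHom K).mapMatrix.toMonoidHom g) (x (w.1.2 k))
      (f k).1 (f k).2
    rw [Finset.prod_congr rfl fun k _ => h2 k, Finset.prod_univ_sum]
    simp only [Fintype.piFinset_univ]
  · intro w' _ hw'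
    refine Finset.sum_eq_zero fun f' _ => ?_
    unfold nuRho
    rw [Matrix.blockDiagonal'_apply_ne _ _ _ hw'.symm, Rat.cast_zero, zero_mul]
  · intro h
    exact absurd (Finset.mem_univ w) h

/-- Let `x_λ` be a finite family of operators such that all traces `Tr(P_σ (x_{λ_0} ⊗ ⋯ ⊗ x_{λ_d}))` with at
least one `λ_k ∈ Z` vanish.  Then no combination of monomials in the coordinates of the `x_λ`, each
monomial with a factor for a `λ ∈ Z`, is equal to `1` on the orbit of `(x_λ)` under `GL(V)(ℚ)`. -/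
theorem no_unit2 {Λ : Type*} [Fintype Λ] [DecidableEq Λ] (Z : Set Λ) {ι : Type*} [Fintype ι]
    [DecidableEq ι] {K : Type*} [Field K] [CharZero K] (x : Λ → Matrix (ι → α) (ι → α) K)
    (htr : ∀ (d : ℕ) (v : Fin (d + 1) → Λ), (∃ k, v k ∈ Z) →
      ∀ (σ : Equiv.Perm (Fin (d + 1) × ι)),
      ∑ a : Fin (d + 1) × ι → α, ∏ k, x (v k) (fun s => a (k, s)) (fun s => a (σ (k, s))) = 0)
    (A : List (Λ × ((ι → α) × (ι → α))) →₀ K) (hA : ∀ l ∈ A.support, ∃ p ∈ l, p.1 ∈ Z) :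
    ¬ ∀ g : (Matrix α α ℚ)ˣ, (A.sum fun l r =>
      r * (l.map fun p => cj (Units.map (Rat.castHom K).mapMatrix.toMonoidHom g) (x p.1)
        p.2.1 p.2.2).prod) = 1 := by
  classical
  intro hone
  let D : ℕ := A.support.sup List.length
  obtain ⟨t, ht, ht2⟩ := reynolds (G := (Matrix α α ℚ)ˣ) (E := NUE Λ Z ((ι → α) × (ι → α)) D)
    (fun g => nuRho Z ι D g)
    (by
      beta_reduce
      unfold nuRho
      rw [NoUnit_P_one]
      have h1 : (fun w : NUW Λ Z D => ten (Fin ((w.1.1 : ℕ) + 1))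
          (1 : Matrix ((ι → α) × (ι → α)) ((ι → α) × (ι → α)) ℚ)) = 1 := by
        funext w
        rw [ten_one]
        rfl
      rw [h1]
      exact Matrix.blockDiagonal'_one)
    (by
      intro g h
      show nuRho Z ι D (g * h : (Matrix α α ℚ)ˣ) = _
      unfold nuRho
      rw [NoUnit_P_mul, ← Matrix.blockDiagonal'_mul]
      congr 1
      funext w
      exact ten_mul _ _)
    (by
      intro g
      refine ⟨NoUnit_tr g, ?_⟩
      show (nuRho Z ι D g)ᵀ = nuRho Z ι D (NoUnit_tr g)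
      unfold nuRho
      rw [Matrix.blockDiagonal'_transpose]
      congr 1)
    (fun e => ∏ k, x (e.1.1.2 k) (e.2 k).1 (e.2 k).2) (fun e => A (nuList e))
    (by
      intro g
      rw [← hone g, nu_sum Z A hA D (fun l hl => Finset.le_sup (f := List.length) hl)]
      refine Finset.sum_congr rfl fun e _ => ?_
      rw [nuRho_sum])
  apply ht2
  rw [Fintype.sum_sigma]
  refine Finset.sum_eq_zero fun w _ => ?_
  refine inv_orth2 (w.1.1 : ℕ) (fun k => x (w.1.2 k)) (htr w.1.1 w.1.2 w.2) (fun f => t ⟨w, f⟩) ?_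
  intro g f'
  rw [← ht g ⟨w, f'⟩, Fintype.sum_sigma, Finset.sum_eq_single w]
  · refine Finset.sum_congr rfl fun f _ => ?_
    show _ = t ⟨w, f⟩ * nuRho Z ι D g ⟨w, f⟩ ⟨w, f'⟩
    unfold nuRho
    rw [Matrix.blockDiagonal'_apply_eq]
    rfl
  · intro w' _ hw'
    refine Finset.sum_eq_zero fun f _ => ?_
    show t ⟨w', f⟩ * nuRho Z ι D g ⟨w', f⟩ ⟨w, f'⟩ = 0
    unfold nuRho
    rw [Matrix.blockDiagonal'_apply_ne _ _ _ hw', mul_zero]
  · intro h
    exact absurd (Finset.mem_univ w) h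

end H13F
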