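import Pool.Agent.W_f569db_h69.ValDom

/-!
# A valuation ring from a proper ideal of a subalgebra: some functions in the maximal ideal, the
others in the valuation ring
-/

set_option linter.unusedSectionVars false

universe u v w'

namespace H13F

open H69

/-- The span of the products of lists with a factor in `Z` is stable under the subalgebra. -/
theorem ValDom2_adjoin {S : Type u} [CommRing S] {K : Type v} [Field K] [Algebra K S] {J : Type w'}
    (f : J → S) (Z : Set J) {r : S} (hr : r ∈ Algebra.adjoin K (Set.range f)) :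
    ∀ s ∈ Submodule.span K ((fun l : List J => (l.map f).prod) '' {l | ∃ j ∈ l, j ∈ Z}),
      r * s ∈ Submodule.span K ((fun l : List J => (l.map f).prod) '' {l | ∃ j ∈ l, j ∈ Z}) := by
  induction hr using Algebra.adjoin_induction with
  | mem x hx =>
    obtain ⟨j, rfl⟩ := hx
    intro s hs
    induction hs using Submodule.span_induction with
    | mem y hy =>
      obtain ⟨l, ⟨j', hj', hZ⟩, rfl⟩ := hy
      refine Submodule.subset_span ⟨j :: l, ⟨j', List.mem_cons_of_mem _ hj', hZ⟩, ?_⟩
      show ((j :: l).map f).prod = f j * (l.map f).prod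
      rw [List.map_cons, List.prod_cons]
    | zero => rw [mul_zero]; exact Submodule.zero_mem _
    | add y z _ _ hy hz => rw [mul_add]; exact Submodule.add_mem _ hy hz
    | smul a y _ hy => rw [mul_smul_comm]; exact Submodule.smul_mem _ a hy
  | algebraMap a => intro s hs; rw [← Algebra.smul_def]; exact Submodule.smul_mem _ a hs
  | add x y _ _ hx hy => intro s hs; rw [add_mul]; exact Submodule.add_mem _ (hx s hs) (hy s hs)
  | mul x y _ _ hx hy => intro s hs; rw [mul_assoc]; exact hx _ (hy s hs)

/-- `S` is a commutative `K`-algebra, `f_j ∈ S`, and `1` is not in the ideal generated by the `f_j`,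
`j ∈ Z`, in the algebra generated by all `f_j`.  Then there are a field `L`, a ring map `φ : S → L` and
a valuation ring `B` of `L` such that `φ(K) ⊆ B`, all `φ(f_j)` are in `B` and `φ(f_j)` is in the maximal
ideal of `B` for `j ∈ Z`. -/
theorem val_dom2 {S : Type u} [CommRing S] {K : Type v} [Field K] [Algebra K S] {J : Type w'}
    (f : J → S) (Z : Set J)
    (h : ∀ A : List J →₀ K, (∀ l ∈ A.support, ∃ j ∈ l, j ∈ Z) →
      (A.sum fun l r => r • (l.map f).prod) ≠ 1) :
    ∃ (L : Type u) (_ : Field L) (φ : S →+* L) (B : ValuationSubring L),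
      (∀ r : K, φ (algebraMap K S r) ∈ B) ∧ (∀ j, φ (f j) ∈ B) ∧
        ∀ j ∈ Z, φ (f j) ∈ B.nonunits := by
  classical
  let M : Submodule K S := Submodule.span K
    ((fun l : List J => (l.map f).prod) '' {l | ∃ j ∈ l, j ∈ Z})
  have h1 : (1 : S) ∉ M := by
    intro h1
    obtain ⟨A, hA, hA2⟩ := Finsupp.mem_span_image_iff_linearCombination K |>.1 h1
    refine h A ?_ hA2
    intro l hl
    exact hA hl
  let I : Ideal (Algebra.adjoin K (Set.range f)) :=
    { carrier := {r | (r : S) ∈ M}
      add_mem' := fun {a b} ha hb => M.add_mem ha hb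
      zero_mem' := M.zero_mem
      smul_mem' := fun c x hx => ValDom2_adjoin f Z c.2 _ hx }
  have hI : I ≠ ⊤ := by
    intro hI
    have h2 : (1 : Algebra.adjoin K (Set.range f)) ∈ I := by
      rw [hI]
      exact Submodule.mem_top
    exact h1 h2
  obtain ⟨P, hP, hIP⟩ := Ideal.exists_le_maximal I hI
  obtain ⟨L, hL, φ, B, hB1, hB2⟩ := ValDom_ext
    (algebraMap (Algebra.adjoin K (Set.range f)) S) Subtype.val_injective P hP
  refine ⟨L, hL, φ, B, fun r => ?_, fun j => ?_, fun j hj => ?_⟩
  · exact hB1 (algebraMap K (Algebra.adjoin K (Set.range f)) r)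
  · exact hB1 ⟨f j, Algebra.subset_adjoin ⟨j, rfl⟩⟩
  · refine hB2 ⟨f j, Algebra.subset_adjoin ⟨j, rfl⟩⟩ (hIP ?_)
    show f j ∈ M
    refine Submodule.subset_span ⟨[j], ⟨j, List.mem_singleton_self j, hj⟩, ?_⟩
    show ([j].map f).prod = f j
    rw [List.map_cons, List.map_nil, List.prod_cons, List.prod_nil, mul_one]

end H13F
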