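import Pool.Agent.W_f569db_h69.ExistsPos
import Pool.Agent.W_f569db_h13.ValDom2
import Pool.Agent.W_f569db_h13.Gordan2
import Pool.Agent.W_f569db_h13.Kempf2
import Pool.Agent.W_f569db_h13.NoUnit2

/-!
# Degeneration: from the orbit closure to a weighted basis, for a family of operators
-/

set_option linter.unusedSectionVars false

universe u

namespace H13F

open H69 Matrix Finset

variable {α : Type} [Fintype α] [DecidableEq α]

/-- Let `x_λ` be a family of operators such that `1` is not in the ideal generated by the coordinates of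
the `x_λ`, `λ ∈ Z`, in the ring generated by the coordinates of all `x_λ` on the orbit under `GL(V)(ℚ)`.
Then there is a weighted basis over an extension field in which the `x_λ` have weights `≥ 0` and the
`x_λ`, `λ ∈ Z`, have weights `≥ 1`. -/
theorem exists_pos2 {Λ : Type*} (Z : Set Λ) {ι : Type} [Fintype ι] [DecidableEq ι]
    {K : Type u} [Field K] [CharZero K] (x : Λ → Matrix (ι → α) (ι → α) K)
    (h : ∀ A : List (Λ × ((ι → α) × (ι → α))) →₀ K, (∀ l ∈ A.support, ∃ p ∈ l, p.1 ∈ Z) →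
      ¬ ∀ g : (Matrix α α ℚ)ˣ, (A.sum fun l r =>
      r * (l.map fun p => cj (Units.map (Rat.castHom K).mapMatrix.toMonoidHom g) (x p.1)
        p.2.1 p.2.2).prod) = 1) :
    ∃ (F : Type u) (_ : Field F) (θ : K →+* F), ∃ g : (Matrix α α F)ˣ, ∃ ξ : α → ℝ,
      PosS (Set.range fun l => (x l).map θ) ((fun l => (x l).map θ) '' Z) g ξ := by
  classical
  -- the functions
  obtain ⟨L, _, φ, B, hK, hf0, hf⟩ := val_dom2 (S := BG (c0 α) ℚ → K) (K := K)
    (J := Λ × ((ι → α) × (ι → α))) (fun p g => cj (Units.map (Rat.castHom K).mapMatrix.toMonoidHom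
      (g : (Matrix α α ℚ)ˣ)) (x p.1) p.2.1 p.2.2) {p | p.1 ∈ Z} (fun A hA h1 => by
    refine h A hA fun g => ?_
    have h2 := congrFun h1 (⟨g, mem_BG_c0 g⟩ : BG (c0 α) ℚ)
    rw [Finsupp.sum, Finset.sum_apply] at h2
    rw [Finsupp.sum]
    refine Eq.trans (Finset.sum_congr rfl fun l _ => ?_) h2
    rw [Pi.smul_apply, smul_eq_mul]
    refine congrArg _ ?_
    have h3 := map_list_prod (Pi.evalRingHom (fun _ : BG (c0 α) ℚ => K) ⟨g, mem_BG_c0 g⟩)
      (l.map (fun (p : Λ × ((ι → α) × (ι → α))) (g : BG (c0 α) ℚ) => cj (Units.map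
        (Rat.castHom K).mapMatrix.toMonoidHom (g : (Matrix α α ℚ)ˣ)) (x p.1) p.2.1 p.2.2))
    rw [List.map_map] at h3
    exact h3.symm)
  let G : (Matrix α α L)ˣ := Units.map (RingHom.mapMatrix φ : Matrix α α (BG (c0 α) ℚ → K) →+*
    Matrix α α L).toMonoidHom (taut (c0 α) K)
  have hG : G ∈ BG (c0 α) L := mem_BG_c0 G
  -- the tensors over `L`
  let xS : Λ → Matrix (ι → α) (ι → α) (BG (c0 α) ℚ → K) :=
    fun l => (x l).map (algebraMap K (BG (c0 α) ℚ → K))
  let xL : Λ → Matrix (ι → α) (ι → α) L := fun l => (xS l).map φ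
  have hxL : ∀ l a b, xL l a b ∈ B := fun l a b => hK _
  have hGeq : ∀ l a b, cj G (xL l) a b = φ (fun g : BG (c0 α) ℚ => cj (Units.map
        (Rat.castHom K).mapMatrix.toMonoidHom (g : (Matrix α α ℚ)ˣ)) (x l) a b) := by
    intro l a b
    have h1 : cj G (xL l) = (cj (taut (c0 α) K) (xS l)).map φ :=
      (cj_map_hom φ (taut (c0 α) K) (xS l)).symm
    have h2 : cj (taut (c0 α) K) (xS l) a b = fun g : BG (c0 α) ℚ => cj (Units.map
        (Rat.castHom K).mapMatrix.toMonoidHom (g : (Matrix α α ℚ)ˣ)) (x l) a b := by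
      funext g
      have h3 := cj_map_hom (Pi.evalRingHom (fun _ : BG (c0 α) ℚ => K) g) (taut (c0 α) K) (xS l)
      have h4 := congrFun (congrFun h3 a) b
      refine h4.trans ?_
      refine congrFun (congrFun (congrArg₂ cj ?_ ?_) a) b
      · ext p q
        rfl
      · ext p q
        rfl
    rw [h1, Matrix.map_apply, h2]
  have hGx0 : ∀ l a b, cj G (xL l) a b ∈ B := by
    intro l a b
    rw [hGeq]
    exact hf0 (l, a, b)
  have hGx : ∀ l ∈ Z, ∀ a b, cj G (xL l) a b ∈ B.nonunits := by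
    intro l hl a b
    rw [hGeq]
    exact hf (l, a, b) hl
  obtain ⟨u, v, hu, hv, hu1, hu2, hv1, hv2, π, hπ⟩ := smith (c0 α) B G hG
  let m : (Matrix α α L)ˣ := u * G * v
  let δ : α → L := fun r => (m : Matrix α α L) (π r) r
  have hδ : ∀ r, δ r ≠ 0 := fun r => (hπ _ _).2 rfl
  let x' : Λ → Matrix (ι → α) (ι → α) L := fun l => cj v⁻¹ (xL l)
  have hm : ∀ l, cj m (x' l) = cj u (cj G (xL l)) := by
    intro l
    rw [← cj_mul_act, ← cj_mul_act]
    refine congrArg₂ cj ?_ rfl
    rw [show m = u * G * v from rfl, mul_inv_cancel_right]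
  have hx' : ∀ l a b, x' l a b ∈ B := by
    intro l
    refine cj_mem_of B B (zero_mem B) (fun _ h1 _ h2 => add_mem h1 h2) (fun _ h1 _ h2 => mul_mem h1 h2)
      _ hv2 (fun a b => ?_) _ (hxL l)
    rw [inv_inv]
    exact hv1 a b
  have hnon0 : ∀ l a b, cj m (x' l) a b ∈ B := by
    intro l
    rw [hm]
    exact cj_mem_of B B (zero_mem B) (fun _ h1 _ h2 => add_mem h1 h2)
      (fun _ h1 _ h2 => mul_mem h1 h2) _ hu1 hu2 _ (hGx0 l)
  have hnon : ∀ l ∈ Z, ∀ a b, cj m (x' l) a b ∈ B.nonunits := by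
    intro l hl
    rw [hm]
    refine cj_mem_of B B.nonunits ?_ ?_ ?_ _ hu1 hu2 _ (hGx l hl)
    · change (0 : L) ∈ B.nonunits
      rw [ValuationSubring.mem_nonunits_iff, map_zero]
      exact zero_lt_one
    · intro y hy z hz
      change y + z ∈ B.nonunits
      have hy' : B.valuation y < 1 := (ValuationSubring.mem_nonunits_iff B).1 hy
      have hz' : B.valuation z < 1 := (ValuationSubring.mem_nonunits_iff B).1 hz
      rw [ValuationSubring.mem_nonunits_iff]
      exact Valuation.map_add_lt _ hy' hz'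
    · intro y hy z hz
      change y * z ∈ B.nonunits
      have hy' : B.valuation y ≤ 1 := (B.valuation_le_one_iff y).2 hy
      have hz' : B.valuation z < 1 := (ValuationSubring.mem_nonunits_iff B).1 hz
      rw [ValuationSubring.mem_nonunits_iff, map_mul]
      exact lt_of_le_of_lt (mul_le_mul' hy' le_rfl) (by rwa [one_mul])
  -- the inequalities between the valuations
  have hpr : ∀ b : ι → α, 0 < ∏ s, B.valuation (δ (b s)) := by
    intro b
    rw [zero_lt_iff]
    exact Finset.prod_ne_zero_iff.2 fun s _ => (Valuation.ne_zero_iff _).2 (hδ _)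
  have hval : ∀ l a b, B.valuation (x' l a b) = 1 → B.valuation (cj m (x' l) (π ∘ a) (π ∘ b)) =
      (∏ s, B.valuation (δ (a s))) * (∏ s, B.valuation (δ (b s)))⁻¹ := by
    intro l a b hab
    rw [cj_monomial hπ, map_mul, map_mul, hab, mul_one, map_prod, map_prod]
    have h2 : ∀ s, B.valuation ((((m : Matrix α α L) (π (b s)) (b s)))⁻¹) = (B.valuation (δ (b s)))⁻¹ :=
      fun s => map_inv₀ _ _
    rw [Finset.prod_congr rfl fun s _ => h2 s, Finset.prod_inv_distrib]
  have hle : ∀ l a b, B.valuation (x' l a b) = 1 →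
      ∏ s, B.valuation (δ (a s)) ≤ ∏ s, B.valuation (δ (b s)) := by
    intro l a b hab
    have h1 := (B.valuation_le_one_iff _).2 (hnon0 l (π ∘ a) (π ∘ b))
    rw [hval l a b hab] at h1
    calc ∏ s, B.valuation (δ (a s)) = (∏ s, B.valuation (δ (a s))) * (∏ s, B.valuation (δ (b s)))⁻¹ *
          ∏ s, B.valuation (δ (b s)) := by rw [inv_mul_cancel_right₀ (hpr b).ne']
      _ ≤ 1 * ∏ s, B.valuation (δ (b s)) := mul_le_mul_left h1 _
      _ = ∏ s, B.valuation (δ (b s)) := one_mul _
  have hlt : ∀ l ∈ Z, ∀ a b, B.valuation (x' l a b) = 1 →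
      ∏ s, B.valuation (δ (a s)) < ∏ s, B.valuation (δ (b s)) := by
    intro l hl a b hab
    have h1 := (ValuationSubring.mem_nonunits_iff B).1 (hnon l hl (π ∘ a) (π ∘ b))
    rw [hval l a b hab] at h1
    calc ∏ s, B.valuation (δ (a s)) = (∏ s, B.valuation (δ (a s))) * (∏ s, B.valuation (δ (b s)))⁻¹ *
          ∏ s, B.valuation (δ (b s)) := by rw [inv_mul_cancel_right₀ (hpr b).ne']
      _ < 1 * ∏ s, B.valuation (δ (b s)) := mul_lt_mul_of_pos_right h1 (hpr b)
      _ = ∏ s, B.valuation (δ (b s)) := one_mul _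
  -- the weights
  let w : α → Additive (B.ValueGroup)ˣ := fun r =>
    Additive.ofMul (Units.mk0 (B.valuation (δ r)) ((Valuation.ne_zero_iff _).2 (hδ r)))
  let Φ : (α → ℤ) →+ Additive (B.ValueGroup)ˣ :=
    { toFun := fun n => ∑ r, (-(n r)) • w r
      map_zero' := by simp
      map_add' := fun n n' => by
        rw [← Finset.sum_add_distrib]
        refine Finset.sum_congr rfl fun r _ => ?_
        rw [Pi.add_apply, neg_add, add_zsmul] }
  have hΦ : ∀ r, Φ (Pi.single r 1) = - w r := by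
    intro r
    change ∑ r', (-((Pi.single r 1 : α → ℤ) r')) • w r' = - w r
    rw [Finset.sum_eq_single r]
    · rw [Pi.single_eq_same, neg_smul, one_smul]
    · intro r' _ hr'
      rw [Pi.single_eq_of_ne hr', neg_zero, zero_smul]
    · intro hk
      exact (hk (Finset.mem_univ _)).elim
  let U : (ι → α) → (ι → α) → (α → ℤ) := fun a b =>
    ∑ s, Pi.single (a s) 1 - ∑ s, Pi.single (b s) 1
  have hΦU : ∀ a b, Φ (U a b) = (∑ s, w (b s)) - ∑ s, w (a s) := by
    intro a b
    rw [map_sub, map_sum, map_sum]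
    simp only [hΦ, Finset.sum_neg_distrib]
    abel
  have hwsum : ∀ a : ι → α, (∑ s, w (a s)) =
        Additive.ofMul (∏ s, Units.mk0 (B.valuation (δ (a s))) ((Valuation.ne_zero_iff _).2 (hδ (a s)))) := by
    intro a
    rw [ofMul_prod]
  have hU : ∀ l ∈ Z, ∀ a b, B.valuation (x' l a b) = 1 → 0 < Φ (U a b) := by
    intro l hl a b hab
    rw [hΦU, sub_pos, hwsum, hwsum, Additive.ofMul_lt, ← Units.val_lt_val, Units.coe_prod,
      Units.coe_prod]
    exact hlt l hl a b hab
  have hU0 : ∀ l a b, B.valuation (x' l a b) = 1 → 0 ≤ Φ (U a b) := by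
    intro l a b hab
    rw [hΦU, sub_nonneg, hwsum, hwsum, Additive.ofMul_le, ← Units.val_le_val, Units.coe_prod,
      Units.coe_prod]
    exact hle l a b hab
  obtain ⟨ψ, hψ, hψ0⟩ := gordan2 Φ ((Finset.univ : Finset ((ι → α) × (ι → α))).filter
    (fun p => ∃ l ∈ Z, B.valuation (x' l p.1 p.2) = 1) |>.image fun p => U p.1 p.2)
    ((Finset.univ : Finset ((ι → α) × (ι → α))).filter
    (fun p => ∃ l, B.valuation (x' l p.1 p.2) = 1) |>.image fun p => U p.1 p.2) (by
      intro n hn
      obtain ⟨p, hp, rfl⟩ := Finset.mem_image.1 hn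
      obtain ⟨l, hl, hp2⟩ := (Finset.mem_filter.1 hp).2
      exact hU l hl _ _ hp2) (by
      intro n hn
      obtain ⟨p, hp, rfl⟩ := Finset.mem_image.1 hn
      obtain ⟨l, hp2⟩ := (Finset.mem_filter.1 hp).2
      exact hU0 l _ _ hp2)
  -- the reduction
  let κ : K →+* B := (φ.comp (algebraMap K (BG (c0 α) ℚ → K))).codRestrict B.toSubring hK
  let vB : (Matrix α α B)ˣ :=
    { val := Matrix.of fun i j => ⟨(v : Matrix α α L) i j, hv1 i j⟩
      inv := Matrix.of fun i j => ⟨((v⁻¹ : (Matrix α α L)ˣ) : Matrix α α L) i j, hv2 i j⟩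
      val_inv := by
        refine Matrix.map_injective (f := B.subtype) Subtype.val_injective ?_
        beta_reduce
        rw [Matrix.map_mul, Matrix.map_one _ (map_zero _) (map_one _)]
        exact Units.mul_inv v
      inv_val := by
        refine Matrix.map_injective (f := B.subtype) Subtype.val_injective ?_
        beta_reduce
        rw [Matrix.map_mul, Matrix.map_one _ (map_zero _) (map_one _)]
        exact Units.inv_mul v }
  let g : (Matrix α α (IsLocalRing.ResidueField B))ˣ :=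
    Units.map (RingHom.mapMatrix (IsLocalRing.residue B) : Matrix α α B →+*
      Matrix α α (IsLocalRing.ResidueField B)).toMonoidHom vB
  have hred : ∀ l a b, cj g⁻¹ ((x l).map ((IsLocalRing.residue B).comp κ)) a b ≠ 0 →
      B.valuation (x' l a b) = 1 := by
    intro l a b hab
    have h1 : cj g⁻¹ ((x l).map ((IsLocalRing.residue B).comp κ)) =
        (cj vB⁻¹ ((x l).map κ)).map (IsLocalRing.residue B) := by
      rw [cj_map_hom, map_inv]
      rfl
    have h2 : (cj vB⁻¹ ((x l).map κ)).map B.subtype = x' l := by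
      rw [cj_map_hom, map_inv]
      refine congrArg₂ cj (congrArg _ ?_) ?_
      · ext i j
        rfl
      · ext i j
        rfl
    rw [h1, Matrix.map_apply, IsLocalRing.residue_ne_zero_iff_isUnit] at hab
    rw [← h2, Matrix.map_apply]
    exact (ValuationSubring.valuation_eq_one_iff B _).1 hab
  have hψU : ∀ a b : ι → α, ψ (U a b) = (∑ s, ψ (Pi.single (a s) 1)) - ∑ s, ψ (Pi.single (b s) 1) := by
    intro a b
    rw [map_sub, map_sum, map_sum]
  refine ⟨IsLocalRing.ResidueField B, inferInstance, (IsLocalRing.residue B).comp κ, g,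
    fun r => ((ψ (Pi.single r 1) : ℤ) : ℝ), ?_, ?_⟩
  · rintro _ ⟨l, rfl⟩ a b hab
    have h3 := hred l a b hab
    have h4 := hψ0 (U a b) (Finset.mem_image.2 ⟨(a, b),
      Finset.mem_filter.2 ⟨Finset.mem_univ _, l, h3⟩, rfl⟩)
    rw [hψU] at h4
    unfold wt
    beta_reduce
    exact_mod_cast h4
  · rintro _ ⟨l, hl, rfl⟩ a b hab
    have h3 := hred l a b hab
    have h4 := hψ (U a b) (Finset.mem_image.2 ⟨(a, b),
      Finset.mem_filter.2 ⟨Finset.mem_univ _, l, hl, h3⟩, rfl⟩)
    rw [hψU] at h4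
    have h6 : (1 : ℤ) ≤ (∑ s, ψ (Pi.single (a s) 1)) - ∑ s, ψ (Pi.single (b s) 1) := h4
    unfold wt
    beta_reduce
    exact_mod_cast h6

end H13F
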