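import Pool.Agent.W_f569db_h13.Kempf2
import Pool.Agent.W_f569db_h69.ExistsPos

/-!
# From an arbitrary extension field to the algebraic closure (Nullstellensatz)
-/

set_option linter.unusedSectionVars false

namespace H13F

open H69 Matrix Finset

variable {α : Type*} [Fintype α] [DecidableEq α] {ι : Type*} [Fintype ι] [DecidableEq ι]

/-- A destabilising weighted basis over an extension field gives one over the algebraic closure.

Proof.  Make `F` a `K`-algebra by `θ`.  Let `R ⊆ F` be the `K`-subalgebra generated by the (finitely many)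
entries of `g` and `g⁻¹` (`Algebra.adjoin`, a finitely generated algebra).  Let `M` be a maximal ideal of
`R`.  `R ⧸ M` is a field which is finitely generated as `K`-algebra, so it is finite over `K` (Zariski's
lemma, `finite_of_finite_type_of_isJacobsonRing`), so there is a `K`-embedding into the algebraic closure
(`IsAlgClosed.lift`).  Let `ρ : R →ₐ[K] AlgebraicClosure K` be the composition.  `g` comes from a unit
`gR` of `Matrix α α R`; let `g'` be its image under `ρ`.  By `cj_map_hom` the entries of
`cj g⁻¹ ((x l).map θ)` are the images of those of `cj gR⁻¹ ((x l).map (algebraMap K R))` under the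
inclusion and the entries of `cj g'⁻¹ ((x l).map algebraMap)` are their images under `ρ`. So if the
latter is not zero, then the former is not zero. -/
theorem spread {K : Type*} [Field K] {Λ : Type*} (x : Λ → Matrix (ι → α) (ι → α) K) (Z : Set Λ)
    {F : Type*} [Field F] (θ : K →+* F) (g : (Matrix α α F)ˣ) (ξ : α → ℝ)
    (h : PosS (Set.range fun l => (x l).map θ) ((fun l => (x l).map θ) '' Z) g ξ) :
    ∃ g' : (Matrix α α (AlgebraicClosure K))ˣ,
      PosS (Set.range fun l => (x l).map (algebraMap K (AlgebraicClosure K)))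
        ((fun l => (x l).map (algebraMap K (AlgebraicClosure K))) '' Z) g' ξ := by
  classical
  letI : Algebra K F := θ.toAlgebra
  let s : Finset F := (Finset.univ.image fun p : α × α => (g : Matrix α α F) p.1 p.2) ∪
    Finset.univ.image fun p : α × α => ((g⁻¹ : (Matrix α α F)ˣ) : Matrix α α F) p.1 p.2
  let R : Subalgebra K F := Algebra.adjoin K (s : Set F)
  have hft : Algebra.FiniteType K R := (Subalgebra.fg_iff_finiteType R).1 (Subalgebra.fg_adjoin_finset s)
  have hg : ∀ i j, (g : Matrix α α F) i j ∈ R := fun i j => Algebra.subset_adjoin (by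
    rw [Finset.mem_coe]
    exact Finset.mem_union_left _ (Finset.mem_image.2 ⟨(i, j), Finset.mem_univ _, rfl⟩))
  have hg' : ∀ i j, ((g⁻¹ : (Matrix α α F)ˣ) : Matrix α α F) i j ∈ R :=
    fun i j => Algebra.subset_adjoin (by
    rw [Finset.mem_coe]
    exact Finset.mem_union_right _ (Finset.mem_image.2 ⟨(i, j), Finset.mem_univ _, rfl⟩))
  obtain ⟨M, hM⟩ := Ideal.exists_maximal R
  letI : Field (R ⧸ M) := Ideal.Quotient.field M
  have hft2 : Algebra.FiniteType K (R ⧸ M) := inferInstance
  have hfin : Module.Finite K (R ⧸ M) := finite_of_finite_type_of_isJacobsonRing K (R ⧸ M)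
  let e : (R ⧸ M) →ₐ[K] AlgebraicClosure K := IsAlgClosed.lift
  let ρ : R →ₐ[K] AlgebraicClosure K := e.comp (Ideal.Quotient.mkₐ K M)
  let gR : (Matrix α α R)ˣ :=
    { val := Matrix.of fun i j => ⟨(g : Matrix α α F) i j, hg i j⟩
      inv := Matrix.of fun i j => ⟨((g⁻¹ : (Matrix α α F)ˣ) : Matrix α α F) i j, hg' i j⟩
      val_inv := by
        refine Matrix.map_injective (f := R.subtype) Subtype.val_injective ?_
        beta_reduce
        rw [Matrix.map_mul, Matrix.map_one _ (map_zero _) (map_one _)]
        exact Units.mul_inv g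
      inv_val := by
        refine Matrix.map_injective (f := R.subtype) Subtype.val_injective ?_
        beta_reduce
        rw [Matrix.map_mul, Matrix.map_one _ (map_zero _) (map_one _)]
        exact Units.inv_mul g }
  let g' : (Matrix α α (AlgebraicClosure K))ˣ :=
    Units.map (RingHom.mapMatrix (ρ : R →+* AlgebraicClosure K)).toMonoidHom gR
  have key1 : ∀ l a b, cj g⁻¹ ((x l).map θ) a b =
      ((cj gR⁻¹ ((x l).map (algebraMap K R)) a b : R) : F) := by
    intro l a b
    have h1 := cj_map_hom (R.subtype : R →+* F) gR⁻¹ ((x l).map (algebraMap K R))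
    rw [map_inv] at h1
    have h2 := congrFun (congrFun h1 a) b
    rw [Matrix.map_apply] at h2
    refine Eq.trans ?_ h2.symm
    refine congrFun (congrFun (congrArg₂ cj (congrArg _ ?_) ?_) a) b
    · ext i j
      rfl
    · ext i j
      rfl
  have key2 : ∀ l a b, cj g'⁻¹ ((x l).map (algebraMap K (AlgebraicClosure K))) a b =
      ρ (cj gR⁻¹ ((x l).map (algebraMap K R)) a b) := by
    intro l a b
    have h1 := cj_map_hom (ρ : R →+* AlgebraicClosure K) gR⁻¹ ((x l).map (algebraMap K R))
    rw [map_inv] at h1
    have h2 := congrFun (congrFun h1 a) b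
    rw [Matrix.map_apply] at h2
    refine Eq.trans ?_ h2.symm
    refine congrFun (congrFun (congrArg₂ cj rfl ?_) a) b
    ext i j
    simp
  have key : ∀ l a b, cj g'⁻¹ ((x l).map (algebraMap K (AlgebraicClosure K))) a b ≠ 0 →
      cj g⁻¹ ((x l).map θ) a b ≠ 0 := by
    intro l a b h0 h1
    apply h0
    rw [key1] at h1
    have h2 : cj gR⁻¹ ((x l).map (algebraMap K R)) a b = 0 := Subtype.ext h1
    rw [key2, h2, map_zero]
  refine ⟨g', ?_, ?_⟩
  · rintro _ ⟨l, rfl⟩ a b hab
    exact h.1 _ ⟨l, rfl⟩ a b (key l a b hab)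
  · rintro _ ⟨l, hl, rfl⟩ a b hab
    exact h.2 _ ⟨l, hl, rfl⟩ a b (key l a b hab)

end H13F
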