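import Pool.Agent.W_f569db_h13.NoUnit3
import Pool.Agent.W_f569db_h13.ExistsPos2
import Pool.Agent.W_f569db_h13.Spread
import Pool.Agent.W_f569db_h13.Descent

/-!
# Core theorem over `K`: a family of operators is destabilised by a weighted basis over `K`
-/

set_option linter.unusedSectionVars false

universe u

namespace H13F

open H69 Matrix Finset

variable {α : Type} [Fintype α] [DecidableEq α]

/-- the image of a family over the algebraic closure -/
noncomputable abbrev famL {ι : Type} {K : Type u} [Field K] {Λ : Type*} (x : Λ → Matrix (ι → α) (ι → α) K) (l : Λ) :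
    Matrix (ι → α) (ι → α) (AlgebraicClosure K) := (x l).map (algebraMap K (AlgebraicClosure K))

/-- extension of scalars for a basis -/
noncomputable abbrev unitL {K : Type u} [Field K] (h : (Matrix α α K)ˣ) : (Matrix α α (AlgebraicClosure K))ˣ :=
  Units.map (RingHom.mapMatrix (algebraMap K (AlgebraicClosure K))).toMonoidHom h

theorem cj_unitL {ι : Type} [Fintype ι] [DecidableEq ι] {K : Type u} [Field K] (h : (Matrix α α K)ˣ)
    (y : Matrix (ι → α) (ι → α) K) :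
    cj (unitL h)⁻¹ (y.map (algebraMap K (AlgebraicClosure K))) =
      (cj h⁻¹ y).map (algebraMap K (AlgebraicClosure K)) := by
  have h1 := cj_map_hom (algebraMap K (AlgebraicClosure K)) h⁻¹ y
  rw [map_inv] at h1
  exact h1.symm

/-- `PosS` does not change under extension of scalars -/
theorem posS_unitL {ι : Type} [Fintype ι] [DecidableEq ι] {K : Type u} [Field K] {Λ : Type*} (Z : Set Λ)
    (x : Λ → Matrix (ι → α) (ι → α) K) (h : (Matrix α α K)ˣ) (ξ : α → ℝ) :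
    PosS (Set.range (famL x)) (famL x '' Z) (unitL h) ξ ↔ PosS (Set.range x) (x '' Z) h ξ := by
  constructor
  · rintro ⟨h1, h2⟩
    refine ⟨?_, ?_⟩
    · rintro _ ⟨l, rfl⟩ a b hab
      refine h1 _ ⟨l, rfl⟩ a b fun h0 => hab ?_
      rw [cj_unitL, Matrix.map_apply] at h0
      exact (map_eq_zero _).1 h0
    · rintro _ ⟨l, hl, rfl⟩ a b hab
      refine h2 _ ⟨l, hl, rfl⟩ a b fun h0 => hab ?_
      rw [cj_unitL, Matrix.map_apply] at h0
      exact (map_eq_zero _).1 h0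
  · rintro ⟨h1, h2⟩
    refine ⟨?_, ?_⟩
    · rintro _ ⟨l, rfl⟩ a b hab
      refine h1 _ ⟨l, rfl⟩ a b fun h0 => hab ?_
      rw [cj_unitL, Matrix.map_apply, h0, map_zero]
    · rintro _ ⟨l, hl, rfl⟩ a b hab
      refine h2 _ ⟨l, hl, rfl⟩ a b fun h0 => hab ?_
      rw [cj_unitL, Matrix.map_apply, h0, map_zero]

/-- A minimal weighted flag over the algebraic closure descends to `K`. -/
theorem descend_minimal {ι : Type} [Fintype ι] [DecidableEq ι] {K : Type u} [Field K] [CharZero K]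
    {Λ : Type*} (Z : Set Λ) (x : Λ → Matrix (ι → α) (ι → α) K)
    {g₁ : (Matrix α α (AlgebraicClosure K))ˣ} {ξ₁ : α → ℝ}
    (hP₁ : PosS (Set.range (famL x)) (famL x '' Z) g₁ ξ₁)
    (hmin : ∀ (g' : (Matrix α α (AlgebraicClosure K))ˣ) (ξ' : α → ℝ),
      PosS (Set.range (famL x)) (famL x '' Z) g' ξ' → ∑ r, ξ₁ r ^ 2 ≤ ∑ r, ξ' r ^ 2) :
    ∃ (h : (Matrix α α K)ˣ) (η : α → ℝ), PosS (Set.range x) (x '' Z) h η ∧
      Same (unitL h) η g₁ ξ₁ := by
  classical
  -- Galois invariance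
  let T : Set (AlgebraicClosure K ≃+* AlgebraicClosure K) :=
    Set.range fun τ : AlgebraicClosure K ≃ₐ[K] AlgebraicClosure K => (τ : AlgebraicClosure K ≃+* _)
  obtain ⟨h, η, hs⟩ := descent_flag (K := K) T (by
      rintro _ ⟨τ, rfl⟩ y
      exact τ.commutes y) (by
      intro y hy
      have : IsGalois K (AlgebraicClosure K) := inferInstance
      rw [InfiniteGalois.mem_range_algebraMap_iff_fixed]
      intro τ
      exact hy _ ⟨τ, rfl⟩) g₁ ξ₁ (by
      rintro _ ⟨τ, rfl⟩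
      refine unique_minimal2 _ _ hP₁ ?_ hmin le_rfl
      have key : ∀ y : Matrix (ι → α) (ι → α) K,
          cj (Units.map (RingHom.mapMatrix (((τ : AlgebraicClosure K ≃+* AlgebraicClosure K)) :
            AlgebraicClosure K →+* AlgebraicClosure K)).toMonoidHom g₁)⁻¹
            (y.map (algebraMap K (AlgebraicClosure K))) =
          (cj g₁⁻¹ (y.map (algebraMap K (AlgebraicClosure K)))).map τ := by
        intro y
        have h1 := cj_map_hom (((τ : AlgebraicClosure K ≃+* AlgebraicClosure K)) :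
            AlgebraicClosure K →+* AlgebraicClosure K) g₁⁻¹
            (y.map (algebraMap K (AlgebraicClosure K)))
        rw [map_inv] at h1
        refine Eq.trans ?_ h1.symm
        congr 1
        ext a b
        simp
      refine ⟨?_, ?_⟩
      · rintro _ ⟨l, rfl⟩ a b hab
        refine hP₁.1 _ ⟨l, rfl⟩ a b fun h0 => hab ?_
        rw [key, Matrix.map_apply, h0, map_zero]
      · rintro _ ⟨l, hl, rfl⟩ a b hab
        refine hP₁.2 _ ⟨l, hl, rfl⟩ a b fun h0 => hab ?_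
        rw [key, Matrix.map_apply, h0, map_zero])
  exact ⟨h, η, (posS_unitL Z x h η).1 (hP₁.of_same hs.symm), hs⟩

/-- Let `x_λ` be operators on `V^{⊗ ι}` such that all traces `Tr(P_σ (x_{λ_0} ⊗ ⋯ ⊗ x_{λ_d}))` with at least
one `λ_k ∈ Z` vanish.  Then there is a weighted basis of `V`, over `K`, in which the `x_λ` have weights
`≥ 0` and the `x_λ`, `λ ∈ Z`, have weights `≥ 1`. -/
theorem core_K {ι : Type} [Fintype ι] [DecidableEq ι] {K : Type u} [Field K] [CharZero K]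
    {Λ : Type*} (Z : Set Λ) (x : Λ → Matrix (ι → α) (ι → α) K)
    (htr : ∀ (d : ℕ) (v : Fin (d + 1) → Λ), (∃ k, v k ∈ Z) →
      ∀ (σ : Equiv.Perm (Fin (d + 1) × ι)),
      ∑ a : Fin (d + 1) × ι → α, ∏ k, x (v k) (fun s => a (k, s)) (fun s => a (σ (k, s))) = 0) :
    ∃ (h : (Matrix α α K)ˣ) (ξ : α → ℝ), PosS (Set.range x) (x '' Z) h ξ := by
  classical
  obtain ⟨F, _, θ, g, ξ, hP⟩ := exists_pos2 Z x (fun A hA => no_unit3 Z x htr A hA)
  obtain ⟨g', hP'⟩ := spread x Z θ g ξ hP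
  obtain ⟨g₁, ξ₁, hP₁, hmin⟩ := exists_minimal2 _ _ ⟨g', ξ, hP'⟩
  obtain ⟨h, η, h1, -⟩ := descend_minimal Z x hP₁ hmin
  exact ⟨h, η, h1⟩

/-- A weighted flag over `K` which is minimal over `K` is minimal over the algebraic closure. -/
theorem minimal_unitL {ι : Type} [Fintype ι] [DecidableEq ι] {K : Type u} [Field K] [CharZero K]
    {Λ : Type*} (Z : Set Λ) (x : Λ → Matrix (ι → α) (ι → α) K) {h : (Matrix α α K)ˣ} {ξ : α → ℝ}
    (hP : PosS (Set.range x) (x '' Z) h ξ)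
    (hmin : ∀ (g' : (Matrix α α K)ˣ) (ξ' : α → ℝ),
      PosS (Set.range x) (x '' Z) g' ξ' → ∑ r, ξ r ^ 2 ≤ ∑ r, ξ' r ^ 2)
    (g' : (Matrix α α (AlgebraicClosure K))ˣ) (ξ' : α → ℝ)
    (hP' : PosS (Set.range (famL x)) (famL x '' Z) g' ξ') : ∑ r, ξ r ^ 2 ≤ ∑ r, ξ' r ^ 2 := by
  obtain ⟨g₁, ξ₁, hP₁, hmin₁⟩ := exists_minimal2 _ _ ⟨unitL h, ξ, (posS_unitL Z x h ξ).2 hP⟩
  obtain ⟨h', η, h1, h2⟩ := descend_minimal Z x hP₁ hmin₁
  have e1 : ∑ r, η r ^ 2 = ∑ r, ξ₁ r ^ 2 := by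
    obtain ⟨τ, hτ⟩ := h2.exists_perm
    simp only [hτ]
    exact (Equiv.sum_comp τ (fun r => η r ^ 2)).symm
  calc ∑ r, ξ r ^ 2 ≤ ∑ r, η r ^ 2 := hmin _ _ h1
    _ = ∑ r, ξ₁ r ^ 2 := e1
    _ ≤ _ := hmin₁ _ _ hP'

end H13F
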