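import Pool.Agent.W_f569db_h13.SymConv
import Pool.Agent.W_f569db_h13.DetRel
import Pool.Agent.W_f569db_h13.Main
import Pool.Agent.W_f569db_h13.Canon2

set_option autoImplicit false

/-!
# Determinants on the steps of a filtration
-/

noncomputable section

namespace H13F

open AlgebraicGeometry CategoryTheory MonoidalCategory
open scoped TensorProduct DirectSum
open Pool.Agent.WeilH_h6 Pool.Agent.WeilH_h6.VarClass Pool.Agent.WeilH_h6.Weil

universe u v w

section lin

variable {K : Type*} [Field K] {V : Type*} [AddCommGroup V] [Module K V] {α : Type*} [Fintype α]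
  [DecidableEq α]

/-- the coordinates of the elements of a subspace spanned by basis vectors -/
def subEquiv (v : Module.Basis α K V) (p : α → Prop) [DecidablePred p] (U : Submodule K V)
    (hU : ∀ x, x ∈ U ↔ ∀ i, v.repr x i ≠ 0 → p i) : U ≃ₗ[K] ({i // p i} → K) where
  toFun x i := v.repr (x : V) i
  map_add' x y := by
    funext i
    rw [Submodule.coe_add, map_add]; rfl
  map_smul' c x := by
    funext i
    rw [Submodule.coe_smul, map_smul]; rfl
  invFun c := ⟨∑ i : {i // p i}, c i • v i, by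
    refine Submodule.sum_mem _ fun i _ => Submodule.smul_mem _ _ ?_
    rw [hU]
    intro j hj
    rw [v.repr_self] at hj
    by_cases hij : (i : α) = j
    · rw [← hij]; exact i.2
    · exact absurd (Finsupp.single_eq_of_ne (Ne.symm hij)) hj⟩
  left_inv x := by
    apply Subtype.ext
    change ∑ i : {i // p i}, (fun i => v.repr (x : V) i • v i) i = x
    conv_rhs => rw [← v.sum_repr (x : V)]
    rw [← Finset.sum_subtype (Finset.univ.filter p) (p := p) (fun x => by simp)
      fun i => v.repr (x : V) i • v i]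
    refine Finset.sum_filter_of_ne fun i _ hi => ?_
    exact (hU x).1 x.2 i fun h0 => hi (by rw [h0, zero_smul])
  right_inv c := by
    funext j
    change v.repr (∑ i : {i // p i}, c i • v i) j = c j
    rw [map_sum, Finsupp.finsetSum_apply, Finset.sum_eq_single j]
    · rw [map_smul, Finsupp.smul_apply, v.repr_self, Finsupp.single_eq_same, smul_eq_mul, mul_one]
    · intro i _ hij
      rw [map_smul, Finsupp.smul_apply, v.repr_self, Finsupp.single_eq_of_ne
        (fun h => hij (Subtype.ext h.symm)), smul_zero]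
    · intro h; exact absurd (Finset.mem_univ _) h

theorem det_restrict_block (v : Module.Basis α K V) (φ : V →ₗ[K] V) (p : α → Prop) [DecidablePred p]
    (U : Submodule K V) (hU : ∀ x, x ∈ U ↔ ∀ i, v.repr x i ≠ 0 → p i) (hφ : ∀ x ∈ U, φ x ∈ U) :
    LinearMap.det (φ.restrict hφ) = ((LinearMap.toMatrix v v φ).toSquareBlockProp p).det := by
  let w : Module.Basis {i // p i} K U := Module.Basis.ofEquivFun (subEquiv v p U hU)
  rw [← LinearMap.det_toMatrix w]
  congr 1
  ext i j
  rw [LinearMap.toMatrix_apply]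
  have h1 : ((w j : U) : V) = v j := by
    have h2 : w j = (subEquiv v p U hU).symm (Pi.single j 1) := by
      change (Module.Basis.ofEquivFun (subEquiv v p U hU)) j = _
      rw [Module.Basis.coe_ofEquivFun]
    rw [h2]
    change ∑ i : {i // p i}, (Pi.single j (1 : K) : {i // p i} → K) i • v i = v j
    rw [Finset.sum_eq_single j]
    · rw [Pi.single_eq_same, one_smul]
    · intro i _ hij
      rw [Pi.single_eq_of_ne hij, zero_smul]
    · intro h; exact absurd (Finset.mem_univ _) h
  have h2 : w.repr ((φ.restrict hφ) (w j)) i = v.repr (φ (w j : V)) i := rfl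
  rw [h2, h1]
  change _ = (LinearMap.toMatrix v v φ) i j
  rw [LinearMap.toMatrix_apply]

end lin

variable {k : Type u} [Field k] {𝒱 : VarClass k} {K : Type v} [Field K] {W : Weil.{u, v, w} 𝒱 K}

/-- the determinants on a subspace and on its orthogonal complement -/
theorem det_orth {X : 𝒱.Obj} {α : Type*} [Fintype α] [DecidableEq α] (v : Module.Basis α K (W.H X))
    (φ : W.H X →ₗ[K] W.H X) (hφ : ∀ x y, W.tr X (φ x * φ y) = W.tr X (x * y)) (p : α → Prop)
    [DecidablePred p] (U U' : Submodule K (W.H X)) (hU : ∀ x, x ∈ U ↔ ∀ i, v.repr x i ≠ 0 → p i)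
    (hU' : ∀ x, x ∈ U' ↔ ∀ y ∈ U, W.tr X (x * y) = 0) (h : ∀ x ∈ U, φ x ∈ U)
    (h' : ∀ x ∈ U', φ x ∈ U') :
    LinearMap.det (φ.restrict h') * LinearMap.det φ = LinearMap.det (φ.restrict h) := by
  let w : Module.Basis α K (W.H X) := v.dualBasis.map (W.pd X).symm
  have hw : ∀ i x, W.tr X (w i * x) = v.repr x i := by
    intro i x
    have h1 : w i = (W.pd X).symm (v.coord i) := by
      change (v.dualBasis.map (W.pd X).symm) i = _
      rw [Module.Basis.map_apply, Module.Basis.coe_dualBasis]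
    rw [h1, ← W.pd_apply, LinearEquiv.apply_symm_apply]
    rfl
  have hwr : ∀ x i, w.repr x i = W.tr X (x * v i) := by
    intro x i
    conv_rhs => rw [← w.sum_repr x]
    rw [Finset.sum_mul, map_sum, Finset.sum_eq_single i]
    · rw [smul_mul_assoc, map_smul, hw, v.repr_self, Finsupp.single_eq_same, smul_eq_mul, mul_one]
    · intro j _ hj
      rw [smul_mul_assoc, map_smul, hw, v.repr_self, Finsupp.single_eq_of_ne hj,
        smul_zero]
    · intro h; exact absurd (Finset.mem_univ _) h
  have hvU : ∀ i, p i → v i ∈ U := by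
    intro i hi
    rw [hU]
    intro j hj
    rw [v.repr_self] at hj
    by_cases hij : i = j
    · rw [← hij]; exact hi
    · exact absurd (Finsupp.single_eq_of_ne (Ne.symm hij)) hj
  have hU'2 : ∀ x, x ∈ U' ↔ ∀ i, w.repr x i ≠ 0 → ¬ p i := by
    intro x
    rw [hU']
    constructor
    · intro hx i hi hpi
      rw [hwr] at hi
      exact hi (hx _ (hvU i hpi))
    · intro hx y hy
      rw [← v.sum_repr y, Finset.mul_sum, map_sum]
      refine Finset.sum_eq_zero fun i _ => ?_
      rw [mul_smul_comm, map_smul, smul_eq_mul]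
      by_contra h0
      have h1 := (hU y).1 hy i (left_ne_zero_of_mul h0)
      have h2 := right_ne_zero_of_mul h0
      rw [← hwr] at h2
      exact hx i h2 h1
  let C := LinearMap.toMatrix v v φ
  let D := LinearMap.toMatrix w w φ
  have hC : ∀ i j, C i j = v.repr (φ (v j)) i := fun i j => LinearMap.toMatrix_apply v v φ i j
  have hD : ∀ i j, D i j = w.repr (φ (w j)) i := fun i j => LinearMap.toMatrix_apply w w φ i j
  have hDC : ∀ r s, ∑ a, D a r * C a s = if r = s then 1 else 0 := by
    intro r s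
    have h1 : W.tr X (φ (w r) * φ (v s)) = ∑ a, D a r * C a s := by
      conv_lhs => rw [← w.sum_repr (φ (w r))]
      rw [Finset.sum_mul, map_sum]
      refine Finset.sum_congr rfl fun a _ => ?_
      rw [smul_mul_assoc, map_smul, hw, smul_eq_mul, hD, hC]
    rw [← h1, hφ, hw, v.repr_self, Finsupp.single_apply]
    simp only [eq_comm]
  have hblock : (D.toSquareBlockProp fun i => ¬ p i).transpose * (C.toSquareBlockProp fun i => ¬ p i)
      = 1 := by
    ext r s
    rw [Matrix.mul_apply]
    change ∑ a : {i // ¬ p i}, (fun a => D a r * C a s) a = _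
    rw [sum_sub (q := fun i => ¬ p i) (fun a => D a r * C a s), hDC, Matrix.one_apply]
    · simp only [Subtype.ext_iff]
    · intro a ha
      have h1 : D a r ≠ 0 := left_ne_zero_of_mul ha
      rw [hD] at h1
      have h2 : w r ∈ U' := by
        rw [hU'2]
        intro j hj
        rw [w.repr_self] at hj
        by_cases hrj : (r : α) = j
        · rw [← hrj]; exact r.2
        · exact absurd (Finsupp.single_eq_of_ne (Ne.symm hrj)) hj
      exact (hU'2 _).1 (h' _ h2) a h1
  have h1 : (D.toSquareBlockProp fun i => ¬ p i).det * (C.toSquareBlockProp fun i => ¬ p i).det = 1 := by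
    have h2 := congrArg Matrix.det hblock
    rwa [Matrix.det_mul, Matrix.det_transpose, Matrix.det_one] at h2
  have h2 : C.det = (C.toSquareBlockProp p).det * (C.toSquareBlockProp fun i => ¬ p i).det := by
    refine Matrix.twoBlockTriangular_det C p fun i hi j hj => ?_
    rw [hC]
    by_contra h0
    exact hi ((hU _).1 (h _ (hvU j hj)) i h0)
  have h3 : LinearMap.det φ = C.det := (LinearMap.det_toMatrix v φ).symm
  rw [det_restrict_block v φ p U hU h, det_restrict_block w φ (fun i => ¬ p i) U' hU'2 h', h3, h2]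
  change (D.toSquareBlockProp fun i => ¬ p i).det * ((C.toSquareBlockProp p).det *
    (C.toSquareBlockProp fun i => ¬ p i).det) = (C.toSquareBlockProp p).det
  linear_combination (C.toSquareBlockProp p).det * h1

/-- The determinant relation for the steps of the canonical filtration. -/
theorem det_torsion_fil [CharZero K] {X : 𝒱.Obj} {hpar : W.par X ∈ W.algHom X X} {n : ℕ}
    (hn : 2 ≤ n) {r : ℕ} (B : NWB (W := W) (X := X) hpar n (Fin r)) (ζ : Fin r → ℤ)
    (hζ : ∀ i, B.ξ i = ζ i) (φ : W.H X →ₗ[K] W.H X)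
    (hφ : ∀ x y, W.tr X (φ x * φ y) = W.tr X (x * y))
    (hst : ∀ t : ℤ, ∀ x ∈ B.Fil t, φ x ∈ B.Fil t)
    (hdet : ∀ δ : Matrix (Fin r) (Fin r) K, (∀ j, φ (B.v j) = ∑ i, δ i j • B.v i) → ∀ T : ℕ,
      (∀ r, -(T : ℤ) ≤ ζ r ∧ ζ r ≤ T) → ∃ N : ℕ, 0 < N ∧
        (∏ t ∈ Finset.Ioc (-(T : ℤ)) T, (δ.toSquareBlockProp fun r => t ≤ ζ r).det) ^ N = 1)
    (T : ℕ) (hT : B.Fil (((T : ℤ) + 1 : ℤ) : ℝ) = ⊥) :
    ∃ N : ℕ, 0 < N ∧
      (∏ t ∈ Finset.range T, LinearMap.det (φ.restrict (hst ((t : ℤ) + 1)))) ^ N = 1 := by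
  classical
  -- the basis
  let b := B.basis
  have hmem : ∀ (t : ℤ) x, x ∈ B.Fil t ↔ ∀ i, b.repr x i ≠ 0 → t ≤ ζ i := by
    intro t x
    rw [NWB.mem_Fil]
    constructor
    · intro hx i hi
      by_contra hlt
      have hlt' : ζ i < t := not_le.1 hlt
      apply hi
      change B.basis.repr x i = 0
      rw [NWB.basis_repr]
      refine hx i ?_
      rw [hζ]; exact_mod_cast hlt'
    · intro hx i hi
      by_contra h0
      have h1 := hx i (by change B.basis.repr x i ≠ 0; rw [NWB.basis_repr]; exact h0)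
      rw [hζ] at hi
      have h2 : ζ i < t := by exact_mod_cast hi
      omega
  -- bounds for the weights
  have hvmem : ∀ i, B.v i ∈ B.Fil (ζ i : ℝ) := by
    intro i
    rw [← hζ]; exact B.v_mem i
  have hv0 : ∀ i, B.v i ≠ 0 := by
    intro i h0
    have h1 := B.one i
    rw [h0, zero_mul, map_zero] at h1
    exact zero_ne_one h1
  have hle : ∀ i, ζ i ≤ T := by
    intro i
    by_contra hlt
    have hlt' : (T : ℤ) + 1 ≤ ζ i := by omega
    have h1 : B.v i ∈ B.Fil (((T : ℤ) + 1 : ℤ) : ℝ) :=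
      B.Fil_anti (by exact_mod_cast hlt') (hvmem i)
    rw [hT, Submodule.mem_bot] at h1
    exact hv0 i h1
  have hge : ∀ i, -(T : ℤ) ≤ ζ i := by
    intro i
    by_contra hlt
    have hlt' : (T : ℤ) + 1 ≤ -ζ i := by omega
    have h1 : B.v' i ∈ B.Fil (((T : ℤ) + 1 : ℤ) : ℝ) := by
      refine B.Fil_anti ?_ (B.v'_mem hn i)
      rw [hζ]
      exact_mod_cast hlt'
    rw [hT, Submodule.mem_bot] at h1
    have h2 := B.one i
    rw [h1, mul_zero, map_zero] at h2
    exact zero_ne_one h2
  -- the block determinants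
  have hδ : ∀ j, φ (B.v j) = ∑ i, (LinearMap.toMatrix b b φ) i j • B.v i := by
    intro j
    have h1 := b.sum_repr (φ (b j))
    have h2 : ∀ i, b i = B.v i := fun i => NWB.basis_apply B i
    simp only [LinearMap.toMatrix_apply, h2] at h1 ⊢
    exact h1.symm
  obtain ⟨N, hN, hN2⟩ := hdet _ hδ T fun i => ⟨hge i, hle i⟩
  let bd : ℤ → K := fun t => ((LinearMap.toMatrix b b φ).toSquareBlockProp fun r => t ≤ ζ r).det
  have hbd : ∀ t : ℤ, LinearMap.det (φ.restrict (hst t)) = bd t := fun t =>
    det_restrict_block b φ (fun i => t ≤ ζ i) (B.Fil t) (hmem t) (hst t)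
  have horth : ∀ (t : ℤ) x, x ∈ B.Fil ((1 - t : ℤ) : ℝ) ↔ ∀ y ∈ B.Fil (t : ℝ), W.tr X (x * y) = 0 := by
    intro t x
    rw [B.orth hn]
    constructor
    · intro hx
      exact ⟨((1 - t : ℤ) : ℝ), by push_cast; linarith, hx⟩
    · rintro ⟨s, hs, hx⟩
      rw [hmem]
      intro i hi
      have h1 : s ≤ ζ i := by
        by_contra hlt
        rw [NWB.mem_Fil] at hx
        apply hi
        change B.basis.repr x i = 0
        rw [NWB.basis_repr]
        exact hx i (by rw [hζ]; exact not_le.1 hlt)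
      have h2 : (-t : ℝ) < ζ i := lt_of_lt_of_le hs h1
      have h3 : -t < ζ i := by exact_mod_cast h2
      omega
  have hdual : ∀ t : ℤ, bd (1 - t) * LinearMap.det φ = bd t := by
    intro t
    rw [← hbd, ← hbd]
    exact det_orth b φ hφ (fun i => t ≤ ζ i) (B.Fil t) (B.Fil ((1 - t : ℤ) : ℝ)) (hmem t) (horth t)
      (hst t) (hst (1 - t))
  have hd2 : LinearMap.det φ ^ 2 = 1 := by
    choose b' hb' using fun j => exists_dual (W := W) X (b.coord j)
    rw [← LinearMap.det_toMatrix b φ]
    refine det_sq (b := b) (b' := b') (fun i j => ?_) (fun x => ?_) (φ := φ) hφ _ (fun j => ?_)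
    · rw [hb', b.coord_apply, b.repr_self, Finsupp.single_apply]
    · rw [b.span_eq]; exact Submodule.mem_top
    · have h1 := b.sum_repr (φ (b j))
      simp only [LinearMap.toMatrix_apply]
      exact h1.symm
  -- the product
  have hprod : ∏ t ∈ Finset.Ioc (-(T : ℤ)) T, bd t =
      ∏ t ∈ Finset.range T, (bd ((t : ℤ) + 1) * bd (1 - ((t : ℤ) + 1))) := by
    have h1 : Finset.Ioc (-(T : ℤ)) T = (Finset.range T).image (fun t : ℕ => (t : ℤ) + 1) ∪
        (Finset.range T).image (fun t : ℕ => 1 - ((t : ℤ) + 1)) := by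
      ext t
      simp only [Finset.mem_Ioc, Finset.mem_union, Finset.mem_image, Finset.mem_range]
      constructor
      · rintro ⟨h1, h2⟩
        rcases lt_or_ge 0 t with h3 | h3
        · exact Or.inl ⟨(t - 1).toNat, by omega, by omega⟩
        · exact Or.inr ⟨(-t).toNat, by omega, by omega⟩
      · rintro (⟨s, h1, rfl⟩ | ⟨s, h1, rfl⟩) <;> omega
    rw [h1, Finset.prod_union, Finset.prod_image, Finset.prod_image, Finset.prod_mul_distrib]
    · intro x _ y _ hxy
      simp only at hxy
      omega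
    · intro x _ y _ hxy
      simp only at hxy
      omega
    · rw [Finset.disjoint_left]
      intro t ht1 ht2
      obtain ⟨s, -, hs⟩ := Finset.mem_image.1 ht1
      obtain ⟨s', -, hs'⟩ := Finset.mem_image.1 ht2
      omega
  have hfin : (∏ t ∈ Finset.range T, bd ((t : ℤ) + 1)) ^ 2 =
      (∏ t ∈ Finset.Ioc (-(T : ℤ)) T, bd t) * LinearMap.det φ ^ T := by
    have h1 : ∀ t ∈ Finset.range T, bd ((t : ℤ) + 1) * bd (1 - ((t : ℤ) + 1)) * LinearMap.det φ =
        bd ((t : ℤ) + 1) ^ 2 := by
      intro t _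
      rw [mul_assoc, hdual, sq]
    rw [hprod, ← Finset.prod_pow, ← Finset.prod_congr rfl h1, Finset.prod_mul_distrib,
      Finset.prod_const, Finset.card_range]
  refine ⟨4 * N, by omega, ?_⟩
  have h1 : ∏ t ∈ Finset.range T, LinearMap.det (φ.restrict (hst ((t : ℤ) + 1))) =
      ∏ t ∈ Finset.range T, bd ((t : ℤ) + 1) := Finset.prod_congr rfl fun t _ => hbd _
  rw [h1]
  calc (∏ t ∈ Finset.range T, bd ((t : ℤ) + 1)) ^ (4 * N) =
      ((∏ t ∈ Finset.range T, bd ((t : ℤ) + 1)) ^ 2) ^ (2 * N) := by rw [← pow_mul]; ring_nf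
    _ = ((∏ t ∈ Finset.Ioc (-(T : ℤ)) T, bd t) ^ N) ^ 2 * (LinearMap.det φ ^ 2) ^ (T * N) := by
        rw [hfin, mul_pow, ← pow_mul, ← pow_mul, ← pow_mul]
        ring_nf
    _ = 1 := by rw [hN2, hd2, one_pow, one_pow, one_mul]

end H13F
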