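import Pool.Agent.W_f569db_h13.UPerm

set_option autoImplicit false

/-!
# The family of rank one operators attached to algebraic classes, and its trace invariants
-/

noncomputable section

namespace H13F

open AlgebraicGeometry CategoryTheory MonoidalCategory
open scoped TensorProduct DirectSum
open Pool.Agent.WeilH_h6 Pool.Agent.WeilH_h6.VarClass Pool.Agent.WeilH_h6.Weil

universe u v w

variable {k : Type u} [Field k] {𝒱 : VarClass k} {K : Type v} [Field K] (W : Weil.{u, v, w} 𝒱 K)

/-- the class with given coordinates -/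
def cls {X : 𝒱.Obj} {α : Type} [Fintype α] (b : α → W.H X) (m : ℕ) (x : (Fin m → α) → K) :
    W.H (X.pow m) :=
  ∑ c, x c • W.pureT fun s => b (c s)

/-- the unsigned pairing with a product of basis vectors -/
def flat {X : 𝒱.Obj} {α : Type} [Fintype α] (b : α → W.H X) {m : ℕ} (z : (Fin m → α) → K)
    (v : Fin m → W.H X) : K :=
  ∑ c, z c * ∏ s, W.tr X (b (c s) * v s)

/-- the rank one operator `v ↦ ⟨z, v⟩ y` -/
def rk {X : 𝒱.Obj} {α : Type} [Fintype α] (b : α → W.H X) {n : ℕ} (y z : (Fin n → α) → K) :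
    Matrix (Fin n → α) (Fin n → α) K :=
  Matrix.of fun a a' => y a * flat W b z fun s => b (a' s)

/-- `Fin R ⊕ Fin R ≃ Fin R × Fin 2` -/
def sumTwo (R : ℕ) : Fin R ⊕ Fin R ≃ Fin R × Fin 2 where
  toFun x := Sum.elim (fun j => (j, 0)) (fun j => (j, 1)) x
  invFun p := if p.2 = 0 then Sum.inl p.1 else Sum.inr p.1
  left_inv x := by
    rcases x with j | j
    · simp
    · simp
  right_inv p := by
    obtain ⟨j, i⟩ := p
    fin_cases i
    · simp
    · simp

/-- the matching of the legs -/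
def legE (d n : ℕ) (σ : Equiv.Perm (Fin (d + 1) × Fin n)) :
    Fin ((d + 1) * n + (d + 1) * n) ≃ Fin ((d + 1) * n * 2) :=
  finSumFinEquiv.symm.trans <|
    (Equiv.sumCongr (Equiv.refl _) (finProdFinEquiv.symm.trans (σ.symm.trans finProdFinEquiv))).trans <|
    (sumTwo _).trans finProdFinEquiv

theorem legE_symm_zero (d n : ℕ) (σ : Equiv.Perm (Fin (d + 1) × Fin n)) (j : Fin ((d + 1) * n)) :
    (legE d n σ).symm (finProdFinEquiv (j, 0)) = Fin.castAdd _ j := by
  simp [legE, sumTwo]

theorem legE_symm_one (d n : ℕ) (σ : Equiv.Perm (Fin (d + 1) × Fin n)) (j : Fin ((d + 1) * n)) :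
    (legE d n σ).symm (finProdFinEquiv (j, 1)) =
      Fin.natAdd _ (finProdFinEquiv (σ (finProdFinEquiv.symm j))) := by
  simp [legE, sumTwo]

theorem box_cls {X : 𝒱.Obj} {α : Type} [Fintype α] (b : α → W.H X) {N m : ℕ}
    (x : Fin N → (Fin m → α) → K) :
    W.box (fun k => cls W b m (x k)) = ∑ c : Fin N → Fin m → α, (∏ k, x k (c k)) •
      W.pureT fun j => b (c (finProdFinEquiv.symm j).1 (finProdFinEquiv.symm j).2) := by
  classical
  rw [← boxM_apply]
  unfold cls
  rw [MultilinearMap.map_sum]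
  refine Finset.sum_congr rfl fun c _ => ?_
  rw [MultilinearMap.map_smul_univ, boxM_apply, box_pureT]

theorem box2_sum {X : 𝒱.Obj} {m m' : ℕ} {A B : Type} [Fintype A] [Fintype B] (f : A → K)
    (g : B → K) (u : A → Fin m → W.H X) (u' : B → Fin m' → W.H X) :
    W.box2 (∑ a, f a • W.pureT (u a)) (∑ b, g b • W.pureT (u' b)) =
      ∑ a, ∑ b, (f a * g b) • W.pureT (Fin.append (u a) (u' b)) := by
  simp only [← box2_pureT]
  unfold box2
  rw [map_sum, map_sum, Finset.sum_mul_sum]
  refine Finset.sum_congr rfl fun a _ => Finset.sum_congr rfl fun b _ => ?_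
  rw [map_smul, map_smul, smul_mul_smul_comm]

/-- external products with one numerically trivial factor -/
theorem nt_box {X : 𝒱.Obj} {N m : ℕ} {Z : Fin N → W.H (X.pow m)} (h : ∀ k, Z k ∈ W.algSpan _)
    (h0 : ∃ k, W.NT (Z k)) : W.NT (W.box Z) := by
  unfold Weil.box
  have hlist : ∀ (Y : 𝒱.Obj) (l : List (W.H Y)), (∀ x ∈ l, x ∈ W.algSpan Y) → (∃ x ∈ l, W.NT x) →
      W.NT l.prod := by
    intro Y l
    induction l with
    | nil => rintro _ ⟨x, hx, -⟩; simp at hx
    | cons a l ih =>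
      intro h1 h2
      rw [List.prod_cons]
      have ha : a ∈ W.algSpan Y := h1 a (by simp)
      have hl : ∀ x ∈ l, x ∈ W.algSpan Y := fun x hx => h1 x (by simp [hx])
      obtain ⟨x, hx, hxnt⟩ := h2
      rcases List.mem_cons.1 hx with rfl | hx
      · exact hxnt.mul W (W.box_list_prod_mem l hl)
      · have h3 := ih hl ⟨x, hx, hxnt⟩
        rw [W.central ha]
        exact h3.mul W ha
  refine hlist _ _ ?_ ?_
  · intro x hx
    obtain ⟨k, rfl⟩ := (List.mem_ofFn' _ _).1 hx
    exact W.pull_mem_algSpan _ (h k)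
  · obtain ⟨k, hk⟩ := h0
    exact ⟨_, (List.mem_ofFn' _ _).2 ⟨k, rfl⟩, hk.pull W _⟩

/-- The trace invariants of the family of the operators `rk y z` with one numerically trivial factor
vanish. -/
theorem trace_fam [CharZero K] {X : 𝒱.Obj} (hpar : W.par X ∈ W.algHom X X) {α : Type} [Fintype α]
    [DecidableEq α] (b : α → W.H X) {n : ℕ} (d : ℕ) (y z : Fin (d + 1) → (Fin n → α) → K)
    (hy : ∀ k, cls W b n (y k) ∈ W.algSpan _) (hz : ∀ k, cls W b n (z k) ∈ W.algSpan _)
    (h0 : ∃ k, W.NT (cls W b n (y k)) ∨ W.NT (cls W b n (z k)))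
    (σ : Equiv.Perm (Fin (d + 1) × Fin n)) :
    ∑ a : Fin (d + 1) × Fin n → α, ∏ k, rk W b (y k) (z k) (fun s => a (k, s))
      (fun s => a (σ (k, s))) = 0 := by
  classical
  set T := W.box2 (W.box fun k => cls W b n (z k)) (W.box fun k => cls W b n (y k)) with hT
  have hTnt : W.NT T := by
    obtain ⟨k, hk | hk⟩ := h0
    · have h1 : W.NT (W.box fun k => cls W b n (y k)) := nt_box W hy ⟨k, hk⟩
      have h2 : W.box (fun k => cls W b n (z k)) ∈ W.algSpan _ := W.box_mem hz
      rw [hT]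
      unfold Weil.box2
      rw [W.central (W.pull_mem_algSpan _ h2)]
      exact (h1.pull W _).mul W (W.pull_mem_algSpan _ h2)
    · exact NT.box2 W (nt_box W hz ⟨k, hk⟩) (W.box_mem hy)
  obtain ⟨U, hU1, -, hU3⟩ := exists_uperm W hpar (legE d n σ)
  have h1 : W.tr _ (U T * W.theta X ((d + 1) * n)) = 0 :=
    ((hU3 T hTnt).mul W (W.theta_mem X _)).tr_eq_zero W
  rw [hT, box_cls, box_cls, box2_sum] at h1
  simp only [map_sum, map_smul, Finset.sum_mul, smul_mul_assoc, hU1, W.tr_pureT_theta] at h1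
  have h2 : ∀ (c a : Fin (d + 1) → Fin n → α) (j : Fin ((d + 1) * n)),
      W.tr X (Fin.append (fun j => b (c (finProdFinEquiv.symm j).1 (finProdFinEquiv.symm j).2))
          (fun j => b (a (finProdFinEquiv.symm j).1 (finProdFinEquiv.symm j).2))
          ((legE d n σ).symm (finProdFinEquiv (j, 0))) *
        Fin.append (fun j => b (c (finProdFinEquiv.symm j).1 (finProdFinEquiv.symm j).2))
          (fun j => b (a (finProdFinEquiv.symm j).1 (finProdFinEquiv.symm j).2))
          ((legE d n σ).symm (finProdFinEquiv (j, 1)))) =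
      W.tr X (b (c (finProdFinEquiv.symm j).1 (finProdFinEquiv.symm j).2) *
        b (a (σ (finProdFinEquiv.symm j)).1 (σ (finProdFinEquiv.symm j)).2)) := by
    intro c a j
    rw [legE_symm_zero, legE_symm_one, Fin.append_left, Fin.append_right,
      Equiv.symm_apply_apply]
  simp only [h2, smul_eq_mul] at h1
  have h3 : ∀ (c a : Fin (d + 1) → Fin n → α),
      ∏ j : Fin ((d + 1) * n), W.tr X (b (c (finProdFinEquiv.symm j).1 (finProdFinEquiv.symm j).2) *
        b (a (σ (finProdFinEquiv.symm j)).1 (σ (finProdFinEquiv.symm j)).2)) =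
      ∏ k, ∏ s, W.tr X (b (c k s) * b (a (σ (k, s)).1 (σ (k, s)).2)) := by
    intro c a
    rw [← Fintype.prod_prod_type (f := fun p : Fin (d + 1) × Fin n =>
      W.tr X (b (c p.1 p.2) * b (a (σ p).1 (σ p).2)))]
    exact Fintype.prod_equiv finProdFinEquiv.symm _ _ fun j => rfl
  simp only [h3] at h1
  rw [Finset.sum_comm] at h1
  rw [← h1, ← (Equiv.curry (Fin (d + 1)) (Fin n) α).sum_comp]
  refine Finset.sum_congr rfl fun a _ => ?_
  unfold rk flat
  simp only [Matrix.of_apply]
  rw [Finset.prod_mul_distrib]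
  have h4 := Finset.prod_univ_sum (fun _ : Fin (d + 1) => (Finset.univ : Finset (Fin n → α)))
    (fun k c => z k c * ∏ s, W.tr X (b (c s) * b (a (σ (k, s)))))
  rw [h4, Finset.mul_sum]
  simp only [Fintype.piFinset_univ]
  refine Finset.sum_congr rfl fun c _ => ?_
  rw [Finset.prod_mul_distrib]
  simp only [Equiv.curry_apply, Function.curry_apply, Prod.mk.eta]
  have h5 : (∏ x, y x (Function.curry a x)) = ∏ x, y x (fun s => a (x, s)) := rfl
  rw [h5]
  ring

end H13F
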