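import Pool.Agent.WeilH_h6.Pow

set_option autoImplicit false

/-!
# Filtrations of the cohomology of a variety
-/

noncomputable section

namespace H13F

open Pool.Agent.WeilH_h6 Pool.Agent.WeilH_h6.VarClass

universe u v w

variable {k : Type u} [Field k] {𝒱 : VarClass k} {K : Type v} [Field K]

/-- The parity operator of `H(X)` (multiplication by `(-1)^i` on `H^i(X)`) is algebraic. -/
def ParityAlg (W : Weil.{u, v, w} 𝒱 K) (X : 𝒱.Obj) : Prop :=
  ∃ φ : W.Hom X X, W.IsAlgEnd X φ ∧ ∀ (i : ℕ), ∀ x ∈ W.grad X i, W.ap φ x = ((-1 : K) ^ i) • x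

/-- The number `Tr (a · q_1^* v_1 ⋯ q_m^* v_m)`, for `a ∈ H(X^m)` and `v_1, …, v_m ∈ H(X)`; the `q_s` are
the projections `X^m → X`. -/
def pairing (W : Weil.{u, v, w} 𝒱 K) {X : 𝒱.Obj} {m : ℕ} (a : W.H (X.pow m)) (v : Fin m → W.H X) : K :=
  W.deg (a * W.pureT v)

/-- A symmetry of `H(X)` up to `X^n`: a map `g` of `H(X)` to itself, semilinear with respect to an
automorphism `σ` of `K` (for example linear, `σ = id`), which is compatible with Poincaré duality up to a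
factor `μ`, and such that for `m ≤ n` a class `a ∈ H(X^m)` lies in the `K`-span of the algebraic classes if
and only if its transform `b` under `g` does: `Tr (a · q_1^* g(v_1) ⋯ q_m^* g(v_m)) =
σ (Tr (b · q_1^* v_1 ⋯ q_m^* v_m))` for all `v_1, …, v_m`. -/
structure Sym (W : Weil.{u, v, w} 𝒱 K) (X : 𝒱.Obj) (n : ℕ) where
  σ : K ≃+* K
  g : W.H X → W.H X
  μ : K
  μ_ne : μ ≠ 0
  g_add : ∀ x y, g (x + y) = g x + g y
  g_smul : ∀ (c : K) (x : W.H X), g (c • x) = σ c • g x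
  duality : ∀ x y, W.deg (g x * g y) = μ * σ (W.deg (x * y))
  alg : ∀ m ≤ n, ∀ a b : W.H (X.pow m),
    (∀ v, pairing W a (fun s => g (v s)) = σ (pairing W b v)) →
      (a ∈ W.algSpan (X.pow m) ↔ b ∈ W.algSpan (X.pow m))

/-- The linear endomorphism `φ` of `H(X)` fixes the algebraic classes on the powers `X^m`, `m ≤ n`:
`Tr (a · q_1^* φ(v_1) ⋯ q_m^* φ(v_m)) = Tr (a · q_1^* v_1 ⋯ q_m^* v_m)` for all algebraic classes `a` on
`X^m` and all `v_1, …, v_m ∈ H(X)`. -/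
def Fixes (W : Weil.{u, v, w} 𝒱 K) (X : 𝒱.Obj) (n : ℕ) (φ : W.Hom X X) : Prop :=
  ∀ m ≤ n, ∀ a ∈ W.algSpan (X.pow m), ∀ v, pairing W a (fun s => W.ap φ (v s)) = pairing W a v

/-- The determinant of the linear map `φ` on the subspace `U`, stable under `φ`. -/
def detOn {K V : Type*} [Field K] [AddCommGroup V] [Module K V] (U : Submodule K V) (φ : V →ₗ[K] V)
    (h : ∀ x ∈ U, φ x ∈ U) : K := LinearMap.det (φ.restrict h)

/-- A finite decreasing filtration `⋯ ⊇ F^t ⊇ F^(t+1) ⊇ ⋯` of `H(X)` by subspaces, `t ∈ ℤ`. -/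
structure Filt (W : Weil.{u, v, w} 𝒱 K) (X : 𝒱.Obj) where
  F : ℤ → Submodule K (W.H X)
  anti : ∀ s t, s ≤ t → F t ≤ F s
  top : ∃ t, F t = ⊤
  bot : ∃ t, F t = ⊥

namespace Filt

variable {W : Weil.{u, v, w} 𝒱 K} {X : 𝒱.Obj} (B : Filt W X)

/-- The filtration is self-dual for Poincaré duality: `(F^t)^⊥ = F^(1-t)`. -/
def SelfDual : Prop := ∀ (t : ℤ) (x : W.H X), x ∈ B.F (1 - t) ↔ ∀ y ∈ B.F t, W.deg (x * y) = 0

/-- The class `a` on `X^m` has weight `≥ 0`: `Tr (a · q_1^* x_1 ⋯ q_m^* x_m) = 0` whenever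
`x_s ∈ F^{t_s}` and `∑ t_s > 0`. -/
def Ge {m : ℕ} (a : W.H (X.pow m)) : Prop :=
  ∀ (t : Fin m → ℤ) (x : Fin m → W.H X), (∀ s, x s ∈ B.F (t s)) → 0 < ∑ s, t s → pairing W a x = 0

/-- The class `a` on `X^m` has weight `> 0`: `Tr (a · q_1^* x_1 ⋯ q_m^* x_m) = 0` whenever
`x_s ∈ F^{t_s}` and `∑ t_s ≥ 0`. -/
def Gt {m : ℕ} (a : W.H (X.pow m)) : Prop :=
  ∀ (t : Fin m → ℤ) (x : Fin m → W.H X), (∀ s, x s ∈ B.F (t s)) → 0 ≤ ∑ s, t s → pairing W a x = 0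

/-- All algebraic classes on the powers `X^m`, `m ≤ n`, have weight `≥ 0`. -/
def AlgGe (n : ℕ) : Prop := ∀ m ≤ n, ∀ a ∈ W.algSpan (X.pow m), B.Ge a

/-- Some nonzero algebraic class on a power `X^m`, `m ≤ n`, has weight `> 0`. -/
def SomeGt (n : ℕ) : Prop := ∃ m ≤ n, ∃ a ∈ W.algSpan (X.pow m), a ≠ 0 ∧ B.Gt a

/-- All numerically trivial classes in the span of the algebraic classes on the powers `X^m`, `m ≤ n`,
have weight `> 0`. -/
def NumGt (n : ℕ) : Prop :=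
  ∀ m ≤ n, ∀ a ∈ W.algSpan (X.pow m), (∀ b ∈ W.algSpan (X.pow m), W.deg (a * b) = 0) → B.Gt a

/-- The filtration is compatible with the grading of `H(X)`: `F^t = ⨁ F^t ∩ H^i(X)`. -/
def Graded : Prop := ∀ t, B.F t ≤ ⨆ i, B.F t ⊓ W.grad X i

/-- The filtration is multiplicative: `F^s · F^t ⊆ F^(s+t)`. -/
def Mult : Prop := ∀ s t, ∀ x ∈ B.F s, ∀ y ∈ B.F t, x * y ∈ B.F (s + t)

/-- The filtration is stable under all algebraic endomorphisms of `H(X)`. -/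
def AlgStable : Prop := ∀ φ, W.IsAlgEnd X φ → ∀ t, ∀ x ∈ B.F t, W.ap φ x ∈ B.F t

/-- The filtration is stable under all symmetries of `H(X)` up to `X^n`. -/
def SymStable (n : ℕ) : Prop := ∀ (S : Sym W X n) (t : ℤ), ∀ x ∈ B.F t, S.g x ∈ B.F t

/-- The endomorphism `φ` respects the filtration. -/
def Stable (φ : W.Hom X X) : Prop := ∀ t, ∀ x ∈ B.F t, W.ap φ x ∈ B.F t

/-- The determinant of `φ` on `F^t`. -/
def detF (φ : W.Hom X X) (h : B.Stable φ) (t : ℤ) : K := detOn (B.F t) φ (h t)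

/-- If a linear endomorphism `φ` of `H(X)` fixes all algebraic classes on the powers `X^m`, `m ≤ n`, then
it respects the filtration, and `∏_{t ≥ 1} det (φ | F^t)` is a root of unity. -/
def DetTorsion (n : ℕ) : Prop :=
  ∀ φ, Fixes W X n φ → ∃ h : B.Stable φ, ∀ T : ℕ, B.F (T + 1) = ⊥ →
    ∃ N : ℕ, 0 < N ∧ (∏ t ∈ Finset.range T, B.detF φ h (t + 1)) ^ N = 1

end Filt

end H13F
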