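import Pool.Agent.W_f569db_h13.Fam

set_option autoImplicit false

/-!
# The unsigned bilinear form on `H(X^n)`
-/

noncomputable section

namespace H13F

open AlgebraicGeometry CategoryTheory MonoidalCategory
open scoped TensorProduct DirectSum
open Pool.Agent.WeilH_h6 Pool.Agent.WeilH_h6.VarClass Pool.Agent.WeilH_h6.Weil

universe u v w

variable {k : Type u} [Field k] {𝒱 : VarClass k} {K : Type v} [Field K] (W : Weil.{u, v, w} 𝒱 K)

theorem par_pureT {X : 𝒱.Obj} {m : ℕ} (v : Fin m → W.H X) (π : Fin m → ℕ)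
    (hv : ∀ s, W.par X (v s) = ((-1 : K) ^ (π s)) • v s) :
    W.par (X.pow m) (W.pureT v) = ((-1 : K) ^ (∑ s, π s)) • W.pureT v := by
  induction m with
  | zero =>
    rw [pureT_zero]
    have h1 : (1 : W.H (X.pow 0)) ∈ W.grad (X.pow 0) 0 := SetLike.one_mem_graded _
    rw [W.par_apply h1]; simp
  | succ m ih =>
    rw [pureT_succ, par_mul, par_pull, par_pull, ih _ _ (fun s => hv s.castSucc), hv, map_smul,
      map_smul, smul_mul_smul_comm, ← pow_add, Fin.sum_univ_castSucc]

/-- the product of two product classes, up to a sign which depends only on the parities -/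
theorem mul_pureT' [CharZero K] {X : 𝒱.Obj} (m : ℕ) (π π' : Fin m → ℕ) : ∃ ε : K, (ε = 1 ∨ ε = -1) ∧
    ∀ v v' : Fin m → W.H X, (∀ s, W.par X (v s) = ((-1 : K) ^ (π s)) • v s) →
      (∀ s, W.par X (v' s) = ((-1 : K) ^ (π' s)) • v' s) →
      W.pureT v * W.pureT v' = ε • W.pureT (fun s => v s * v' s) := by
  induction m with
  | zero =>
    exact ⟨1, Or.inl rfl, fun v v' _ _ => by
      rw [pureT_zero, pureT_zero, pureT_zero, one_smul, mul_one]⟩
  | succ m ih =>
    obtain ⟨ε, hε, h⟩ := ih (fun s => π s.castSucc) (fun s => π' s.castSucc)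
    refine ⟨(-1) ^ (π (Fin.last m) * ∑ s, π' (Fin.castSucc s)) * ε, ?_, fun v v' hv hv' => ?_⟩
    · rcases neg_one_pow_eq_or K (π (Fin.last m) * ∑ s, π' (Fin.castSucc s)) with h1 | h1 <;>
        rcases hε with rfl | rfl <;> rw [h1] <;> simp
    · have e := W.supercomm (x := W.pull (Obj.psnd X m) (v (Fin.last m)))
        (y := W.pull (Obj.pfst X m) (W.pureT fun s => v' s.castSucc))
        (i := π (Fin.last m)) (j := ∑ s, π' (Fin.castSucc s))
        (by rw [par_pull, hv, map_smul])
        (by rw [par_pull, par_pureT W _ _ (fun s => hv' s.castSucc), map_smul])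
      have h' := h (fun s => v s.castSucc) (fun s => v' s.castSucc) (fun s => hv s.castSucc)
        (fun s => hv' s.castSucc)
      rw [pureT_succ, pureT_succ, pureT_succ]
      calc W.pull (Obj.pfst X m) (W.pureT fun s => v s.castSucc) *
              W.pull (Obj.psnd X m) (v (Fin.last m)) *
            (W.pull (Obj.pfst X m) (W.pureT fun s => v' s.castSucc) *
              W.pull (Obj.psnd X m) (v' (Fin.last m)))
          = W.pull (Obj.pfst X m) (W.pureT fun s => v s.castSucc) *
              (W.pull (Obj.psnd X m) (v (Fin.last m)) *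
            W.pull (Obj.pfst X m) (W.pureT fun s => v' s.castSucc)) *
              W.pull (Obj.psnd X m) (v' (Fin.last m)) := by
            simp only [mul_assoc]
        _ = ((-1 : K) ^ (π (Fin.last m) * ∑ s, π' (Fin.castSucc s))) •
              (W.pull (Obj.pfst X m) ((W.pureT fun s => v s.castSucc) *
                W.pureT fun s => v' s.castSucc) *
              W.pull (Obj.psnd X m) (v (Fin.last m) * v' (Fin.last m))) := by
            rw [e, mul_smul_comm, smul_mul_assoc, map_mul, map_mul]
            simp only [mul_assoc]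
        _ = _ := by
            rw [h', map_smul, smul_mul_assoc, smul_smul]

theorem mul_pureT [CharZero K] {X : 𝒱.Obj} (m : ℕ) (π π' : Fin m → ℕ) : ∃ ε : K, ε ≠ 0 ∧
    ∀ v v' : Fin m → W.H X, (∀ s, W.par X (v s) = ((-1 : K) ^ (π s)) • v s) →
      (∀ s, W.par X (v' s) = ((-1 : K) ^ (π' s)) • v' s) →
      W.pureT v * W.pureT v' = ε • W.pureT (fun s => v s * v' s) := by
  obtain ⟨ε, hε, h⟩ := mul_pureT' W (X := X) m π π'
  refine ⟨ε, ?_, h⟩
  rcases hε with rfl | rfl
  · exact one_ne_zero
  · exact neg_ne_zero.2 one_ne_zero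

/-- the interleaving of two blocks of length `n` -/
def leg2 (n : ℕ) : Fin (n + n) ≃ Fin (n * 2) :=
  finSumFinEquiv.symm.trans ((sumTwo n).trans finProdFinEquiv)

theorem leg2_symm_zero (n : ℕ) (j : Fin n) :
    (leg2 n).symm (finProdFinEquiv (j, 0)) = Fin.castAdd _ j := by
  simp [leg2, sumTwo]

theorem leg2_symm_one (n : ℕ) (j : Fin n) :
    (leg2 n).symm (finProdFinEquiv (j, 1)) = Fin.natAdd _ j := by
  simp [leg2, sumTwo]

variable {W} in
/-- the unsigned bilinear form on `H(X^n)`: `⟨pureT u, pureT v⟩ = ∏ Tr(u_s v_s)` -/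
def fB [CharZero K] {X : 𝒱.Obj} (hpar : W.par X ∈ W.algHom X X) (n : ℕ) (a b : W.H (X.pow n)) : K :=
  W.tr (X.pow (n * 2)) (Classical.choose (exists_uperm W hpar (leg2 n)) (W.box2 a b) * W.theta X n)

section fB

variable {W}
variable [CharZero K] {X : 𝒱.Obj} (hpar : W.par X ∈ W.algHom X X) {n : ℕ}

theorem fB_pureT (u v : Fin n → W.H X) :
    fB hpar n (W.pureT u) (W.pureT v) = ∏ s, W.tr X (u s * v s) := by
  unfold fB
  rw [box2_pureT, (Classical.choose_spec (exists_uperm W hpar (leg2 n))).1, W.tr_pureT_theta]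
  refine Finset.prod_congr rfl fun j _ => ?_
  rw [leg2_symm_zero, leg2_symm_one, Fin.append_left, Fin.append_right]

theorem fB_add_left (a a' b : W.H (X.pow n)) :
    fB hpar n (a + a') b = fB hpar n a b + fB hpar n a' b := by
  unfold fB box2
  rw [map_add, add_mul, map_add, add_mul, map_add]

theorem fB_add_right (a b b' : W.H (X.pow n)) :
    fB hpar n a (b + b') = fB hpar n a b + fB hpar n a b' := by
  unfold fB box2
  rw [map_add, mul_add, map_add, add_mul, map_add]

theorem fB_smul_left (c : K) (a b : W.H (X.pow n)) :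
    fB hpar n (c • a) b = c * fB hpar n a b := by
  unfold fB box2
  rw [map_smul, smul_mul_assoc, map_smul, smul_mul_assoc, map_smul, smul_eq_mul]

theorem fB_smul_right (c : K) (a b : W.H (X.pow n)) :
    fB hpar n a (c • b) = c * fB hpar n a b := by
  unfold fB box2
  rw [map_smul, mul_smul_comm, map_smul, smul_mul_assoc, map_smul, smul_eq_mul]

/-- the form as a bilinear map -/
def fBL (n : ℕ) : W.H (X.pow n) →ₗ[K] W.H (X.pow n) →ₗ[K] K :=
  LinearMap.mk₂ K (fB hpar n) (fB_add_left hpar) (fB_smul_left hpar) (fB_add_right hpar)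
    (fB_smul_right hpar)

@[simp] theorem fBL_apply (a b : W.H (X.pow n)) : fBL hpar n a b = fB hpar n a b := rfl

/-- numerically trivial classes are orthogonal to the algebraic classes for the unsigned form -/
theorem fB_nt {a b : W.H (X.pow n)} (ha : W.NT a) (hb : b ∈ W.algSpan _) : fB hpar n a b = 0 := by
  unfold fB
  exact (((Classical.choose_spec (exists_uperm W hpar (leg2 n))).2.2 _
    (NT.box2 W ha hb)).mul W (W.theta_mem X _)).tr_eq_zero W

theorem fB_cls {α : Type} [Fintype α] (b : α → W.H X) (y : (Fin n → α) → K) (v : Fin n → W.H X) :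
    fB hpar n (cls W b n y) (W.pureT v) = flat W b y v := by
  rw [← fBL_apply]
  unfold cls flat
  rw [map_sum, LinearMap.sum_apply]
  refine Finset.sum_congr rfl fun c _ => ?_
  rw [map_smul, LinearMap.smul_apply, fBL_apply, fB_pureT, smul_eq_mul]

/-- linearity induction for a pair -/
theorem pure_induction₂ {m m' : ℕ} {P : W.H (X.pow m) → W.H (X.pow m') → Prop}
    (hadd : ∀ a a' b, P a b → P a' b → P (a + a') b) (hadd' : ∀ a b b', P a b → P a b' → P a (b + b'))
    (hsmul : ∀ (c : K) a b, P a b → P (c • a) b) (hsmul' : ∀ (c : K) a b, P a b → P a (c • b))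
    (hm : ∀ v v', P (W.pureT v) (W.pureT v')) (a : W.H (X.pow m)) (b : W.H (X.pow m')) : P a b := by
  refine W.pure_induction (P := fun a => P a b) (fun a a' h h' => hadd a a' b h h')
    (fun c a h => hsmul c a b h) (fun v => ?_) a
  refine W.pure_induction (P := fun b => P (W.pureT v) b) (fun b b' h h' => hadd' _ b b' h h')
    (fun c b h => hsmul' c _ b h) (fun v' => hm v v') b

/-- the form is multiplicative for the external product -/
theorem fB_box2 {m m' : ℕ} (a : W.H (X.pow m)) (u : Fin m → W.H X) (c : W.H (X.pow m'))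
    (u' : Fin m' → W.H X) :
    fB hpar (m + m') (W.box2 a c) (W.pureT (Fin.append u u')) =
      fB hpar m a (W.pureT u) * fB hpar m' c (W.pureT u') := by
  refine pure_induction₂ (W := W) (X := X) (P := fun a c => fB hpar (m + m') (W.box2 a c)
    (W.pureT (Fin.append u u')) = fB hpar m a (W.pureT u) * fB hpar m' c (W.pureT u')) ?_ ?_ ?_ ?_ ?_ a c
  · intro a a' c h h'
    have : W.box2 (a + a') c = W.box2 a c + W.box2 a' c := by
      unfold box2; rw [map_add, add_mul]
    rw [this, fB_add_left, fB_add_left, h, h', add_mul]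
  · intro a c c' h h'
    have : W.box2 a (c + c') = W.box2 a c + W.box2 a c' := by
      unfold box2; rw [map_add, mul_add]
    rw [this, fB_add_left, fB_add_left, h, h', mul_add]
  · intro r a c h
    have : W.box2 (r • a) c = r • W.box2 a c := by
      unfold box2; rw [map_smul, smul_mul_assoc]
    rw [this, fB_smul_left, fB_smul_left, h, mul_assoc]
  · intro r a c h
    have : W.box2 a (r • c) = r • W.box2 a c := by
      unfold box2; rw [map_smul, mul_smul_comm]
    rw [this, fB_smul_left, fB_smul_left, h]; ring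
  · intro v v'
    rw [box2_pureT, fB_pureT, fB_pureT, fB_pureT, Fin.prod_univ_add]
    congr 1
    · refine Finset.prod_congr rfl fun s _ => ?_
      rw [Fin.append_left, Fin.append_left]
    · refine Finset.prod_congr rfl fun s _ => ?_
      rw [Fin.append_right, Fin.append_right]

/-- trace of a product of homogeneous elements of different parity -/
theorem tr_mul_parity {x y : W.H X} {i j : ℕ} (hx : W.par X x = ((-1 : K) ^ i) • x)
    (hy : W.par X y = ((-1 : K) ^ j) • y) (hij : (-1 : K) ^ (i + j) ≠ 1) : W.tr X (x * y) = 0 := by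
  have h1 := W.tr_par (x * y)
  rw [W.par_mul, hx, hy, smul_mul_smul_comm, ← pow_add, map_smul, smul_eq_mul] at h1
  have h2 : ((-1 : K) ^ (i + j) - 1) * W.tr X (x * y) = 0 := by
    rw [sub_mul, one_mul, h1, sub_self]
  rcases mul_eq_zero.1 h2 with h | h
  · exact absurd (sub_eq_zero.1 h) hij
  · exact h

/-- The trace of `a * pureT v` for homogeneous `v` is the unsigned form up to a sign depending only on
the parities of `v`. -/
theorem tr_mul_pureT (π : Fin n → Fin 2) : ∃ ε : K, ε ≠ 0 ∧ ∀ (a : W.H (X.pow n)) (v : Fin n → W.H X),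
    (∀ s, W.par X (v s) = ((-1 : K) ^ ((π s : Fin 2) : ℕ)) • v s) →
      W.tr (X.pow n) (a * W.pureT v) = ε * fB hpar n a (W.pureT v) := by
  classical
  obtain ⟨ε, hε, hm⟩ := mul_pureT W (X := X) n (fun s => ((π s : Fin 2) : ℕ))
    (fun s => ((π s : Fin 2) : ℕ))
  refine ⟨ε, hε, fun a v hv => ?_⟩
  refine W.pure_induction (P := fun a => W.tr (X.pow n) (a * W.pureT v) =
    ε * fB hpar n a (W.pureT v)) ?_ ?_ ?_ a
  · intro a b ha hb
    rw [add_mul, map_add, ha, hb, fB_add_left, mul_add]
  · intro c a ha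
    rw [smul_mul_assoc, map_smul, ha, fB_smul_left, smul_eq_mul]; ring
  · intro u
    -- decompose `u` into homogeneous parts
    have h1 : W.pureT u = ∑ τ : Fin n → Fin 2, W.pureT fun s => parPr W X (τ s) (u s) := by
      have h2 : u = fun s => ∑ i : Fin 2, parPr W X i (u s) := by
        funext s; rw [parPr_add]
      conv_lhs => rw [h2, ← pureM_apply, MultilinearMap.map_sum]
      simp only [pureM_apply]
    rw [h1, Finset.sum_mul, map_sum, ← fBL_apply, map_sum, LinearMap.sum_apply, Finset.mul_sum]
    refine Finset.sum_congr rfl fun τ _ => ?_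
    rw [fBL_apply, fB_pureT]
    by_cases hτ : τ = π
    · subst hτ
      rw [hm _ _ (fun s => par_parPr W (τ s) (u s)) hv, map_smul, tr_pureT, smul_eq_mul]
    · obtain ⟨s, hs⟩ := Function.ne_iff.1 hτ
      have hne : (-1 : K) ^ (((τ s : Fin 2) : ℕ) + ((π s : Fin 2) : ℕ)) ≠ 1 := by
        have h3 : (-1 : K) ≠ 1 := by
          intro h
          have h4 : (2 : K) = 0 := by
            have : (1 : K) + 1 = 1 + (-1) := by rw [h]
            rw [one_add_one_eq_two] at this
            rw [this]; ring
          exact two_ne_zero h4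
        generalize τ s = p at hs ⊢
        generalize π s = q at hs ⊢
        fin_cases p <;> fin_cases q <;> simp_all
      have h0 : W.tr X (parPr W X (τ s) (u s) * v s) = 0 :=
        tr_mul_parity (par_parPr W (τ s) (u s)) (hv s) hne
      obtain ⟨ε', -, hm'⟩ := mul_pureT W (X := X) n (fun s => ((τ s : Fin 2) : ℕ))
        (fun s => ((π s : Fin 2) : ℕ))
      rw [hm' _ _ (fun s => par_parPr W (τ s) (u s)) hv, map_smul, tr_pureT,
        Finset.prod_eq_zero (Finset.mem_univ s) h0, smul_zero, mul_zero]

end fB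

end H13F
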