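import Pool.Agent.W_f569db_h13.Main2

/-!
# A Hilbert-Mumford criterion for the standard conjecture D on the powers of a variety
-/

namespace Pool.Agent.Results.MP_f569db_ag.IsotropyCriterion

open Pool.Agent.WeilH_h6 Pool.Agent.WeilH_h6.VarClass H13F

universe u v w

/-- Let `W` be a Weil cohomology theory with coefficients in the field `K` of characteristic `0`, let
`X` be a variety such that the parity operator of `H(X)` is algebraic, and let `n ≥ 3`.
The following are equivalent:

1. The standard conjecture `D` fails for `X^m` for some `m ≤ n`.
2. There is a finite filtration `F` of `H(X)`, self-dual for Poincaré duality, such that all algebraic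
   classes on the `X^m`, `m ≤ n`, have weight `≥ 0`, and some nonzero algebraic class on some `X^m`,
   `m ≤ n`, has weight `> 0`.
3. There is a filtration `F` as in 2. which moreover has the following properties: every numerically
   trivial class in the span of the algebraic classes on `X^m`, `m ≤ n`, has weight `> 0`; the isotropic
   subspace `F^1` is not zero; `F` is graded and multiplicative; the algebraic classes on `X` lie in
   `F^0`; the `F^t` are stable under all algebraic endomorphisms of `H(X)` and under all symmetries of
   `H(X)` (linear or semilinear); and for every linear map `φ` which fixes all algebraic classes on the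
   `X^m`, `m ≤ n`, the product of the determinants of `φ` on the `F^t`, `t ≥ 1`, is a root of unity. -/
theorem result {k : Type u} [Field k] {𝒱 : VarClass k} {K : Type v} [Field K] [CharZero K]
    {W : Weil.{u, v, w} 𝒱 K} (X : 𝒱.Obj) (hpar : ParityAlg W X) (n : ℕ) (hn : 3 ≤ n) :
    List.TFAE [
      ∃ m ≤ n, ¬ W.HomEqNum (X.pow m),
      ∃ B : Filt W X, B.SelfDual ∧ B.AlgGe n ∧ B.SomeGt n,
      ∃ B : Filt W X, B.SelfDual ∧ B.AlgGe n ∧ B.SomeGt n ∧ B.NumGt n ∧ B.F 1 ≠ ⊥ ∧ B.Graded ∧
        B.Mult ∧ W.algSpan X ≤ B.F 0 ∧ B.AlgStable ∧ B.SymStable n ∧ B.DetTorsion n] :=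
  criterion2 X hpar n hn

end Pool.Agent.Results.MP_f569db_ag.IsotropyCriterion
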