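import Pool.Agent.W_f569db_h13.NoUnit2

/-!
# `no_unit2` for an arbitrary (infinite) family
-/

set_option linter.unusedSectionVars false

namespace H13F

open H69 Matrix Finset

variable {α : Type*} [Fintype α] [DecidableEq α]

theorem no_unit3 {Λ : Type*} (Z : Set Λ) {ι : Type*} [Fintype ι]
    [DecidableEq ι] {K : Type*} [Field K] [CharZero K] (x : Λ → Matrix (ι → α) (ι → α) K)
    (htr : ∀ (d : ℕ) (v : Fin (d + 1) → Λ), (∃ k, v k ∈ Z) →
      ∀ (σ : Equiv.Perm (Fin (d + 1) × ι)),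
      ∑ a : Fin (d + 1) × ι → α, ∏ k, x (v k) (fun s => a (k, s)) (fun s => a (σ (k, s))) = 0)
    (A : List (Λ × ((ι → α) × (ι → α))) →₀ K) (hA : ∀ l ∈ A.support, ∃ p ∈ l, p.1 ∈ Z) :
    ¬ ∀ g : (Matrix α α ℚ)ˣ, (A.sum fun l r =>
      r * (l.map fun p => cj (Units.map (Rat.castHom K).mapMatrix.toMonoidHom g) (x p.1)
        p.2.1 p.2.2).prod) = 1 := by
  classical
  let Λ₀ : Finset Λ := A.support.biUnion fun l => (l.map Prod.fst).toFinset
  have hmem : ∀ l ∈ A.support, ∀ p ∈ l, p.1 ∈ Λ₀ := by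
    intro l hl p hp
    refine Finset.mem_biUnion.2 ⟨l, hl, ?_⟩
    rw [List.mem_toFinset]
    exact List.mem_map_of_mem hp
  let f : ({l // l ∈ Λ₀} × ((ι → α) × (ι → α))) → Λ × ((ι → α) × (ι → α)) := fun p => (p.1.1, p.2)
  have hf : Function.Injective f := by
    rintro ⟨⟨p, hp⟩, q⟩ ⟨⟨p', hp'⟩, q'⟩ h
    simp only [f, Prod.mk.injEq] at h
    obtain ⟨rfl, rfl⟩ := h
    rfl
  have hfl : Function.Injective (List.map f) := List.map_injective_iff.2 hf
  have hsub : (A.support : Set (List (Λ × ((ι → α) × (ι → α))))) ⊆ Set.range (List.map f) := by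
    intro l hl
    rw [Set.mem_range]
    refine ⟨l.pmap (fun p hp => (⟨p.1, hp⟩, p.2)) (fun p hp => hmem l hl p hp), ?_⟩
    rw [List.map_pmap]
    simp [f]
  let B : List ({l // l ∈ Λ₀} × ((ι → α) × (ι → α))) →₀ K :=
    A.comapDomain (List.map f) hfl.injOn
  have hBA : B.mapDomain (List.map f) = A := Finsupp.mapDomain_comapDomain _ hfl A hsub
  intro hone
  refine no_unit2 (Λ := {l // l ∈ Λ₀}) {l | l.1 ∈ Z} (fun l => x l.1) (fun d v hv σ => ?_) B ?_ ?_
  · exact htr d (fun k => (v k).1) hv σ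
  · intro l hl
    have h1 : List.map f l ∈ A.support := by
      rw [Finsupp.mem_support_iff] at hl ⊢
      exact hl
    obtain ⟨p, hp, hpZ⟩ := hA _ h1
    obtain ⟨q, hq, rfl⟩ := List.mem_map.1 hp
    exact ⟨q, hq, hpZ⟩
  · intro g
    rw [← hone g, ← hBA, Finsupp.sum_mapDomain_index (fun _ => zero_mul _)
      (fun _ _ _ => add_mul _ _ _)]
    refine Finset.sum_congr rfl fun l _ => ?_
    beta_reduce
    rw [List.map_map]
    rfl

end H13F
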