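import Pool.Agent.WeilH_h6.Basic

set_option autoImplicit false

/-!
# The class of a closed point
-/

noncomputable section

namespace H13F

open AlgebraicGeometry CategoryTheory MonoidalCategory
open Pool.Agent.WeilH_h6 Pool.Agent.WeilH_h6.VarClass Pool.Agent.WeilH_h6.Weil

universe u v w

variable {k : Type u} [Field k] {𝒱 : VarClass k} {K : Type v} [Field K] (W : Weil.{u, v, w} 𝒱 K)

theorem exists_coheight (X : 𝒱.Obj) : ∃ x : X.X.left, Order.coheight x = (X.dim : ℕ∞) := by
  have := 𝒱.integral X.X X.mem
  let x₀ : X.X.left := genericPoint X.X.left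
  have hx₀ : Order.coheight x₀ = 0 := by
    rw [Order.coheight_eq_zero]
    intro y _
    exact genericPoint_specializes y
  have hne : Nonempty X.X.left := ⟨x₀⟩
  by_cases htop : Order.krullDim X.X.left = ⊤
  · refine ⟨x₀, ?_⟩
    rw [hx₀]
    unfold Obj.dim
    rw [htop]
    rfl
  · have hfd : FiniteDimensionalOrder X.X.left := by
      rw [Order.finiteDimensionalOrder_iff_krullDim_ne_bot_and_top]
      exact ⟨Order.krullDim_ne_bot_iff.2 hne, htop⟩
    let l := LTSeries.longestOf X.X.left
    have hl : Order.krullDim X.X.left = (l.length : WithBot ℕ∞) :=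
      Order.krullDim_eq_length_of_finiteDimensionalOrder
    have hdim : X.dim = l.length := by
      unfold Obj.dim
      rw [hl]
      rfl
    refine ⟨l.head, ?_⟩
    rw [hdim]
    apply le_antisymm
    · have h1 := Order.coheight_le_krullDim l.head
      rw [hl] at h1
      exact_mod_cast h1
    · exact Order.length_le_coheight_head

theorem exists_pt (X : 𝒱.Obj) : ∃ p ∈ W.algSpan X, W.tr X p = 1 := by
  obtain ⟨x, hx⟩ := exists_coheight X
  refine ⟨W.cl (Finsupp.single (⟨x, hx⟩ : {x : X.X.left //
      Order.coheight x = (X.dim : ℕ∞)}) 1 : Cyc X X.dim), W.cl_mem_algSpan _, ?_⟩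
  unfold cl cycSum
  rw [Finsupp.sum_single_index]
  · simp only [Rat.cast_one, one_smul]; exact W.tr_clPt X x hx
  · simp

end H13F
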