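import Pool.Agent.W_f569db_h13.WBasis
import Pool.Agent.W_f569db_h13.Pt

set_option autoImplicit false

/-!
# Normalisation of the weights
-/

noncomputable section

namespace H13F

open AlgebraicGeometry CategoryTheory MonoidalCategory
open scoped TensorProduct DirectSum
open Pool.Agent.WeilH_h6 Pool.Agent.WeilH_h6.VarClass Pool.Agent.WeilH_h6.Weil

universe u v w

variable {k : Type u} [Field k] {𝒱 : VarClass k} {K : Type v} [Field K] {W : Weil.{u, v, w} 𝒱 K}

theorem pureT_alg {X : 𝒱.Obj} {m : ℕ} {v : Fin m → W.H X} (h : ∀ s, v s ∈ W.algSpan X) :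
    W.pureT v ∈ W.algSpan (X.pow m) := by
  unfold Weil.pureT
  refine W.box_list_prod_mem _ fun x hx => ?_
  obtain ⟨s, rfl⟩ := (List.mem_ofFn' _ _).1 hx
  exact W.pull_mem_algSpan _ (h s)

theorem comp_append {X : 𝒱.Obj} {α : Type} {m l : ℕ} (v : α → W.H X) (a : Fin m → α)
    (a' : Fin l → α) : (fun s => v (Fin.append a a' s)) =
      Fin.append (fun s => v (a s)) fun s => v (a' s) := by
  funext s
  refine Fin.addCases (fun i => ?_) (fun i => ?_) s
  · rw [Fin.append_left, Fin.append_left]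
  · rw [Fin.append_right, Fin.append_right]

theorem sum_append {α : Type} {m l : ℕ} (ξ : α → ℝ) (a : Fin m → α) (a' : Fin l → α) :
    ∑ s, ξ (Fin.append a a' s) = ∑ s, ξ (a s) + ∑ s, ξ (a' s) := by
  rw [Fin.sum_univ_add]
  simp only [Fin.append_left, Fin.append_right]

/-- The normalised weights of the algebraic classes on the powers `X^m`, `m ≤ n`. -/
theorem exists_normal' [CharZero K] {X : 𝒱.Obj} (hpar : W.par X ∈ W.algHom X X) {n : ℕ} (hn : 1 ≤ n)
    {α : Type} [Fintype α] {v v' : α → W.H X} {ξ : α → ℝ}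
    (hexp : ∀ x, x = ∑ i, W.tr X (x * v' i) • v i) (hP : PosG hpar n v v' ξ) :
    ∃ i₀ : α, ∀ m ≤ n, ∀ Y ∈ W.algSpan (X.pow m), ∀ a : Fin m → α,
      (fB hpar m Y (W.pureT fun s => v (a s)) ≠ 0 →
        ∑ s, (ξ (a s) - ξ i₀) ≤ 0 ∧ (W.NT Y → ∑ s, (ξ (a s) - ξ i₀) ≤ -1)) ∧
      (fB hpar m Y (W.pureT fun s => v' (a s)) ≠ 0 →
        0 ≤ ∑ s, (ξ (a s) - ξ i₀) ∧ (W.NT Y → 1 ≤ ∑ s, (ξ (a s) - ξ i₀))) := by
  obtain ⟨pt, hpt, hpt1⟩ := exists_pt W X
  have h1a : (1 : W.H X) ∈ W.algSpan X := W.one_mem_algSpan X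
  -- indices
  obtain ⟨i₀, hi₀⟩ : ∃ i, W.tr X (pt * v' i) * W.tr X (1 * v i) ≠ 0 := by
    by_contra hcon
    push Not at hcon
    have h2 : W.tr X (1 * pt) = 0 := by
      rw [hexp pt, Finset.mul_sum, map_sum]
      refine Finset.sum_eq_zero fun i _ => ?_
      rw [mul_smul_comm, map_smul, smul_eq_mul]
      exact hcon i
    rw [one_mul, hpt1] at h2
    exact one_ne_zero h2
  obtain ⟨i₁, hi₁⟩ : ∃ i, W.tr X (1 * v' i) * W.tr X (pt * v i) ≠ 0 := by
    by_contra hcon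
    push Not at hcon
    have h2 : W.tr X (pt * 1) = 0 := by
      rw [hexp 1, Finset.mul_sum, map_sum]
      refine Finset.sum_eq_zero fun i _ => ?_
      rw [mul_smul_comm, map_smul, smul_eq_mul]
      exact hcon i
    rw [mul_one, hpt1] at h2
    exact one_ne_zero h2
  have hA : W.tr X (1 * v' i₁) ≠ 0 := left_ne_zero_of_mul hi₁
  have hA' : W.tr X (1 * v i₀) ≠ 0 := right_ne_zero_of_mul hi₀
  have hB : W.tr X (pt * v' i₀) ≠ 0 := left_ne_zero_of_mul hi₀
  have hB' : W.tr X (pt * v i₁) ≠ 0 := right_ne_zero_of_mul hi₁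
  have hconst : ∀ (l : ℕ) (x y : W.H X), fB hpar l (W.pureT fun _ => x) (W.pureT fun _ => y) =
      W.tr X (x * y) ^ l := by
    intro l x y
    rw [fB_pureT, Finset.prod_const, Finset.card_univ, Fintype.card_fin]
  have hn0 : (0 : ℝ) < n := by exact_mod_cast hn
  have hle1 : ξ i₀ ≤ ξ i₁ := by
    have h2 := (hP _ (pureT_alg (v := fun _ : Fin n => (1 : W.H X)) fun _ => h1a) _
      (pureT_alg (v := fun _ : Fin n => (1 : W.H X)) fun _ => h1a) (fun _ => i₁) (fun _ => i₀)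
      (by rw [hconst]; exact pow_ne_zero _ hA) (by rw [hconst]; exact pow_ne_zero _ hA')).1
    unfold wt at h2
    rw [Finset.sum_const, Finset.sum_const, Finset.card_univ, Fintype.card_fin, nsmul_eq_mul,
      nsmul_eq_mul, ← mul_sub] at h2
    have h3 := nonneg_of_mul_nonneg_right h2 hn0
    linarith
  have hle2 : ξ i₁ ≤ ξ i₀ := by
    have h2 := (hP _ (pureT_alg (v := fun _ : Fin n => pt) fun _ => hpt) _
      (pureT_alg (v := fun _ : Fin n => pt) fun _ => hpt) (fun _ => i₀) (fun _ => i₁)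
      (by rw [hconst]; exact pow_ne_zero _ hB) (by rw [hconst]; exact pow_ne_zero _ hB')).1
    unfold wt at h2
    rw [Finset.sum_const, Finset.sum_const, Finset.card_univ, Fintype.card_fin, nsmul_eq_mul,
      nsmul_eq_mul, ← mul_sub] at h2
    have h3 := nonneg_of_mul_nonneg_right h2 hn0
    linarith
  have heq : ξ i₁ = ξ i₀ := le_antisymm hle2 hle1
  refine ⟨i₀, fun m hm Y hY a => ?_⟩
  obtain ⟨l, rfl⟩ := Nat.exists_eq_add_of_le hm
  have hY1 : W.box2 Y (W.pureT fun _ : Fin l => (1 : W.H X)) ∈ W.algSpan (X.pow (m + l)) :=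
    W.box2_mem hY (pureT_alg fun _ => h1a)
  have h1n : W.pureT (fun _ : Fin (m + l) => (1 : W.H X)) ∈ W.algSpan (X.pow (m + l)) :=
    pureT_alg fun _ => h1a
  have hsumc : ∀ i : α, ∑ _s : Fin (m + l), ξ i = (m : ℝ) * ξ i + l * ξ i := by
    intro i
    rw [Finset.sum_const, Finset.card_univ, Fintype.card_fin, nsmul_eq_mul]
    push_cast; ring
  have hsuml : ∀ i : α, ∑ _s : Fin l, ξ i = (l : ℝ) * ξ i := by
    intro i
    rw [Finset.sum_const, Finset.card_univ, Fintype.card_fin, nsmul_eq_mul]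
  have hsub : ∑ s, (ξ (a s) - ξ i₀) = ∑ s, ξ (a s) - (m : ℝ) * ξ i₀ := by
    rw [Finset.sum_sub_distrib, Finset.sum_const, Finset.card_univ, Fintype.card_fin, nsmul_eq_mul]
  refine ⟨fun hne => ?_, fun hne => ?_⟩
  · have h2 := hP _ h1n _ hY1 (fun _ => i₁) (Fin.append a fun _ => i₀)
      (by rw [hconst]; exact pow_ne_zero _ hA)
      (by
        rw [comp_append, fB_box2, hconst]
        exact mul_ne_zero hne (pow_ne_zero _ hA'))
    unfold wt at h2
    rw [sum_append, hsumc, hsuml, heq] at h2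
    rw [hsub]
    refine ⟨by linarith [h2.1], fun hnt => ?_⟩
    have h3 := h2.2 (Or.inr (NT.box2 W hnt (pureT_alg fun _ => h1a)))
    linarith
  · have h2 := hP _ hY1 _ h1n (Fin.append a fun _ => i₁) (fun _ => i₀)
      (by
        rw [comp_append, fB_box2, hconst]
        exact mul_ne_zero hne (pow_ne_zero _ hA))
      (by rw [hconst]; exact pow_ne_zero _ hA')
    unfold wt at h2
    rw [sum_append, hsumc, hsuml, heq] at h2
    rw [hsub]
    refine ⟨by linarith [h2.1], fun hnt => ?_⟩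
    have h3 := h2.2 (Or.inl (NT.box2 W hnt (pureT_alg fun _ => h1a)))
    linarith

/-- The normalised weights of the algebraic classes on the powers `X^m`, `m ≤ n`. -/
theorem exists_normal [CharZero K] {X : 𝒱.Obj} (hpar : W.par X ∈ W.algHom X X) {n : ℕ} (hn : 1 ≤ n)
    {α : Type} [Fintype α] {v v' : α → W.H X} {ξ : α → ℝ}
    (hexp : ∀ x, x = ∑ i, W.tr X (x * v' i) • v i) (hP : PosG hpar n v v' ξ) :
    ∃ p : ℝ, ∀ m ≤ n, ∀ Y ∈ W.algSpan (X.pow m), ∀ a : Fin m → α,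
      (fB hpar m Y (W.pureT fun s => v (a s)) ≠ 0 →
        ∑ s, (ξ (a s) - p) ≤ 0 ∧ (W.NT Y → ∑ s, (ξ (a s) - p) ≤ -1)) ∧
      (fB hpar m Y (W.pureT fun s => v' (a s)) ≠ 0 →
        0 ≤ ∑ s, (ξ (a s) - p) ∧ (W.NT Y → 1 ≤ ∑ s, (ξ (a s) - p))) := by
  obtain ⟨i₀, h⟩ := exists_normal' hpar hn hexp hP
  exact ⟨ξ i₀, h⟩

end H13F
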