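import Pool.Agent.WeilH_h6.Pow

set_option autoImplicit false

/-!
# Symmetries of the cohomology of a variety
-/

noncomputable section

namespace H13F

open AlgebraicGeometry CategoryTheory MonoidalCategory
open Pool.Agent.WeilH_h6 Pool.Agent.WeilH_h6.VarClass Pool.Agent.WeilH_h6.Weil

universe u v w

variable {k : Type u} [Field k] {𝒱 : VarClass k} {K : Type v} [Field K]

/-- A symmetry of `H(X)`: a map `g`, semilinear with respect to an automorphism `σ` of `K` (for example
linear, `σ = id`), compatible with Poincaré duality up to a factor `μ`, whose external powers `G_m` on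
`H(X^m)` (`G_m (q_1^* v_1 ⋯ q_m^* v_m) = q_1^* (g v_1) ⋯ q_m^* (g v_m)`) preserve the `K`-span of the
algebraic classes. -/
structure Symm (W : Weil.{u, v, w} 𝒱 K) (X : 𝒱.Obj) where
  σ : K ≃+* K
  g : W.H X → W.H X
  μ : K
  G : (m : ℕ) → W.H (X.pow m) → W.H (X.pow m)
  μ_ne : μ ≠ 0
  g_add : ∀ x y, g (x + y) = g x + g y
  g_smul : ∀ (c : K) (x : W.H X), g (c • x) = σ c • g x
  tr_mul : ∀ x y, W.tr X (g x * g y) = μ * σ (W.tr X (x * y))
  G_add : ∀ m x y, G m (x + y) = G m x + G m y
  G_smul : ∀ m (c : K) (x : W.H (X.pow m)), G m (c • x) = σ c • G m x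
  G_pureT : ∀ m (v : Fin m → W.H X), G m (W.pureT v) = W.pureT fun s => g (v s)
  alg_iff : ∀ m a, G m a ∈ W.algSpan (X.pow m) ↔ a ∈ W.algSpan (X.pow m)

end H13F
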