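import Pool.Agent.W_f569db_h13.Struct
import Pool.Agent.W_f569db_h13.SymDefs

set_option autoImplicit false

/-!
# Symmetries
-/

noncomputable section

namespace H13F

open AlgebraicGeometry CategoryTheory MonoidalCategory
open scoped TensorProduct DirectSum
open Pool.Agent.WeilH_h6 Pool.Agent.WeilH_h6.VarClass Pool.Agent.WeilH_h6.Weil

universe u v w

variable {k : Type u} [Field k] {𝒱 : VarClass k} {K : Type v} [Field K] {W : Weil.{u, v, w} 𝒱 K}

namespace Symm

variable {X : 𝒱.Obj} (S : Symm W X)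

theorem g_zero : S.g 0 = 0 := by
  have h := S.g_smul 0 0
  rwa [zero_smul, map_zero, zero_smul] at h

theorem g_sum {ι : Type*} (s : Finset ι) (f : ι → W.H X) : S.g (∑ i ∈ s, f i) = ∑ i ∈ s, S.g (f i) := by
  classical
  induction s using Finset.induction_on with
  | empty => rw [Finset.sum_empty, Finset.sum_empty, S.g_zero]
  | insert a s ha ih => rw [Finset.sum_insert ha, Finset.sum_insert ha, S.g_add, ih]

theorem G_zero (m : ℕ) : S.G m 0 = 0 := by
  have h := S.G_smul m 0 0
  rwa [zero_smul, map_zero, zero_smul] at h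

theorem G_sum (m : ℕ) {ι : Type*} (s : Finset ι) (f : ι → W.H (X.pow m)) :
    S.G m (∑ i ∈ s, f i) = ∑ i ∈ s, S.G m (f i) := by
  classical
  induction s using Finset.induction_on with
  | empty => rw [Finset.sum_empty, Finset.sum_empty, S.G_zero]
  | insert a s ha ih => rw [Finset.sum_insert ha, Finset.sum_insert ha, S.G_add, ih]

theorem g_inj {x : W.H X} (h : S.g x = 0) : x = 0 := by
  refine W.duality X _ fun y => ?_
  have h1 := S.tr_mul x y
  rw [h, zero_mul, map_zero] at h1
  rcases mul_eq_zero.1 h1.symm with h2 | h2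
  · exact absurd h2 S.μ_ne
  · exact (map_eq_zero S.σ).1 h2

/-- the matrix of a symmetry -/
theorem exists_matrix {α : Type} [Fintype α] [DecidableEq α] (b : Module.Basis α K (W.H X)) :
    ∃ γ : (Matrix α α K)ˣ, ∀ j, S.g (b j) = ∑ i, (γ : Matrix α α K) i j • b i := by
  let γ : Matrix α α K := Matrix.of fun i j => b.repr (S.g (b j)) i
  have hγ : ∀ j, S.g (b j) = ∑ i, γ i j • b i := fun j => (b.sum_repr (S.g (b j))).symm
  have hdet : γ.det ≠ 0 := by
    intro h0
    obtain ⟨y, hy, hy0⟩ := Matrix.exists_mulVec_eq_zero_iff.2 h0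
    apply hy
    have h1 : S.g (∑ j, S.σ.symm (y j) • b j) = 0 := by
      rw [S.g_sum]
      have h2 : ∀ j, S.g (S.σ.symm (y j) • b j) = ∑ i, (γ i j * y j) • b i := by
        intro j
        rw [S.g_smul, RingEquiv.apply_symm_apply, hγ, Finset.smul_sum]
        refine Finset.sum_congr rfl fun i _ => ?_
        rw [smul_smul, mul_comm]
      simp only [h2]
      rw [Finset.sum_comm]
      refine Finset.sum_eq_zero fun i _ => ?_
      rw [← Finset.sum_smul]
      have h3 := congrFun hy0 i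
      rw [Matrix.mulVec, dotProduct] at h3
      rw [h3]
      exact zero_smul K _
    have h2 := S.g_inj h1
    have h3 := Fintype.linearIndependent_iff.1 b.linearIndependent _ h2
    funext j
    have h4 := h3 j
    exact (map_eq_zero S.σ.symm).1 h4
  exact ⟨Matrix.nonsingInvUnit γ (isUnit_iff_ne_zero.2 hdet), fun j => hγ j⟩

theorem g_surj_aux {α : Type} [Fintype α] [DecidableEq α] (b : Module.Basis α K (W.H X)) (y : W.H X) :
    ∃ x, S.g x = y := by
  obtain ⟨γ, hγ⟩ := S.exists_matrix b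
  obtain ⟨c, hc⟩ : ∃ c : α → K, (γ : Matrix α α K).mulVec c = fun i => b.repr y i :=
    ⟨((γ⁻¹ : (Matrix α α K)ˣ) : Matrix α α K).mulVec fun i => b.repr y i, by
      rw [Matrix.mulVec_mulVec, Units.mul_inv, Matrix.one_mulVec]⟩
  refine ⟨∑ j, S.σ.symm (c j) • b j, ?_⟩
  rw [S.g_sum]
  have h2 : ∀ j, S.g (S.σ.symm (c j) • b j) = ∑ i, ((γ : Matrix α α K) i j * c j) • b i := by
    intro j
    rw [S.g_smul, RingEquiv.apply_symm_apply, hγ, Finset.smul_sum]
    refine Finset.sum_congr rfl fun i _ => ?_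
    rw [smul_smul, mul_comm]
  simp only [h2]
  rw [Finset.sum_comm]
  have h3 : ∀ i, ∑ j, ((γ : Matrix α α K) i j * c j) • b i = b.repr y i • b i := by
    intro i
    rw [← Finset.sum_smul]
    congr 1
    have h5 := congrFun hc i
    rw [Matrix.mulVec, dotProduct] at h5
    exact h5
  simp only [h3]
  exact b.sum_repr y

theorem g_surj (y : W.H X) : ∃ x, S.g x = y := S.g_surj_aux (Module.finBasis K (W.H X)) y

/-- a symmetry commutes with the parity -/
theorem g_par (x : W.H X) : S.g (W.par X x) = W.par X (S.g x) := by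
  refine W.ext_tr' fun v => ?_
  obtain ⟨y, rfl⟩ := S.g_surj v
  have h1 : W.tr X (S.g y * W.par X (S.g x)) = W.tr X (S.g x * S.g y) := (W.tr_comm _ _).symm
  rw [h1, S.tr_mul, S.tr_mul, W.tr_comm x y]

theorem G_surj (m : ℕ) (y : W.H (X.pow m)) : ∃ x, S.G m x = y := by
  refine W.pure_induction (P := fun y => ∃ x, S.G m x = y) ?_ ?_ ?_ y
  · rintro _ _ ⟨x, rfl⟩ ⟨x', rfl⟩
    exact ⟨x + x', S.G_add m x x'⟩
  · rintro c _ ⟨x, rfl⟩
    exact ⟨S.σ.symm c • x, by rw [S.G_smul, RingEquiv.apply_symm_apply]⟩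
  · intro v
    choose u hu using fun s => S.g_surj (v s)
    exact ⟨W.pureT u, by rw [S.G_pureT]; congr 1; funext s; exact hu s⟩

theorem fB_G [CharZero K] (hpar : W.par X ∈ W.algHom X X) (m : ℕ) (a : W.H (X.pow m))
    (w : Fin m → W.H X) :
    fB hpar m (S.G m a) (W.pureT fun s => S.g (w s)) = S.μ ^ m * S.σ (fB hpar m a (W.pureT w)) := by
  refine W.pure_induction (P := fun a => fB hpar m (S.G m a) (W.pureT fun s => S.g (w s)) =
    S.μ ^ m * S.σ (fB hpar m a (W.pureT w))) ?_ ?_ ?_ a
  · intro a b ha hb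
    rw [S.G_add, fB_add_left, ha, hb, fB_add_left, map_add, mul_add]
  · intro c a ha
    rw [S.G_smul, fB_smul_left, ha, fB_smul_left, map_mul]; ring
  · intro u
    rw [S.G_pureT, fB_pureT, fB_pureT, map_prod]
    simp only [S.tr_mul]
    rw [Finset.prod_mul_distrib, Finset.prod_const, Finset.card_univ, Fintype.card_fin]

theorem tr_G [CharZero K] (m : ℕ) (a b : W.H (X.pow m)) :
    W.tr (X.pow m) (S.G m a * S.G m b) = S.μ ^ m * S.σ (W.tr (X.pow m) (a * b)) := by
  refine pure_induction₂ (P := fun a b => W.tr (X.pow m) (S.G m a * S.G m b) =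
    S.μ ^ m * S.σ (W.tr (X.pow m) (a * b))) ?_ ?_ ?_ ?_ ?_ a b
  · intro a a' b h h'
    rw [S.G_add, add_mul, map_add, h, h', add_mul, map_add, map_add, mul_add]
  · intro a b b' h h'
    rw [S.G_add, mul_add, map_add, h, h', mul_add, map_add, map_add, mul_add]
  · intro c a b h
    rw [S.G_smul, smul_mul_assoc, map_smul, h, smul_mul_assoc, map_smul, smul_eq_mul, smul_eq_mul,
      map_mul S.σ]; ring
  · intro c a b h
    rw [S.G_smul, mul_smul_comm, map_smul, h, mul_smul_comm, map_smul, smul_eq_mul, smul_eq_mul,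
      map_mul S.σ]; ring
  · intro v v'
    have hexp : ∀ v : Fin m → W.H X, W.pureT v = ∑ τ : Fin m → Fin 2,
        W.pureT fun s => parPr W X (τ s) (v s) := by
      intro v
      have h2 : v = fun s => ∑ i : Fin 2, parPr W X i (v s) := by
        funext s; rw [parPr_add]
      conv_lhs => rw [h2, ← pureM_apply, MultilinearMap.map_sum]
      simp only [pureM_apply]
    rw [hexp v, hexp v', S.G_sum, S.G_sum, Finset.sum_mul_sum, Finset.sum_mul_sum, map_sum, map_sum,
      map_sum, Finset.mul_sum]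
    refine Finset.sum_congr rfl fun τ _ => ?_
    rw [map_sum, map_sum, map_sum, Finset.mul_sum]
    refine Finset.sum_congr rfl fun τ' _ => ?_
    obtain ⟨ε, hε, hm⟩ := mul_pureT' W (X := X) m (fun s => ((τ s : Fin 2) : ℕ))
      (fun s => ((τ' s : Fin 2) : ℕ))
    have hg : ∀ (i : Fin 2) (x : W.H X), W.par X (S.g (parPr W X i x)) =
        ((-1 : K) ^ ((i : Fin 2) : ℕ)) • S.g (parPr W X i x) := by
      intro i x
      rw [← S.g_par, par_parPr, S.g_smul]
      congr 1
      rw [map_pow, map_neg, map_one]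
    rw [S.G_pureT, S.G_pureT, hm _ _ (fun s => hg _ _) (fun s => hg _ _),
      hm _ _ (fun s => par_parPr W _ _) (fun s => par_parPr W _ _), map_smul, map_smul, tr_pureT,
      tr_pureT, smul_eq_mul, smul_eq_mul, map_mul, map_prod]
    have hσε : S.σ ε = ε := by
      rcases hε with rfl | rfl
      · exact map_one _
      · rw [map_neg, map_one]
    rw [hσε]
    simp only [S.tr_mul]
    rw [Finset.prod_mul_distrib, Finset.prod_const, Finset.card_univ, Fintype.card_fin]
    ring

theorem nt_of_G [CharZero K] (m : ℕ) {a : W.H (X.pow m)} (h : W.NT (S.G m a)) : W.NT a := by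
  refine ⟨(S.alg_iff m a).1 h.1, fun b hb => ?_⟩
  have h1 := h.2 _ ((S.alg_iff m b).2 hb)
  rw [S.tr_G] at h1
  rcases mul_eq_zero.1 h1 with h2 | h2
  · exact absurd h2 (pow_ne_zero _ S.μ_ne)
  · exact (map_eq_zero S.σ).1 h2

end Symm

end H13F
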