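import Pool.Agent.W_f569db_h13.SymN
import Pool.Agent.W_f569db_h13.Conv

set_option autoImplicit false

/-!
# External powers of symmetries; linear maps fixing the algebraic classes; the grading
-/

noncomputable section

namespace H13F

open AlgebraicGeometry CategoryTheory MonoidalCategory
open scoped TensorProduct DirectSum
open Pool.Agent.WeilH_h6 Pool.Agent.WeilH_h6.VarClass Pool.Agent.WeilH_h6.Weil

universe u v w

variable {k : Type u} [Field k] {𝒱 : VarClass k} {K : Type v} [Field K] {W : Weil.{u, v, w} 𝒱 K}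

theorem exists_dual' (X : 𝒱.Obj) (l : Module.Dual K (W.H X)) :
    ∃ y : W.H X, ∀ x, W.tr X (x * y) = l x := by
  refine ⟨(W.pd X).symm (l ∘ₗ W.par X), fun x => ?_⟩
  rw [W.tr_comm, ← W.pd_apply, LinearEquiv.apply_symm_apply, LinearMap.comp_apply, W.par_par]

/-- external powers of a semilinear map -/
theorem exists_symG [CharZero K] {X : 𝒱.Obj} (hpar : W.par X ∈ W.algHom X X) (σ : K ≃+* K)
    (g : W.H X → W.H X) (μ : K) (hμ : μ ≠ 0) (hadd : ∀ x y, g (x + y) = g x + g y)
    (hsmul : ∀ (c : K) x, g (c • x) = σ c • g x)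
    (htr : ∀ x y, W.tr X (g x * g y) = μ * σ (W.tr X (x * y))) :
    ∃ S : SymG W X, S.σ = σ ∧ S.g = g ∧ S.μ = μ := by
  classical
  let b := Module.finBasis K (W.H X)
  choose b' hb' using fun j => exists_dual' (W := W) X (b.coord j)
  have hexp : ∀ x, x = ∑ i, W.tr X (x * b' i) • b i := by
    intro x
    conv_lhs => rw [← b.sum_repr x]
    refine Finset.sum_congr rfl fun i _ => ?_
    rw [hb', b.coord_apply]
  have hg0 : g 0 = 0 := by
    have h := hsmul 0 0
    rwa [zero_smul, map_zero, zero_smul] at h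
  have hgsum : ∀ (f : Fin (Module.finrank K (W.H X)) → W.H X), g (∑ i, f i) = ∑ i, g (f i) := by
    intro f
    have : ∀ s : Finset (Fin (Module.finrank K (W.H X))), g (∑ i ∈ s, f i) = ∑ i ∈ s, g (f i) := by
      intro s
      induction s using Finset.induction_on with
      | empty => rw [Finset.sum_empty, Finset.sum_empty, hg0]
      | insert a s ha ih => rw [Finset.sum_insert ha, Finset.sum_insert ha, hadd, ih]
    exact this _
  refine ⟨{ σ := σ, g := g, μ := μ, μ_ne := hμ, g_add := hadd, g_smul := hsmul, tr_mul := htr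
            G := fun m a => ∑ I : Fin m → Fin (Module.finrank K (W.H X)),
              σ (fB hpar m a (W.pureT fun s => b' (I s))) • W.pureT fun s => g (b (I s))
            G_add := ?_, G_smul := ?_, G_pureT := ?_ }, rfl, rfl, rfl⟩
  · intro m x y
    rw [← Finset.sum_add_distrib]
    refine Finset.sum_congr rfl fun I _ => ?_
    rw [fB_add_left, map_add, add_smul]
  · intro m c x
    rw [Finset.smul_sum]
    refine Finset.sum_congr rfl fun I _ => ?_
    rw [fB_smul_left, map_mul, smul_smul]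
  · intro m v
    have h1 : (fun s => g (v s)) = fun s => ∑ i, σ (W.tr X (v s * b' i)) • g (b i) := by
      funext s
      conv_lhs => rw [hexp (v s)]
      rw [hgsum]
      exact Finset.sum_congr rfl fun i _ => hsmul _ _
    conv_rhs => rw [h1, ← pureM_apply, MultilinearMap.map_sum]
    refine Finset.sum_congr rfl fun I _ => ?_
    rw [MultilinearMap.map_smul_univ, pureM_apply, fB_pureT, map_prod]

theorem pairing_ext {X : 𝒱.Obj} {m : ℕ} {a b : W.H (X.pow m)}
    (h : ∀ v, pairing W a v = pairing W b v) : a = b := by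
  refine W.ext_tr fun w => ?_
  refine W.pure_induction (P := fun w => W.tr _ (a * w) = W.tr _ (b * w)) ?_ ?_ ?_ w
  · intro x y hx hy; rw [mul_add, mul_add, map_add, map_add, hx, hy]
  · intro c x hx; rw [mul_smul_comm, mul_smul_comm, map_smul, map_smul, hx]
  · intro v; exact h v

namespace SymG

variable {X : 𝒱.Obj} (S : SymG W X)

theorem pairing_G [CharZero K] (m : ℕ) (b : W.H (X.pow m)) (v : Fin m → W.H X) :
    pairing W (S.G m b) (fun s => S.g (v s)) = S.μ ^ m * S.σ (pairing W b v) := by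
  unfold pairing
  rw [← S.G_pureT]
  exact S.tr_G m b (W.pureT v)

/-- the relation between a class and its transform -/
theorem G_eq_of_pairing [CharZero K] {m : ℕ} {a b : W.H (X.pow m)}
    (h : ∀ v, pairing W a (fun s => S.g (v s)) = S.σ (pairing W b v)) : S.G m b = S.μ ^ m • a := by
  refine pairing_ext fun w => ?_
  choose v hv using fun s => S.g_surj (w s)
  have hw : w = fun s => S.g (v s) := funext fun s => (hv s).symm
  rw [hw, S.pairing_G, ← h]
  unfold pairing
  rw [smul_mul_assoc]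
  change _ = W.tr _ (S.μ ^ m • _)
  rw [map_smul, smul_eq_mul]

end SymG

/-- a symmetry has external powers which preserve the algebraic classes -/
theorem Sym.exists_G [CharZero K] {X : 𝒱.Obj} (hpar : W.par X ∈ W.algHom X X) {n : ℕ}
    (S : Sym W X n) : ∃ S' : SymG W X, S'.σ = S.σ ∧ S'.g = S.g ∧ S'.μ = S.μ ∧
      ∀ m ≤ n, ∀ b, S'.G m b ∈ W.algSpan (X.pow m) ↔ b ∈ W.algSpan (X.pow m) := by
  obtain ⟨S', h1, h2, h3⟩ := exists_symG hpar S.σ S.g S.μ S.μ_ne S.g_add S.g_smul S.duality
  refine ⟨S', h1, h2, h3, fun m hm b => ?_⟩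
  have hμ : S'.μ ^ m ≠ 0 := pow_ne_zero _ S'.μ_ne
  rw [← S.alg m hm ((S'.μ ^ m)⁻¹ • S'.G m b) b (fun v => by
    have h4 := S'.pairing_G m b v
    rw [h2, h1] at h4
    unfold pairing at h4 ⊢
    rw [smul_mul_assoc]
    change W.tr _ _ = _ at h4
    change W.tr _ _ = _
    rw [map_smul, h4, smul_eq_mul, ← mul_assoc, inv_mul_cancel₀ hμ, one_mul])]
  exact (Submodule.smul_mem_iff _ (inv_ne_zero hμ)).symm

/-- the diagonal class on `X^2` -/
theorem exists_diag2 (X : 𝒱.Obj) : ∃ Y ∈ W.algSpan (X.pow 2), ∀ x y : W.H X,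
    pairing W Y ![x, y] = W.tr X (x * y) := by
  obtain ⟨α, hα, hα'⟩ := W.mem_algHom_iff.1 (W.id_mem_algHom X)
  refine ⟨W.pull (pairq X) α, W.pull_mem_algSpan _ hα, fun x y => ?_⟩
  have h1 := hα' x y
  rw [LinearMap.id_apply] at h1
  rw [h1]
  change W.tr (X.pow 2) (W.pull (pairq X) α * W.pureT ![x, y]) = _
  rw [← tr_pull_pairq, map_mul (W.pull (pairq X)), pull_pairq]

/-- A linear map which fixes the algebraic classes on `X^2` is orthogonal. -/
theorem Fixes.tr_mul {X : 𝒱.Obj} {n : ℕ} (hn : 2 ≤ n) {φ : W.Hom X X} (h : Fixes W X n φ)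
    (x y : W.H X) : W.tr X (φ x * φ y) = W.tr X (x * y) := by
  obtain ⟨Y, hY, hY2⟩ := exists_diag2 (W := W) X
  have h1 := h 2 hn Y hY ![x, y]
  rw [hY2] at h1
  rw [← h1, ← hY2]
  congr 1
  funext s
  fin_cases s <;> rfl

/-- The external powers of a linear map which fixes the algebraic classes. -/
theorem Fixes.exists_G [CharZero K] {X : 𝒱.Obj} (hpar : W.par X ∈ W.algHom X X) {n : ℕ}
    (hn : 2 ≤ n) {φ : W.Hom X X} (h : Fixes W X n φ) : ∃ S : SymG W X, S.σ = RingEquiv.refl K ∧
      S.g = φ ∧ S.μ = 1 ∧ ∀ m ≤ n, ∀ a ∈ W.algSpan (X.pow m), S.G m a = a := by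
  obtain ⟨S, h1, h2, h3⟩ := exists_symG hpar (RingEquiv.refl K) φ 1 one_ne_zero (map_add φ)
    (map_smul φ) (fun x y => by rw [h.tr_mul hn, one_mul]; rfl)
  refine ⟨S, h1, h2, h3, fun m hm a ha => ?_⟩
  have h4 := S.G_eq_of_pairing (a := a) (b := a) (fun v => by
    rw [h1, h2]
    exact h m hm a ha v)
  rw [h4, h3, one_pow, one_smul]

/-- A linear map which fixes the algebraic classes is a symmetry. -/
theorem Fixes.exists_sym [CharZero K] {X : 𝒱.Obj} (hpar : W.par X ∈ W.algHom X X) {n : ℕ}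
    (hn : 2 ≤ n) {φ : W.Hom X X} (h : Fixes W X n φ) : ∃ S : Sym W X n, S.g = φ := by
  obtain ⟨S, h1, h2, h3, h4⟩ := h.exists_G hpar hn
  refine ⟨{ σ := RingEquiv.refl K, g := φ, μ := 1, μ_ne := one_ne_zero, g_add := map_add φ
            g_smul := map_smul φ, duality := fun x y => by rw [one_mul]; exact h.tr_mul hn x y
            alg := ?_ }, rfl⟩
  intro m hm a b hab
  have h5 : S.G m b = a := by
    have h6 := S.G_eq_of_pairing (a := a) (b := b) (fun v => by
      rw [h1, h2]
      exact hab v)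
    rw [h6, h3, one_pow, one_smul]
  constructor
  · intro ha
    have h6 : b = a := by
      refine pairing_ext fun v => ?_
      have h7 := hab v
      have h8 := h m hm a ha v
      exact h7.symm.trans h8
    rw [h6]; exact ha
  · intro hb
    rw [← h5, h4 m hm b hb]; exact hb

/-! ### The grading -/

/-- The operator on `H(X)` which is multiplication by `c^i` on `H^i(X)`. -/
def gr (W : Weil.{u, v, w} 𝒱 K) (c : K) (X : 𝒱.Obj) : W.H X →ₗ[K] W.H X :=
  (DirectSum.toModule K ℕ (W.H X) fun i => (c ^ i) • (W.grad X i).subtype) ∘ₗ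
    (LinearEquiv.ofBijective (DirectSum.coeLinearMap (W.grad X)) (W.isInternal X)).symm.toLinearMap

theorem gr_apply {X : 𝒱.Obj} (c : K) {i : ℕ} {x : W.H X} (hx : x ∈ W.grad X i) :
    gr W c X x = c ^ i • x := by
  have h : (LinearEquiv.ofBijective (DirectSum.coeLinearMap (W.grad X)) (W.isInternal X)).symm x =
      DirectSum.lof K ℕ (fun i => W.grad X i) i ⟨x, hx⟩ := by
    rw [LinearEquiv.symm_apply_eq]
    change x = DirectSum.coeLinearMap (W.grad X) _
    rw [DirectSum.coeLinearMap_lof]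
  change (DirectSum.toModule K ℕ (W.H X) fun i => (c ^ i) • (W.grad X i).subtype)
    ((LinearEquiv.ofBijective (DirectSum.coeLinearMap (W.grad X)) (W.isInternal X)).symm x) = _
  rw [h, DirectSum.toModule_lof]
  rfl

theorem gr_gr {X : 𝒱.Obj} (c d : K) (x : W.H X) : gr W c X (gr W d X x) = gr W (c * d) X x := by
  refine W.hom_induction (P := fun x => gr W c X (gr W d X x) = gr W (c * d) X x) (by simp) ?_ ?_ x
  · intro x y hx hy; rw [map_add, map_add, map_add, hx, hy]
  · intro i x hx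
    rw [gr_apply d hx, map_smul, gr_apply c hx, gr_apply _ hx, smul_smul, mul_pow, mul_comm]

theorem gr_one {X : 𝒱.Obj} (x : W.H X) : gr W 1 X x = x := by
  refine W.hom_induction (P := fun x => gr W 1 X x = x) (by simp) ?_ ?_ x
  · intro x y hx hy; rw [map_add, hx, hy]
  · intro i x hx
    rw [gr_apply _ hx, one_pow, one_smul]

theorem gr_mul {X : 𝒱.Obj} (c : K) (x y : W.H X) :
    gr W c X (x * y) = gr W c X x * gr W c X y := by
  refine W.hom_induction (P := fun x => gr W c X (x * y) = gr W c X x * gr W c X y) (by simp) ?_ ?_ x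
  · intro x x' hx hy; rw [add_mul, map_add, map_add, hx, hy, add_mul]
  · intro i x hx
    refine W.hom_induction (P := fun y => gr W c X (x * y) = gr W c X x * gr W c X y) (by simp)
      ?_ ?_ y
    · intro y y' hx hy; rw [mul_add, map_add, map_add, hx, hy, mul_add]
    · intro j y hy
      rw [gr_apply c hx, gr_apply c hy, gr_apply c (W.mul_mem_grad hx hy), smul_mul_smul_comm,
        pow_add]

theorem gr_pull {X Y : 𝒱.Obj} (c : K) (f : X ⟶ Y) (y : W.H Y) :
    gr W c X (W.pull f y) = W.pull f (gr W c Y y) := by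
  refine W.hom_induction (P := fun y => gr W c X (W.pull f y) = W.pull f (gr W c Y y)) (by simp)
    ?_ ?_ y
  · intro x y hx hy; simp only [map_add, hx, hy]
  · intro i y hy
    rw [gr_apply c hy, gr_apply c (W.pull_grad f i y hy), map_smul]

theorem gr_algSpan {X : 𝒱.Obj} (c : K) {a : W.H X} (ha : a ∈ W.algSpan X) :
    gr W c X a ∈ W.algSpan X := by
  induction ha using Submodule.span_induction with
  | mem a ha =>
    obtain ⟨i, z, rfl⟩ := ha
    rw [gr_apply c (W.cl_mem_grad z)]
    exact Submodule.smul_mem _ _ (W.cl_mem_algSpan z)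
  | zero => rw [map_zero]; exact Submodule.zero_mem _
  | add x y _ _ hx hy => rw [map_add]; exact Submodule.add_mem _ hx hy
  | smul c x _ hx => rw [map_smul]; exact Submodule.smul_mem _ _ hx

theorem gr_pureT {X : 𝒱.Obj} (c : K) {m : ℕ} (v : Fin m → W.H X) :
    gr W c (X.pow m) (W.pureT v) = W.pureT fun s => gr W c X (v s) := by
  induction m with
  | zero =>
    rw [pureT_zero, pureT_zero]
    exact (gr_apply c (i := 0) (SetLike.one_mem_graded (W.grad (X.pow 0)))).trans (by rw [pow_zero, one_smul])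
  | succ m ih =>
    rw [pureT_succ, pureT_succ, gr_mul, gr_pull, gr_pull, ih]

theorem tr_gr {X : 𝒱.Obj} (c : K) (x : W.H X) :
    W.tr X (gr W c X x) = c ^ (2 * X.dim) * W.tr X x := by
  refine W.hom_induction (P := fun x => W.tr X (gr W c X x) = c ^ (2 * X.dim) * W.tr X x) (by simp)
    ?_ ?_ x
  · intro x y hx hy; rw [map_add, map_add, map_add, hx, hy, mul_add]
  · intro i x hx
    rw [gr_apply c hx, map_smul, smul_eq_mul]
    by_cases hi : i = 2 * X.dim
    · rw [hi]
    · rw [W.tr_grad X i x hx hi, mul_zero, mul_zero]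

/-- The grading gives symmetries. -/
theorem exists_sym_gr (X : 𝒱.Obj) (n : ℕ) {c : K} (hc : c ≠ 0) : ∃ S : Sym W X n, S.g = gr W c X := by
  refine ⟨{ σ := RingEquiv.refl K, g := gr W c X, μ := c ^ (2 * X.dim), μ_ne := pow_ne_zero _ hc
            g_add := map_add _, g_smul := map_smul _
            duality := fun x y => by
              change W.tr X _ = _ * W.tr X _
              rw [← gr_mul, tr_gr]
            alg := ?_ }, rfl⟩
  intro m _ a b hab
  have hinv : ∀ x : W.H (X.pow m), gr W c _ (gr W c⁻¹ _ x) = x := by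
    intro x
    rw [gr_gr, mul_inv_cancel₀ hc, gr_one]
  have hc' : c ^ (2 * (X.pow m).dim) ≠ 0 := pow_ne_zero _ hc
  have h1 : b = c ^ (2 * (X.pow m).dim) • gr W c⁻¹ _ a := by
    refine pairing_ext fun v => ?_
    have h2 : pairing W a (fun s => gr W c X (v s)) = pairing W b v := hab v
    rw [← h2]
    change W.tr _ (a * W.pureT _) = W.tr _ (_ * W.pureT v)
    rw [← gr_pureT, smul_mul_assoc, map_smul, smul_eq_mul]
    conv_lhs => rw [← hinv a]
    rw [← gr_mul, tr_gr]
  have h2 : a = (c ^ (2 * (X.pow m).dim))⁻¹ • gr W c _ b := by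
    rw [h1, map_smul, hinv, smul_smul, inv_mul_cancel₀ hc', one_smul]
  constructor
  · intro ha
    rw [h1]
    exact Submodule.smul_mem _ _ (gr_algSpan _ ha)
  · intro hb
    rw [h2]
    exact Submodule.smul_mem _ _ (gr_algSpan _ hb)

/-- A subspace stable under the grading operator is graded. -/
theorem graded_of_stable [CharZero K] {X : 𝒱.Obj} (U : Submodule K (W.H X))
    (hU : ∀ x ∈ U, gr W 2 X x ∈ U) : U ≤ ⨆ i, U ⊓ W.grad X i := by
  let f : Module.End K (W.H X) := gr W 2 X
  have hgr : ∀ i, W.grad X i ≤ f.genEigenspace ((2 : K) ^ i) (1 : ℕ) := by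
    intro i x hx
    rw [Module.End.mem_genEigenspace_nat, LinearMap.mem_ker, pow_one, LinearMap.sub_apply]
    change gr W 2 X x - (2 : K) ^ i • x = 0
    rw [gr_apply 2 hx, sub_self]
  have htop : (⨆ μ, f.genEigenspace μ (1 : ℕ)) = ⊤ := by
    rw [eq_top_iff, ← (W.isInternal X).submodule_iSup_eq_top]
    exact iSup_le fun i => (hgr i).trans (le_iSup (fun μ => f.genEigenspace μ (1 : ℕ)) ((2 : K) ^ i))
  have h1 := Submodule.inf_iSup_genEigenspace (f := f) (p := U) hU ((1 : ℕ) : ℕ∞)
  rw [htop, inf_top_eq] at h1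
  refine h1.le.trans ?_
  refine iSup_le fun μ x hx => ?_
  obtain ⟨hxU, hxμ⟩ := hx
  have hxμ' : gr W 2 X x = μ • x := by
    have h2 : x ∈ f.genEigenspace μ (1 : ℕ) := hxμ
    rw [Module.End.mem_genEigenspace_nat, LinearMap.mem_ker, pow_one, LinearMap.sub_apply] at h2
    exact sub_eq_zero.1 h2
  have hx1 : x ∈ f.genEigenspace μ (1 : ℕ) := hxμ
  have hdis := Module.End.independent_genEigenspace f ((1 : ℕ) : ℕ∞) μ
  have hxtop : x ∈ ⨆ i, W.grad X i := by
    rw [(W.isInternal X).submodule_iSup_eq_top]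
    exact Submodule.mem_top
  by_cases hμ : ∃ i₀, μ = (2 : K) ^ i₀
  · obtain ⟨i₀, rfl⟩ := hμ
    rw [iSup_split_single (fun i => W.grad X i) i₀] at hxtop
    obtain ⟨a, ha, b, hb, hab⟩ := Submodule.mem_sup.1 hxtop
    have hb1 : b ∈ ⨆ ν, ⨆ (_ : ν ≠ (2 : K) ^ i₀), f.genEigenspace ν (1 : ℕ) := by
      refine (iSup_le fun i => iSup_le fun hi => ?_ : (⨆ i, ⨆ (_ : i ≠ i₀), W.grad X i) ≤ _) hb
      refine (hgr i).trans ?_
      refine le_iSup_of_le ((2 : K) ^ i) (le_iSup_of_le ?_ le_rfl)
      intro h2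
      apply hi
      have h3 : ((2 : ℕ) : K) ^ i = ((2 : ℕ) : K) ^ i₀ := by exact_mod_cast h2
      rw [← Nat.cast_pow, ← Nat.cast_pow] at h3
      exact Nat.pow_right_injective le_rfl (Nat.cast_injective h3)
    have hb2 : b ∈ f.genEigenspace ((2 : K) ^ i₀) (1 : ℕ) := by
      have h2 : b = x - a := by rw [← hab]; abel
      rw [h2]
      exact Submodule.sub_mem _ hx1 (hgr i₀ ha)
    have hb0 : b = 0 := (Submodule.disjoint_def.1 hdis) b hb2 hb1
    refine Submodule.mem_iSup_of_mem i₀ ⟨hxU, ?_⟩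
    rw [← hab, hb0, add_zero]
    exact ha
  · have hx2 : x ∈ ⨆ ν, ⨆ (_ : ν ≠ μ), f.genEigenspace ν (1 : ℕ) := by
      refine (iSup_le fun i => ?_ : (⨆ i, W.grad X i) ≤ _) hxtop
      refine (hgr i).trans ?_
      refine le_iSup_of_le ((2 : K) ^ i) (le_iSup_of_le ?_ le_rfl)
      intro h2
      exact hμ ⟨i, h2.symm⟩
    have hx0 : x = 0 := (Submodule.disjoint_def.1 hdis) x hx1 hx2
    rw [hx0]
    exact Submodule.zero_mem _

end H13F
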