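import Pool.Agent.W_f569db_h13.SymDefs

set_option autoImplicit false

/-!
# Weighted bases and their filtrations
-/

noncomputable section

namespace H13F

open AlgebraicGeometry CategoryTheory MonoidalCategory
open Pool.Agent.WeilH_h6 Pool.Agent.WeilH_h6.VarClass Pool.Agent.WeilH_h6.Weil

universe u v w

variable {k : Type u} [Field k] {𝒱 : VarClass k} {K : Type v} [Field K]

/-- A basis of `H(X)` over `K` with real weights. -/
structure WBasis (W : Weil.{u, v, w} 𝒱 K) (X : 𝒱.Obj) where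
  r : ℕ
  v : Module.Basis (Fin r) K (W.H X)
  ξ : Fin r → ℝ

namespace WBasis

variable {W : Weil.{u, v, w} 𝒱 K} {X : 𝒱.Obj} (B : WBasis W X)

/-- The decreasing filtration `F^t` of `H(X)`: the span of the basis vectors of weight at least `t`. -/
def F (t : ℝ) : Submodule K (W.H X) := Submodule.span K (B.v '' {i | t ≤ B.ξ i})

/-- The filtration is self-dual for Poincaré duality: `(F^t)^⊥ = F^{> -t}`. -/
def SelfDual : Prop :=
  ∀ (t : ℝ) (x : W.H X), (∀ y ∈ B.F t, W.tr X (x * y) = 0) ↔ ∃ s, -t < s ∧ x ∈ B.F s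

/-- The class `a` on `X^m` has weight `≥ 0`: it is orthogonal to all `q_1^* x_1 ⋯ q_m^* x_m` with
`x_s ∈ F^{t_s}` and `∑ t_s > 0`. -/
def Ge {m : ℕ} (a : W.H (X.pow m)) : Prop :=
  ∀ (t : Fin m → ℝ) (x : Fin m → W.H X), (∀ s, x s ∈ B.F (t s)) → 0 < ∑ s, t s →
    W.tr (X.pow m) (a * W.pureT x) = 0

/-- The class `a` on `X^m` has weight `> 0`: it is orthogonal to all `q_1^* x_1 ⋯ q_m^* x_m` with
`x_s ∈ F^{t_s}` and `∑ t_s ≥ 0`. -/
def Gt {m : ℕ} (a : W.H (X.pow m)) : Prop :=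
  ∀ (t : Fin m → ℝ) (x : Fin m → W.H X), (∀ s, x s ∈ B.F (t s)) → 0 ≤ ∑ s, t s →
    W.tr (X.pow m) (a * W.pureT x) = 0

end WBasis

end H13F
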