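import Pool.Agent.W_f569db_h13.Flat
import Pool.Agent.W_f569db_h13.CoreK
import Pool.Agent.WeilH_h6.Coord

set_option autoImplicit false

/-!
# The weighted basis of `H(X)` attached to a nonzero numerically trivial class on `X^n`
-/

noncomputable section

namespace H13F

open AlgebraicGeometry CategoryTheory MonoidalCategory
open scoped TensorProduct DirectSum
open Pool.Agent.WeilH_h6 Pool.Agent.WeilH_h6.VarClass Pool.Agent.WeilH_h6.Weil

universe u v w

variable {k : Type u} [Field k] {𝒱 : VarClass k} {K : Type v} [Field K] (W : Weil.{u, v, w} 𝒱 K)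

section alg

variable {W} {X : 𝒱.Obj} {α : Type} [Fintype α] [DecidableEq α]

/-- the columns of `h` -/
def colB (b : α → W.H X) (h : Matrix α α K) (j : α) : W.H X := ∑ i, h i j • b i

/-- the rows of `h` -/
def rowB (b' : α → W.H X) (h : Matrix α α K) (j : α) : W.H X := ∑ i, h j i • b' i

theorem cj_rk {b b' : α → W.H X} (hd : ∀ i j, W.tr X (b i * b' j) = if i = j then 1 else 0)
    {n : ℕ} (h : (Matrix α α K)ˣ) (y z : (Fin n → α) → K) (a a' : Fin n → α) :
    H69.cj h⁻¹ (rk W b y z) a a' =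
      flat W b y (fun s => rowB b' ((h⁻¹ : (Matrix α α K)ˣ) : Matrix α α K) (a s)) *
        flat W b z (fun s => colB b (h : Matrix α α K) (a' s)) := by
  classical
  have h1 : flat W b y (fun s => rowB b' ((h⁻¹ : (Matrix α α K)ˣ) : Matrix α α K) (a s)) =
      ∑ p, (∏ s, ((h⁻¹ : (Matrix α α K)ˣ) : Matrix α α K) (a s) (p s)) * y p := by
    unfold flat
    refine Finset.sum_congr rfl fun c _ => ?_
    rw [mul_comm]
    congr 1
    refine Finset.prod_congr rfl fun s _ => ?_
    unfold rowB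
    rw [Finset.mul_sum, map_sum, Finset.sum_eq_single (c s)]
    · rw [mul_smul_comm, map_smul, hd, if_pos rfl, smul_eq_mul, mul_one]
    · intro i _ hi
      rw [mul_smul_comm, map_smul, hd, if_neg (Ne.symm hi), smul_zero]
    · intro h; exact absurd (Finset.mem_univ _) h
  have h2 : flat W b z (fun s => colB b (h : Matrix α α K) (a' s)) =
      ∑ q : Fin n → α, flat W b z (fun s => b (q s)) * ∏ s, (h : Matrix α α K) (q s) (a' s) := by
    unfold flat
    have h3 : ∀ c : Fin n → α, ∏ s, W.tr X (b (c s) * colB b (h : Matrix α α K) (a' s)) =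
        ∑ q : Fin n → α, ∏ s, ((h : Matrix α α K) (q s) (a' s) * W.tr X (b (c s) * b (q s))) := by
      intro c
      have h4 := Finset.prod_univ_sum (fun _ : Fin n => (Finset.univ : Finset α))
        (fun s i => (h : Matrix α α K) i (a' s) * W.tr X (b (c s) * b i))
      simp only [Fintype.piFinset_univ] at h4
      rw [← h4]
      refine Finset.prod_congr rfl fun s _ => ?_
      unfold colB
      rw [Finset.mul_sum, map_sum]
      refine Finset.sum_congr rfl fun i _ => ?_
      rw [mul_smul_comm, map_smul, smul_eq_mul]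
    simp only [h3, Finset.sum_mul, Finset.mul_sum]
    rw [Finset.sum_comm]
    refine Finset.sum_congr rfl fun q _ => Finset.sum_congr rfl fun c _ => ?_
    rw [Finset.prod_mul_distrib]; ring
  rw [h1, h2, H69.cj_entry, inv_inv, Finset.sum_mul_sum, Finset.sum_comm]
  refine Finset.sum_congr rfl fun p _ => Finset.sum_congr rfl fun q _ => ?_
  unfold rk
  rw [Matrix.of_apply]
  ring

/-- every class has coordinates -/
theorem exists_cls {n : ℕ} (b : α → W.H X) (hb : ∀ x, x ∈ Submodule.span K (Set.range b))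
    (Y : W.H (X.pow n)) : ∃ y, cls W b n y = Y := by
  have h1 : Y ∈ W.partOf (fun _ : Fin n => (⊤ : Submodule K (W.H X))) := by
    refine W.pure_induction (P := fun Y => Y ∈ W.partOf (fun _ : Fin n => (⊤ : Submodule K (W.H X))))
      ?_ ?_ ?_ Y
    · intro a b ha hb; exact Submodule.add_mem _ ha hb
    · intro c a ha; exact Submodule.smul_mem _ _ ha
    · intro v; exact Submodule.subset_span ⟨v, fun s => Submodule.mem_top, rfl⟩
  obtain ⟨x, hx⟩ := W.exists_coord (β := fun _ => α) (fun _ => b) (fun _ x _ => hb x) h1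
  exact ⟨x, hx.symm⟩

end alg

variable {W}

/-- The weights of the algebraic classes on `X^n` with respect to a weighted basis. -/
def PosG [CharZero K] {X : 𝒱.Obj} (hpar : W.par X ∈ W.algHom X X) (n : ℕ) {α : Type} [Fintype α]
    (v v' : α → W.H X) (ξ : α → ℝ) : Prop :=
  ∀ Y ∈ W.algSpan (X.pow n), ∀ Y' ∈ W.algSpan (X.pow n), ∀ a a' : Fin n → α,
    fB hpar n Y (W.pureT fun s => v' (a s)) ≠ 0 → fB hpar n Y' (W.pureT fun s => v (a' s)) ≠ 0 →
      0 ≤ wt ξ a a' ∧ (W.NT Y ∨ W.NT Y' → 1 ≤ wt ξ a a')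

/-- index set of pairs of coordinates of algebraic classes -/
def PairS (W : Weil.{u, v, w} 𝒱 K) {X : 𝒱.Obj} {α : Type} [Fintype α] (b : α → W.H X) (n : ℕ) :
    Type v :=
  {y : (Fin n → α) → K // cls W b n y ∈ W.algSpan (X.pow n)} ×
    {y : (Fin n → α) → K // cls W b n y ∈ W.algSpan (X.pow n)}

/-- the family -/
def famX {X : 𝒱.Obj} {α : Type} [Fintype α] (b : α → W.H X) (n : ℕ) (p : PairS W b n) :
    Matrix (Fin n → α) (Fin n → α) K := rk W b p.1.1 p.2.1

/-- the distinguished members -/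
def famZ {X : 𝒱.Obj} {α : Type} [Fintype α] (b : α → W.H X) (n : ℕ) : Set (PairS W b n) :=
  {p | W.NT (cls W b n p.1.1) ∨ W.NT (cls W b n p.2.1)}

theorem posS_iff [CharZero K] {X : 𝒱.Obj} (hpar : W.par X ∈ W.algHom X X) {α : Type} [Fintype α]
    [DecidableEq α] {b b' : α → W.H X} (hb : ∀ x, x ∈ Submodule.span K (Set.range b))
    (hd : ∀ i j, W.tr X (b i * b' j) = if i = j then 1 else 0) (n : ℕ) (h : (Matrix α α K)ˣ)
    (ξ : α → ℝ) :
    PosS (Set.range (famX (W := W) b n)) (famX b n '' famZ b n) h ξ ↔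
      PosG hpar n (colB b (h : Matrix α α K)) (rowB b' ((h⁻¹ : (Matrix α α K)ˣ) : Matrix α α K)) ξ := by
  constructor
  · intro hP Y hY Y' hY' a a' h1 h2
    obtain ⟨y, rfl⟩ := exists_cls b hb Y
    obtain ⟨y', rfl⟩ := exists_cls b hb Y'
    rw [fB_cls] at h1 h2
    have h3 : H69.cj h⁻¹ (famX b n (⟨y, hY⟩, ⟨y', hY'⟩)) a a' ≠ 0 := by
      unfold famX
      rw [cj_rk hd]
      exact mul_ne_zero h1 h2
    exact ⟨hP.1 _ ⟨_, rfl⟩ a a' h3, fun hnt => hP.2 _ ⟨_, hnt, rfl⟩ a a' h3⟩
  · intro hP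
    refine ⟨?_, ?_⟩
    · rintro _ ⟨⟨y, y'⟩, rfl⟩ a a' h3
      unfold famX at h3
      rw [cj_rk hd] at h3
      refine (hP _ y.2 _ y'.2 a a' ?_ ?_).1
      · rw [fB_cls]; exact left_ne_zero_of_mul h3
      · rw [fB_cls]; exact right_ne_zero_of_mul h3
    · rintro _ ⟨⟨y, y'⟩, hyy, rfl⟩ a a' h3
      unfold famX at h3
      rw [cj_rk hd] at h3
      refine (hP _ y.2 _ y'.2 a a' ?_ ?_).2 hyy
      · rw [fB_cls]; exact left_ne_zero_of_mul h3
      · rw [fB_cls]; exact right_ne_zero_of_mul h3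

theorem exists_posS [CharZero K] {X : 𝒱.Obj} (hpar : W.par X ∈ W.algHom X X) {α : Type} [Fintype α]
    [DecidableEq α] (b : α → W.H X) (n : ℕ) :
    ∃ (h : (Matrix α α K)ˣ) (ξ : α → ℝ),
      PosS (Set.range (famX (W := W) b n)) (famX b n '' famZ b n) h ξ := by
  refine core_K (famZ b n) (famX b n) ?_
  intro d v hv σ
  refine trace_fam W hpar b d (fun k => (v k).1.1) (fun k => (v k).2.1) (fun k => (v k).1.2)
    (fun k => (v k).2.2) hv σ

end H13F
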